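import Mathlib

/-! Abelian groups with the minimal condition on subgroups. -/

namespace H36.CH

open Subgroup

/-- A group with an injective-on-subgroups map into an artinian one is artinian. -/
theorem art_of_injective {M N : Type*} [Group M] [Group N] (f : M →* N)
    (hf : Function.Injective f) (h : WellFoundedLT (Subgroup N)) : WellFoundedLT (Subgroup M) := by
  have hs : StrictMono (fun K : Subgroup M => K.map f) := by
    intro K L hKL
    refine lt_of_le_of_ne (Subgroup.map_mono hKL.le) ?_
    intro he
    exact hKL.ne (Subgroup.map_injective hf he)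
  exact hs.wellFoundedLT

theorem art_of_surjective {M N : Type*} [Group M] [Group N] (f : M →* N)
    (hf : Function.Surjective f) (h : WellFoundedLT (Subgroup M)) : WellFoundedLT (Subgroup N) := by
  have hs : StrictMono (fun K : Subgroup N => K.comap f) := by
    intro K L hKL
    refine lt_of_le_of_ne (Subgroup.comap_mono hKL.le) ?_
    intro he
    exact hKL.ne (Subgroup.comap_injective hf he)
  exact hs.wellFoundedLT

theorem finite_zmod {V : Type*} [AddCommGroup V] (n : ℕ) [NeZero n] [Module (ZMod n) V]
    (h : WellFoundedLT (AddSubgroup V)) : Finite V := by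
  have hA : IsArtinian (ZMod n) V := by
    have hs : StrictMono (fun K : Submodule (ZMod n) V => K.toAddSubgroup) :=
      Submodule.toAddSubgroup_strictMono
    exact hs.wellFoundedLT
  have hN : IsNoetherian (ZMod n) V :=
    IsSemiprimaryRing.isNoetherian_iff_isArtinian.mpr hA
  have hfin : Module.Finite (ZMod n) V := inferInstance
  exact Module.finite_of_finite (ZMod n)

/-- An abelian group of finite exponent with the minimal condition is finite. -/
theorem finite_of_exponent {M : Type*} [CommGroup M] [WellFoundedLT (Subgroup M)] (n : ℕ)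
    (hn : 0 < n) (h : ∀ x : M, x ^ n = 1) : Finite M := by
  have hn' : NeZero n := ⟨hn.ne'⟩
  have h1 : WellFoundedLT (AddSubgroup (Additive M)) := by
    have hs : StrictMono (fun K : AddSubgroup (Additive M) =>
        (AddSubgroup.toSubgroup' K : Subgroup M)) :=
      (AddSubgroup.toSubgroup' (G := M)).strictMono
    exact hs.wellFoundedLT
  have h2 : Finite (Additive M) := @finite_zmod (Additive M) _ n hn'
    (AddCommGroup.zmodModule (n := n) (G := Additive M) (fun x => h x.toMul)) h1
  exact h2

/-- Finiteness of the `n`-torsion. -/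
theorem finite_torsion {M : Type*} [CommGroup M] [WellFoundedLT (Subgroup M)] (n : ℕ)
    (hn : 0 < n) : {x : M | x ^ n = 1}.Finite := by
  let K : Subgroup M := (powMonoidHom n : M →* M).ker
  have : WellFoundedLT (Subgroup K) := art_of_injective K.subtype K.subtype_injective inferInstance
  have h : Finite K := finite_of_exponent n hn (by
    rintro ⟨x, hx⟩
    ext
    have h1 : x ^ n = 1 := hx
    simpa using h1)
  have he : {x : M | x ^ n = 1} = (K : Set M) := by
    ext x
    simp [K, MonoidHom.mem_ker]
  rw [he]
  exact Set.toFinite _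

/-- Artinian groups are torsion. -/
theorem torsion_of_art {M : Type*} [Group M] [WellFoundedLT (Subgroup M)] (x : M) :
    ∃ n : ℕ, 0 < n ∧ x ^ n = 1 := by
  by_contra hcon
  push Not at hcon
  let f : ℕ → Subgroup M := fun k => Subgroup.zpowers (x ^ (2 ^ k))
  have hf : ∀ k, f (k + 1) < f k := by
    intro k
    refine lt_of_le_of_ne ?_ ?_
    · rw [Subgroup.zpowers_le]
      refine ⟨2, ?_⟩
      show (x ^ (2 ^ k)) ^ (2 : ℤ) = x ^ (2 ^ (k + 1))
      rw [zpow_ofNat, ← pow_mul, pow_succ]
    · intro he
      have h1 : x ^ (2 ^ k) ∈ f (k + 1) := by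
        rw [he]; exact Subgroup.mem_zpowers _
      obtain ⟨m, hm⟩ := h1
      have h2 : x ^ (((2 : ℤ) ^ (k + 1)) * m) = x ^ ((2 : ℤ) ^ k) := by
        rw [zpow_mul]
        have : x ^ ((2 : ℤ) ^ (k + 1)) = x ^ (2 ^ (k + 1)) := by
          rw [← zpow_natCast]; push_cast; rfl
        rw [this]
        have h3 : x ^ ((2 : ℤ) ^ k) = x ^ (2 ^ k) := by
          rw [← zpow_natCast]; push_cast; rfl
        rw [h3]
        exact hm
      have hinj : Function.Injective (fun n : ℤ => x ^ n) := by
        rw [injective_zpow_iff_not_isOfFinOrder]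
        intro hfin
        rw [isOfFinOrder_iff_pow_eq_one] at hfin
        obtain ⟨n, hn, hn1⟩ := hfin
        exact hcon n hn hn1
      have h4 := hinj h2
      have h5 : (2 : ℤ) ^ k * (2 * m - 1) = 0 := by
        have : ((2 : ℤ) ^ (k + 1)) * m = (2 : ℤ) ^ k := h4
        rw [pow_succ] at this
        linear_combination this
      rcases mul_eq_zero.mp h5 with h6 | h6
      · exact absurd h6 (by positivity)
      · omega
  have hanti : StrictAnti f := strictAnti_nat_of_succ_lt hf
  obtain ⟨a, ⟨k, rfl⟩, hk⟩ := (wellFounded_lt (α := Subgroup M)).has_min (Set.range f) ⟨f 0, 0, rfl⟩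
  exact hk (f (k + 1)) ⟨k + 1, rfl⟩ (hf k)

end H36.CH
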