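import Pool.Agent.H36.CH.Red3

/-! General facts in a minimal configuration. -/

namespace H36.CH

open Subgroup Pointwise

variable {G : Type*} [Group G] {A A0 P B B0 Q : Subgroup G}

theorem Cfg.symm (h : Cfg A A0 P B B0 Q) : Cfg B B0 Q A A0 P where
  hyp := h.hyp.symm
  maxA := h.maxB
  maxB := h.maxA
  cent := fun g h1 h2 => h.cent g h2 h1
  ne := fun hcon => h.ne (fun x hx y hy => (hcon y hy x hx).symm)

theorem Cfg.inf0 (h : Cfg A A0 P B B0 Q) {x : G} (hx : x ∈ A0) (hx2 : x ∈ B0) : x = 1 :=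
  h.cent x (fun y hy => h.hyp.sa.comm0 x hx y (h.hyp.sa.le_A0 hy))
    (fun y hy => h.hyp.sb.comm0 x hx2 y (h.hyp.sb.le_A0 hy))

/-- Elements of a Chernikov group have finite order. -/
theorem DP.torsion {A P : Subgroup G} (h : DP A P) {a : G} (ha : a ∈ A) :
    ∃ n : ℕ, 0 < n ∧ a ^ n = 1 := by
  obtain ⟨n, hn, -, hn2⟩ := exists_pow_mem_of_relIndex_ne_zero h.fin ha
  obtain ⟨m, hm, hm1⟩ := h.dc.torsion hn2.1
  exact ⟨n * m, Nat.mul_pos hn hm, by rw [pow_mul]; exact hm1⟩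

theorem Side.fin_tors0 {A A0 P : Subgroup G} (h : Side A A0 P) (n : ℕ) (hn : 0 < n) :
    {x | x ∈ A0 ∧ x ^ n = 1}.Finite := by
  classical
  obtain ⟨t, -, ht2⟩ := exists_reps h.dp.fin
  have hsub : {x | x ∈ A0 ∧ x ^ n = 1} ⊆
      ⋃ c ∈ t, {x | x ∈ A0 ∧ x ^ n = 1 ∧ c⁻¹ * x ∈ P} := by
    rintro x ⟨hx, hx1⟩
    obtain ⟨c, hc, hcx⟩ := ht2 x (h.le0 hx)
    exact Set.mem_biUnion hc ⟨hx, hx1, hcx⟩
  refine Set.Finite.subset (Set.Finite.biUnion t.finite_toSet ?_) hsub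
  intro c _
  by_cases hne : ∃ x0, x0 ∈ A0 ∧ x0 ^ n = 1 ∧ c⁻¹ * x0 ∈ P
  · obtain ⟨x0, hx0, hx01, hx0P⟩ := hne
    refine ((h.dp.dc.fin_tors n hn).image (fun y => x0 * y)).subset ?_
    rintro x ⟨hx, hx1, hxP⟩
    refine ⟨x0⁻¹ * x, ⟨?_, ?_⟩, by show x0 * (x0⁻¹ * x) = x; group⟩
    · have h1 := P.mul_mem (P.inv_mem hx0P) hxP
      have h2 : (c⁻¹ * x0)⁻¹ * (c⁻¹ * x) = x0⁻¹ * x := by group
      rwa [h2] at h1
    · have hcomm : Commute x0⁻¹ x := by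
        have : Commute x0 x := h.comm0 x0 hx0 x hx
        exact this.inv_left
      rw [hcomm.mul_pow, inv_pow, hx01, hx1, inv_one, one_mul]
  · have : {x | x ∈ A0 ∧ x ^ n = 1 ∧ c⁻¹ * x ∈ P} = ∅ := by
      rw [Set.eq_empty_iff_forall_notMem]
      intro x hx
      exact hne ⟨x, hx⟩
    rw [this]
    exact Set.finite_empty

theorem Cfg.Nz_ne_top (h : Cfg A A0 P B B0 Q) : Nz P ≠ ⊤ := by
  intro h1
  exact h.ne (comm_of_normal h.hyp.sa.dp.dc h.hyp.sb.dp.dc (by rw [h1]; exact le_top))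

theorem Cfg.sub_top (h : Cfg A A0 P B B0 Q) {L : Subgroup G} (hL : A ≤ L) (hne : L ≠ ⊤) :
    P.relIndex L ≠ 0 ∧ L ≤ Nz P := by
  have h1 : A.relIndex L ≠ 0 := (h.maxA L hL).resolve_left hne
  have h2 : P.relIndex L ≠ 0 := Subgroup.relIndex_ne_zero_trans h.hyp.sa.dp.fin h1
  have h3 : DP L P := ⟨h.hyp.sa.dp.dc, h.hyp.sa.dp.le.trans hL, h2⟩
  exact ⟨h2, h3.le_Nz⟩

theorem Cfg.fin_Nz (h : Cfg A A0 P B B0 Q) {L : Subgroup G} (hL : A ≤ L) (hne : L ≠ ⊤) :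
    {b | b ∈ B ∧ b ∈ L}.Finite := by
  obtain ⟨h2, -⟩ := h.sub_top hL hne
  have h3 : P.relIndex (L ⊓ Q) ≠ 0 := fun h0 =>
    h2 (Subgroup.relIndex_eq_zero_of_le_right inf_le_left h0)
  have h4 : ((P ⊓ (L ⊓ Q) : Subgroup G) : Set G).Finite := by
    refine (Set.finite_singleton (1 : G)).subset ?_
    rintro x ⟨hx1, hx2⟩
    exact h.inf0 (h.hyp.sa.le_A0 hx1) (h.hyp.sb.le_A0 hx2.2)
  have h5 := finite_of_relIndex h3 h4
  have h6 : Q.relIndex (L ⊓ B) ≠ 0 := fun h0 =>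
    h.hyp.sb.dp.fin (Subgroup.relIndex_eq_zero_of_le_right inf_le_right h0)
  have h7 : ((Q ⊓ (L ⊓ B) : Subgroup G) : Set G).Finite := by
    refine h5.subset ?_
    rintro x ⟨hx1, hx2⟩
    exact ⟨hx2.1, hx1⟩
  refine (finite_of_relIndex h6 h7).subset ?_
  rintro x ⟨hx1, hx2⟩
  exact ⟨hx2, hx1⟩

theorem Cfg.fin_NB (h : Cfg A A0 P B B0 Q) : {b | b ∈ B ∧ b ∈ Nz P}.Finite :=
  h.fin_Nz h.hyp.sa.dp.le_Nz h.Nz_ne_top

theorem DC.eq_bot_of_finite {P : Subgroup G} (h : DC P) (hf : (P : Set G).Finite) : P = ⊥ := by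
  have h1 : P ≤ ⊥ := by
    refine h.le_of_relIndex ?_
    rw [Subgroup.relIndex_bot_left]
    have := hf.to_subtype
    exact Nat.card_pos.ne'
  exact le_antisymm h1 bot_le

theorem Cfg.infP (h : Cfg A A0 P B B0 Q) : (P : Set G).Infinite := by
  intro hf
  have h1 := h.hyp.sa.dp.dc.eq_bot_of_finite hf
  apply h.ne
  intro x hx y hy
  rw [h1, Subgroup.mem_bot] at hx
  rw [hx, one_mul, mul_one]

theorem Cfg.Nz_sub (h : Cfg A A0 P B B0 Q) {X : Subgroup G} (hX : X ≤ A0) (hX1 : X ≠ ⊥) :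
    Nz X ≠ ⊤ := by
  intro htop
  apply hX1
  rw [eq_bot_iff]
  intro x hx
  rw [Subgroup.mem_bot]
  refine h.cent x (fun y hy => h.hyp.sa.comm0 x (hX hx) y (h.hyp.sa.le_A0 hy)) ?_
  intro y hy
  obtain ⟨n, hn, hn1⟩ := h.hyp.sa.dp.torsion (h.hyp.sa.le0 (hX hx))
  refine (h.hyp.sb.dp.dc.comm_of_finite x ((h.hyp.sa.fin_tors0 n hn).subset ?_) y hy).symm
  rintro _ ⟨q, hq, rfl⟩
  have hq2 : q ∈ Nz X := by rw [htop]; exact Subgroup.mem_top q
  refine ⟨hX (hq2 x hx).1, ?_⟩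
  rw [conj_pow, hn1, mul_one, mul_inv_cancel]

theorem Cfg.Nz_le (h : Cfg A A0 P B B0 Q) {X : Subgroup G} (hX : X ≤ A0) (hX1 : X ≠ ⊥)
    (hA : A ≤ Nz X) : Nz X ≤ Nz P := (h.sub_top hA (h.Nz_sub hX hX1)).2

/-- `G = AW` for every nontrivial normal subgroup `W`. -/
theorem Cfg.sup_normal_top (h : Cfg A A0 P B B0 Q) (W : Subgroup G) (hW : W.Normal)
    (hW1 : W ≠ ⊥) : A ⊔ W = ⊤ := by
  by_contra hne
  obtain ⟨h2, -⟩ := h.sub_top (L := A ⊔ W) le_sup_left hne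
  have h3 : P.relIndex W ≠ 0 := fun h0 =>
    h2 (Subgroup.relIndex_eq_zero_of_le_right le_sup_right h0)
  by_cases hfin : (W : Set G).Finite
  · apply hW1
    rw [eq_bot_iff]
    intro x hx
    rw [Subgroup.mem_bot]
    have key : ∀ R : Subgroup G, DC R → ∀ p ∈ R, p * x = x * p := by
      intro R hR
      refine hR.comm_of_finite x (hfin.subset ?_)
      rintro _ ⟨p, hp, rfl⟩
      exact hW.conj_mem x hx p
    exact h.cent x (fun y hy => (key P h.hyp.sa.dp.dc y hy).symm)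
      (fun y hy => (key Q h.hyp.sb.dp.dc y hy).symm)
  · obtain ⟨D, hD⟩ : ∃ D : Subgroup G, DP (P ⊓ W) D := by
      refine exists_DP ?_ (art_mono inf_le_left h.hyp.sa.dp.dc.art)
      intro x hx y hy
      exact h.hyp.sa.dp.dc.comm x hx.1 y hy.1
    have hDW : DP W D := by
      refine ⟨hD.dc, hD.le.trans inf_le_right, ?_⟩
      refine Subgroup.relIndex_ne_zero_trans hD.fin ?_
      rw [Subgroup.inf_relIndex_right]
      exact h3
    have hDne : D ≠ ⊥ := by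
      intro he
      apply hfin
      have h4 := hDW.fin
      rw [he, Subgroup.relIndex_bot_left] at h4
      exact Nat.finite_of_card_ne_zero h4
    have hnz : Nz D = ⊤ := by
      rw [eq_top_iff]
      intro g _
      refine hDW.dc.mem_Nz g ?_
      exact hDW.dc.conj_le hDW.fin g (fun x hx => hW.conj_mem x (hDW.le hx) g)
    exact h.Nz_sub ((hD.le.trans inf_le_left).trans h.hyp.sa.le_A0) hDne hnz

/-- Fusion of normal cyclic subgroups is controlled by the normaliser of `P`. -/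
theorem Cfg.fusion (h : Cfg A A0 P B B0 Q) {w g : G} (hw : w ∈ A0) (hw' : g * w * g⁻¹ ∈ A0)
    (hne : g * w * g⁻¹ ≠ 1) (hA : A ≤ Nz (Subgroup.zpowers (g * w * g⁻¹))) : g ∈ Nz P := by
  have hX : Subgroup.zpowers (g * w * g⁻¹) ≤ A0 := by
    rw [Subgroup.zpowers_le]; exact hw'
  have hX1 : Subgroup.zpowers (g * w * g⁻¹) ≠ ⊥ := by
    intro h1
    rw [Subgroup.zpowers_eq_bot] at h1
    exact hne h1
  have htop := h.Nz_sub hX hX1
  obtain ⟨hfin, -⟩ := h.sub_top hA htop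
  refine h.hyp.sa.dp.dc.mem_Nz g ?_
  refine h.hyp.sa.dp.dc.conj_le hfin g ?_
  intro x hx
  -- `g x g⁻¹` centralises `g w g⁻¹`
  have hcomm : (g * x * g⁻¹) * (g * w * g⁻¹) = (g * w * g⁻¹) * (g * x * g⁻¹) := by
    have h1 := h.hyp.sa.comm0 x (h.hyp.sa.le_A0 hx) w hw
    calc (g * x * g⁻¹) * (g * w * g⁻¹) = g * (x * w) * g⁻¹ := by group
      _ = g * (w * x) * g⁻¹ := by rw [h1]
      _ = _ := by group
  generalize g * x * g⁻¹ = u at hcomm
  generalize g * w * g⁻¹ = v at hcomm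
  intro y hy
  obtain ⟨m, rfl⟩ := Subgroup.mem_zpowers_iff.mp hy
  have hc : u * v ^ m = v ^ m * u := (Commute.zpow_right (show Commute u v from hcomm) m).eq
  refine ⟨?_, ?_⟩
  · rw [hc, mul_inv_cancel_right]; exact hy
  · rw [mul_assoc, ← hc, inv_mul_cancel_left]; exact hy

end H36.CH
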