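import Pool.Agent.H36.CH.Core1

/-! Products of conjugacy classes; the case where `P` and `Q` are central. -/

namespace H36.CH

open Subgroup Pointwise

variable {G : Type*} [Group G] {A A0 P B B0 Q : Subgroup G}

/-- The right stabiliser of the conjugacy class of `a`. -/
def RSt (a : G) : Subgroup G where
  carrier := {w | ∀ s, IsConj a s → IsConj a (s * w) ∧ IsConj a (s * w⁻¹)}
  one_mem' := by
    intro s hs
    simpa using hs
  mul_mem' := by
    intro u v hu hv s hs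
    refine ⟨?_, ?_⟩
    · rw [← mul_assoc]
      exact (hv _ (hu s hs).1).1
    · rw [mul_inv_rev, ← mul_assoc]
      exact (hu _ (hv s hs).2).2
  inv_mem' := by
    intro u hu s hs
    refine ⟨(hu s hs).2, ?_⟩
    rw [inv_inv]
    exact (hu s hs).1

theorem RSt_normal (a : G) : (RSt a).Normal := by
  refine ⟨fun w hw g => ?_⟩
  intro s hs
  have h1 : IsConj a (g⁻¹ * s * g) := by
    refine hs.trans ?_
    rw [isConj_iff]
    exact ⟨g⁻¹, by rw [inv_inv]⟩
  have h2 := hw _ h1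
  refine ⟨?_, ?_⟩
  · refine h2.1.trans ?_
    rw [isConj_iff]
    exact ⟨g, by group⟩
  · refine h2.2.trans ?_
    rw [isConj_iff]
    exact ⟨g, by group⟩

/-- No class of a nontrivial element of `A0` is invariant under a nontrivial normal subgroup. -/
theorem Cfg.RSt_bot (h : Cfg A A0 P B B0 Q) (hAB : ∀ x ∈ A0, x ∈ B → x = 1) {a : G}
    (ha : a ∈ A0) (ha1 : a ≠ 1) : RSt a = ⊥ := by
  by_contra hne
  have hn := RSt_normal a
  have htop : B ⊔ RSt a = ⊤ := h.symm.sup_normal_top (RSt a) hn hne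
  have hmem : a ∈ B ⊔ RSt a := by rw [htop]; exact Subgroup.mem_top a
  obtain ⟨b, hb, w, hw, hbw⟩ := Subgroup.mem_sup_of_normal_right.mp hmem
  have h1 : IsConj a (a * w⁻¹) := (hw a (IsConj.refl a)).2
  have h2 : a * w⁻¹ = b := by rw [← hbw, mul_inv_cancel_right]
  rw [h2, isConj_iff] at h1
  obtain ⟨k, hk⟩ := h1
  obtain ⟨b', hb', c, hc, rfl⟩ := h.symm.hyp.fac k
  -- `c a c⁻¹` lies in `A0` and in `B`
  have hcA0 : c * a * c⁻¹ ∈ A0 := by
    by_cases hc0 : c ∈ A0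
    · exact A0.mul_mem (A0.mul_mem hc0 ha) (A0.inv_mem hc0)
    · have h3 : c * a ∉ A0 := by
        intro h4
        apply hc0
        have := A0.mul_mem h4 (A0.inv_mem ha)
        rwa [mul_inv_cancel_right] at this
      have h5 : c⁻¹ ∉ A0 := fun h6 => hc0 (by simpa using A0.inv_mem h6)
      exact h.hyp.sa.idx _ (A.mul_mem hc (h.hyp.sa.le0 ha)) _ (A.inv_mem hc) h3 h5
  have hcB : c * a * c⁻¹ ∈ B := by
    have h3 : c * a * c⁻¹ = b'⁻¹ * (b' * c * a * (b' * c)⁻¹) * b' := by group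
    rw [h3, hk]
    exact B.mul_mem (B.mul_mem (B.inv_mem hb') hb) hb'
  have h4 := hAB _ hcA0 hcB
  apply ha1
  have h5 : a = c⁻¹ * (c * a * c⁻¹) * c := by group
  rw [h5, h4]
  group

/-- The product of the classes of two elements centralised by `A` and by `B` is a class. -/
theorem Cfg.class_mul (h : Cfg A A0 P B B0 Q) {a z : G} (ha : ∀ x ∈ A, x * a = a * x)
    (hz : ∀ x ∈ B, x * z = z * x) {s u : G} (hs : IsConj a s) (hu : IsConj z u) :
    IsConj (a * z) (s * u) := by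
  rw [isConj_iff] at hs hu
  obtain ⟨g, rfl⟩ := hs
  obtain ⟨k, rfl⟩ := hu
  obtain ⟨b, hb, c, hc, hbc⟩ := h.symm.hyp.fac (k⁻¹ * g)
  have hg : g = k * (b * c) := by rw [← hbc]; group
  rw [isConj_iff]
  refine ⟨k * b, ?_⟩
  have h1 : c * a * c⁻¹ = a := by rw [ha c hc, mul_inv_cancel_right]
  have h2 : b * z * b⁻¹ = z := by rw [hz b hb, mul_inv_cancel_right]
  rw [hg]
  calc k * b * (a * z) * (k * b)⁻¹ = k * (b * a * b⁻¹) * (b * z * b⁻¹) * k⁻¹ := by group
    _ = k * (b * a * b⁻¹) * z * k⁻¹ := by rw [h2]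
    _ = k * (b * (c * a * c⁻¹) * b⁻¹) * z * k⁻¹ := by rw [h1]
    _ = _ := by group

/-- A central element `z ≠ 1` of `B` does not fuse `az` into `A` (for central elements of `A`). -/
theorem Cfg.no_fusion (h : Cfg A A0 P B B0 Q) (hAB : ∀ x ∈ A0, x ∈ B → x = 1) {a a' z : G}
    (ha0 : a ∈ A0) (ha : ∀ x ∈ A, x * a = a * x) (ha0' : a' ∈ A0) (ha' : ∀ x ∈ A, x * a' = a' * x)
    (hzB : z ∈ B) (hz : ∀ x ∈ B, x * z = z * x) (hz1 : z ≠ 1) : ¬ IsConj (a * z) a' := by
  intro hcon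
  have hAc : ∀ x : G, x ∈ A0 → (∀ y ∈ A, y * x = x * y) → ∀ b ∈ B, IsConj b x → x = 1 := by
    intro x hx hxc b hb hconj
    rw [isConj_comm, isConj_iff] at hconj
    obtain ⟨k, hk⟩ := hconj
    obtain ⟨b', hb', c, hc, rfl⟩ := h.symm.hyp.fac k
    apply hAB x hx
    have h1 : c * x * c⁻¹ = x := by rw [hxc c hc, mul_inv_cancel_right]
    have h2 : x = b'⁻¹ * b * b' := by
      rw [← hk]
      calc x = c * x * c⁻¹ := h1.symm
        _ = _ := by group
    rw [h2]
    exact B.mul_mem (B.mul_mem (B.inv_mem hb') hb) hb'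
  by_cases ha1 : a = 1
  · rw [ha1, one_mul] at hcon
    have h1 := hAc a' ha0' ha' z hzB hcon
    rw [h1] at hcon
    exact hz1 (isConj_one_left.mp hcon)
  · have hbot := h.RSt_bot hAB ha0 ha1
    -- `z` is not centralised by `P`
    have hP : ∃ g : G, g * z * g⁻¹ ≠ z := by
      by_contra hall
      push Not at hall
      apply hz1
      refine h.cent z ?_ ?_
      · intro x _
        have := hall x
        rw [mul_inv_eq_iff_eq_mul] at this
        exact this.symm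
      · intro y hy
        exact (hz y (h.hyp.sb.dp.le hy)).symm
    obtain ⟨g, hg⟩ := hP
    have hinv : ∀ x ∈ B, x * z⁻¹ = z⁻¹ * x := by
      intro x hx
      have h1 : Commute x z := hz x hx
      exact h1.inv_right
    have hstep : ∀ s, IsConj a s → ∀ u1 u2, IsConj z u1 → IsConj z u2 →
        IsConj a (s * (u1 * u2⁻¹)) := by
      intro s hs u1 u2 hu1 hu2
      have h1 : IsConj (a * z) (s * u1) := h.class_mul ha hz hs hu1
      have h2 : IsConj a' (s * u1) := hcon.symm.trans h1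
      have h3 : IsConj z⁻¹ u2⁻¹ := by
        rw [isConj_iff] at hu2 ⊢
        obtain ⟨k, rfl⟩ := hu2
        exact ⟨k, by group⟩
      have h4 : IsConj (a' * z⁻¹) (s * u1 * u2⁻¹) := h.class_mul ha' hinv h2 h3
      have h5 : IsConj (a' * z⁻¹) a := by
        have h6 : IsConj a' (a * z) := hcon.symm
        have h7 : IsConj (a' * z⁻¹) (a * z * z⁻¹) := h.class_mul ha' hinv h6 (IsConj.refl _)
        rwa [mul_inv_cancel_right] at h7
      rw [← mul_assoc]
      exact h5.symm.trans h4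
    have hw : g * z * g⁻¹ * z⁻¹ ∈ RSt a := by
      intro s hs
      have hc1 : IsConj z (g * z * g⁻¹) := by rw [isConj_iff]; exact ⟨g, rfl⟩
      refine ⟨hstep s hs _ _ hc1 (IsConj.refl z), ?_⟩
      have h1 := hstep s hs _ _ (IsConj.refl z) hc1
      have h2 : (g * z * g⁻¹ * z⁻¹)⁻¹ = z * (g * z * g⁻¹)⁻¹ := by group
      rw [h2]
      exact h1
    rw [hbot, Subgroup.mem_bot, mul_inv_eq_one] at hw
    exact hg hw

/-- Pigeonhole: conjugates of elements of `P` have a prescribed shape. -/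
theorem Cfg.pigeon (h : Cfg A A0 P B B0 Q) (y : G) :
    ∃ a ∈ A, ∃ w ∈ P, w ≠ 1 ∧ ∃ q ∈ Q, ∃ α ∈ P, y * w * y⁻¹ = a * (q * α) * a⁻¹ := by
  classical
  obtain ⟨s, hs, hs2⟩ := exists_reps h.hyp.sa.dp.fin
  obtain ⟨t, ht, ht2⟩ := exists_reps h.hyp.sb.dp.fin
  have hex : ∀ x : G, ∃ a ∈ A, ∃ b ∈ B, y * x = a * b := fun x => h.hyp.fac (y * x)
  choose a ha b hb hab using hex
  have hc : ∀ x : G, ∃ c ∈ s, c⁻¹ * a x ∈ P := fun x => hs2 (a x) (ha x)
  have hd : ∀ x : G, ∃ d ∈ t, d⁻¹ * (b x)⁻¹ ∈ Q := fun x => ht2 (b x)⁻¹ (B.inv_mem (hb x))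
  choose c hc1 hc2 using hc
  choose d hd1 hd2 using hd
  have hmaps : Set.MapsTo (fun x => (c x, d x)) (P : Set G) ((s ×ˢ t : Finset (G × G)) : Set (G × G)) := by
    intro x _
    simp only [Finset.coe_product, Set.mem_prod, Finset.mem_coe]
    exact ⟨hc1 x, hd1 x⟩
  obtain ⟨x, hx, x', hx', hne, heq⟩ := h.infP.exists_ne_map_eq_of_mapsTo hmaps (Finset.finite_toSet _)
  have hce : c x = c x' := congrArg Prod.fst heq
  have hde : d x = d x' := congrArg Prod.snd heq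
  refine ⟨a x, ha x, x * x'⁻¹, P.mul_mem hx (P.inv_mem hx'), ?_, b x * (b x')⁻¹, ?_,
    (a x')⁻¹ * a x, ?_, ?_⟩
  · intro h1
    exact hne (mul_inv_eq_one.mp h1)
  · have h1 := Q.mul_mem (Q.inv_mem (hd2 x)) (hd2 x')
    have h2 : ((d x)⁻¹ * (b x)⁻¹)⁻¹ * ((d x')⁻¹ * (b x')⁻¹) = b x * (b x')⁻¹ := by
      rw [hde]; group
    rwa [h2] at h1
  · have h1 := P.mul_mem (P.inv_mem (hc2 x')) (hc2 x)
    have h2 : ((c x')⁻¹ * a x')⁻¹ * ((c x)⁻¹ * a x) = (a x')⁻¹ * a x := by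
      rw [hce]; group
    rwa [h2] at h1
  · have h1 : y * (x * x'⁻¹) * y⁻¹ = (y * x) * (y * x')⁻¹ := by group
    rw [h1, hab x, hab x']
    group

/-- Both divisible parts central: contradiction. -/
theorem Cfg.central_false (h : Cfg A A0 P B B0 Q) (hAB : ∀ x ∈ A0, x ∈ B → x = 1)
    (hP : ∀ p ∈ P, ∀ x ∈ A, x * p = p * x) (hQ : ∀ q ∈ Q, ∀ x ∈ B, x * q = q * x) : False := by
  -- `B` is not contained in the normaliser of `P`
  have hy : ∃ y ∈ B, y ∉ Nz P := by
    by_contra hall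
    push Not at hall
    apply h.Nz_ne_top
    rw [eq_top_iff]
    intro g _
    obtain ⟨a, ha, b, hb, rfl⟩ := h.hyp.fac g
    exact (Nz P).mul_mem (h.hyp.sa.dp.le_Nz ha) (hall b hb)
  obtain ⟨y, hyB, hyN⟩ := hy
  obtain ⟨a, ha, w, hw, hw1, q, hq, α, hα, he⟩ := h.pigeon y
  have hwA : w ∈ A0 := h.hyp.sa.le_A0 hw
  have hαA : α ∈ A0 := h.hyp.sa.le_A0 hα
  have hconj : (a⁻¹ * y) * w * (a⁻¹ * y)⁻¹ = q * α := by
    have h1 : (a⁻¹ * y) * w * (a⁻¹ * y)⁻¹ = a⁻¹ * (y * w * y⁻¹) * a := by group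
    rw [h1, he]
    group
  by_cases hq1 : q = 1
  · rw [hq1, one_mul] at hconj
    have hαne : α ≠ 1 := by
      intro h1
      rw [h1, mul_inv_eq_one] at hconj
      apply hw1
      have h2 : (a⁻¹ * y) * w = (a⁻¹ * y) * 1 := by rw [mul_one]; exact hconj
      exact mul_left_cancel h2
    have hmem : a⁻¹ * y ∈ Nz P := by
      refine h.fusion hwA (by rw [hconj]; exact hαA) (by rw [hconj]; exact hαne) ?_
      rw [hconj]
      intro x hx v hv
      obtain ⟨m, rfl⟩ := Subgroup.mem_zpowers_iff.mp hv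
      have hc : x * α ^ m = α ^ m * x :=
        (Commute.zpow_right (show Commute x α from hP α hα x hx) m).eq
      refine ⟨?_, ?_⟩
      · rw [hc, mul_inv_cancel_right]; exact hv
      · rw [mul_assoc, ← hc, inv_mul_cancel_left]; exact hv
    apply hyN
    have h1 := (Nz P).mul_mem (h.hyp.sa.dp.le_Nz ha) hmem
    rwa [mul_inv_cancel_left] at h1
  · refine h.no_fusion hAB hαA (hP α hα) hwA (hP w hw) (h.hyp.sb.dp.le hq) (hQ q hq) hq1 ?_
    have h1 : IsConj w (q * α) := by rw [isConj_iff]; exact ⟨_, hconj⟩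
    refine IsConj.trans ?_ h1.symm
    rw [isConj_iff]
    exact ⟨q, by group⟩

/-- The class of products of two abelian groups. -/
theorem cls_ab : Cls (fun _ _ A A0 B B0 => A ≤ A0 ∧ B ≤ B0) where
  sub := by
    intro G _ A A0 B B0 A' B' L hC hA hB hAL hBL
    exact ⟨Subgroup.comap_mono (le_inf (hA.trans hC.1) le_rfl),
      Subgroup.comap_mono (le_inf (hB.trans hC.2) le_rfl)⟩
  map := by
    intro G _ G' _ A A0 B B0 f hC
    exact ⟨Subgroup.map_mono hC.1, Subgroup.map_mono hC.2⟩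

/-- Products of two abelian Chernikov groups: the divisible parts commute. -/
theorem abelian_case (G : Type) [Group G] (A A0 P B B0 Q : Subgroup G)
    (h : Hyp A A0 P B B0 Q) (hA : A ≤ A0) (hB : B ≤ B0) : ∀ x ∈ P, ∀ y ∈ Q, x * y = y * x := by
  refine reduction cls_ab ?_ G A A0 P B B0 Q h ⟨hA, hB⟩
  intro G _ A A0 P B B0 Q h hC
  refine h.central_false (fun x hx hxB => h.inf0 hx (hC.2 hxB)) ?_ ?_
  · intro p hp x hx
    exact h.hyp.sa.comm0 x (hC.1 hx) p (h.hyp.sa.le_A0 hp)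
  · intro p hp x hx
    exact h.hyp.sb.comm0 x (hC.2 hx) p (h.hyp.sb.le_A0 hp)

end H36.CH
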