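import Pool.Agent.H36.CH.Core2

/-! The left stabiliser of the set `A * B0`. -/

namespace H36.CH

open Subgroup Pointwise

variable {G : Type*} [Group G] {A A0 P B B0 Q : Subgroup G}

/-- Membership in `A * B0`. -/
def InS (A B0 : Subgroup G) (g : G) : Prop := ∃ a ∈ A, ∃ b ∈ B0, g = a * b

/-- The left stabiliser of `A * B0`. -/
def Sig (A B0 : Subgroup G) : Subgroup G where
  carrier := {g | ∀ a ∈ A, InS A B0 (g * a) ∧ InS A B0 (g⁻¹ * a)}
  one_mem' := by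
    intro a ha
    have h1 : InS A B0 a := ⟨a, ha, 1, B0.one_mem, (mul_one a).symm⟩
    simpa using h1
  mul_mem' := by
    intro g g' hg hg' a ha
    refine ⟨?_, ?_⟩
    · obtain ⟨a1, ha1, b1, hb1, he1⟩ := (hg' a ha).1
      obtain ⟨a2, ha2, b2, hb2, he2⟩ := (hg a1 ha1).1
      refine ⟨a2, ha2, b2 * b1, B0.mul_mem hb2 hb1, ?_⟩
      rw [mul_assoc, he1, ← mul_assoc, he2, mul_assoc]
    · obtain ⟨a1, ha1, b1, hb1, he1⟩ := (hg a ha).2
      obtain ⟨a2, ha2, b2, hb2, he2⟩ := (hg' a1 ha1).2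
      refine ⟨a2, ha2, b2 * b1, B0.mul_mem hb2 hb1, ?_⟩
      rw [mul_inv_rev, mul_assoc, he1, ← mul_assoc, he2, mul_assoc]
  inv_mem' := by
    intro g hg a ha
    refine ⟨(hg a ha).2, ?_⟩
    rw [inv_inv]
    exact (hg a ha).1

theorem le_Sig : A ≤ Sig A B0 := by
  intro g hg a ha
  exact ⟨⟨g * a, A.mul_mem hg ha, 1, B0.one_mem, (mul_one _).symm⟩,
    ⟨g⁻¹ * a, A.mul_mem (A.inv_mem hg) ha, 1, B0.one_mem, (mul_one _).symm⟩⟩

theorem mem_Sig_of_pow {y : G} {n : ℕ} (hn : 0 < n) (hy : y ^ n = 1)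
    (h : ∀ a ∈ A, InS A B0 (y * a)) : y ∈ Sig A B0 := by
  have key : ∀ k : ℕ, ∀ a ∈ A, InS A B0 (y ^ k * a) := by
    intro k
    induction k with
    | zero =>
      intro a ha
      exact ⟨a, ha, 1, B0.one_mem, by rw [pow_zero, one_mul, mul_one]⟩
    | succ k ih =>
      intro a ha
      obtain ⟨a1, ha1, b1, hb1, he1⟩ := ih a ha
      obtain ⟨a2, ha2, b2, hb2, he2⟩ := h a1 ha1
      refine ⟨a2, ha2, b2 * b1, B0.mul_mem hb2 hb1, ?_⟩
      rw [pow_succ', mul_assoc, he1, ← mul_assoc, he2, mul_assoc]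
  intro a ha
  refine ⟨h a ha, ?_⟩
  have h1 : y⁻¹ = y ^ (n - 1) := by
    rw [inv_eq_iff_mul_eq_one, ← pow_succ', Nat.sub_add_cancel hn, hy]
  rw [h1]
  exact key (n - 1) a ha

theorem Sig_top (h : Sig A B0 = ⊤) (g : G) : InS A B0 g := by
  have h1 : g ∈ Sig A B0 := by rw [h]; exact Subgroup.mem_top g
  have h2 := (h1 1 A.one_mem).1
  rwa [mul_one] at h2

theorem Cfg.Sig_top_of_central (h : Cfg A A0 P B B0 Q) {z : G} (hz : z ∈ Sig A B0) (hz1 : z ≠ 1)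
    (hzc : ∀ x ∈ B, x * z = z * x) : Sig A B0 = ⊤ := by
  have hW : Subgroup.normalClosure {z} ≤ Sig A B0 := by
    rw [Subgroup.normalClosure, Subgroup.closure_le]
    intro x hx
    rw [Group.mem_conjugatesOfSet_iff] at hx
    obtain ⟨u, hu, hux⟩ := hx
    rw [Set.mem_singleton_iff] at hu
    subst hu
    rw [isConj_iff] at hux
    obtain ⟨g, rfl⟩ := hux
    obtain ⟨a, ha, b, hb, rfl⟩ := h.hyp.fac g
    have h1 : a * b * u * (a * b)⁻¹ = a * u * a⁻¹ := by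
      have h2 : b * u * b⁻¹ = u := by rw [hzc b hb, mul_inv_cancel_right]
      calc a * b * u * (a * b)⁻¹ = a * (b * u * b⁻¹) * a⁻¹ := by group
        _ = _ := by rw [h2]
    rw [h1]
    exact (Sig A B0).mul_mem ((Sig A B0).mul_mem (le_Sig ha) hz) ((Sig A B0).inv_mem (le_Sig ha))
  have hne : Subgroup.normalClosure {z} ≠ ⊥ := by
    intro h1
    apply hz1
    have h2 : z ∈ Subgroup.normalClosure {z} := Subgroup.subset_normalClosure rfl
    rwa [h1, Subgroup.mem_bot] at h2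
  have htop := h.sup_normal_top _ Subgroup.normalClosure_normal hne
  rw [eq_top_iff, ← htop]
  exact sup_le le_Sig hW

theorem Cfg.Sig_top_of_infinite (h : Cfg A A0 P B B0 Q)
    (hinf : {b | b ∈ B ∧ b ∈ Sig A B0}.Infinite) : Sig A B0 = ⊤ := by
  by_contra hne
  exact hinf (h.fin_Nz le_Sig hne)

theorem Side.sq {A A0 P : Subgroup G} (h : Side A A0 P) {b : G} (hb : b ∈ A) (hb0 : b ∉ A0) :
    b * b ∈ A0 ∧ ∀ x ∈ A, x * (b * b) = (b * b) * x := by
  have h1 : b * b ∈ A0 := h.idx b hb b hb hb0 hb0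
  refine ⟨h1, ?_⟩
  intro x hx
  by_cases hx0 : x ∈ A0
  · exact h.comm0 x hx0 _ h1
  · have hbi : b⁻¹ ∉ A0 := fun h2 => hb0 (by simpa using A0.inv_mem h2)
    have h2 : x * b⁻¹ ∈ A0 := h.idx x hx _ (A.inv_mem hb) hx0 hbi
    have h3 := h.comm0 _ h2 _ h1
    calc x * (b * b) = (x * b⁻¹) * (b * b) * b := by group
      _ = (b * b) * (x * b⁻¹) * b := by rw [h3]
      _ = _ := by group

/-- `A0` is normal in `A`. -/
theorem Side.conj0 {A A0 P : Subgroup G} (h : Side A A0 P) {a x : G} (ha : a ∈ A)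
    (hx : x ∈ A0) : a * x * a⁻¹ ∈ A0 := by
  by_cases ha0 : a ∈ A0
  · exact A0.mul_mem (A0.mul_mem ha0 hx) (A0.inv_mem ha0)
  · have h1 : a * x ∉ A0 := by
      intro h2
      apply ha0
      have := A0.mul_mem h2 (A0.inv_mem hx)
      rwa [mul_inv_cancel_right] at this
    have h2 : a⁻¹ ∉ A0 := fun h3 => ha0 (by simpa using A0.inv_mem h3)
    exact h.idx _ (A.mul_mem ha (h.le0 hx)) _ (A.inv_mem ha) h1 h2

/-- An element of `A0` inverted by one element outside of `A0` is inverted by all of them. -/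
theorem Side.inv_all {A A0 P : Subgroup G} (h : Side A A0 P) {t y : G} (ht : t ∈ A)
    (ht0 : t ∉ A0) (hy : y ∈ A0) (hty : t * y * t⁻¹ = y⁻¹) {j : G} (hj : j ∈ A) (hj0 : j ∉ A0) :
    j * y * j⁻¹ = y⁻¹ := by
  have hti : t⁻¹ ∉ A0 := fun h2 => ht0 (by simpa using A0.inv_mem h2)
  have h2 : j * t⁻¹ ∈ A0 := h.idx j hj _ (A.inv_mem ht) hj0 hti
  have h3 := h.comm0 _ h2 _ (A0.inv_mem hy)
  calc j * y * j⁻¹ = (j * t⁻¹) * (t * y * t⁻¹) * (j * t⁻¹)⁻¹ := by group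
    _ = (j * t⁻¹) * y⁻¹ * (j * t⁻¹)⁻¹ := by rw [hty]
    _ = y⁻¹ := by rw [h3, mul_inv_cancel_right]

/-- Elements of `A0` that are central or inverted generate normal subgroups of `A`. -/
theorem Side.le_Nz_of_inv {A A0 P : Subgroup G} (h : Side A A0 P) {t y : G} (ht : t ∈ A)
    (ht0 : t ∉ A0) (hy : y ∈ A0) (hty : t * y * t⁻¹ = y⁻¹) : A ≤ Nz (Subgroup.zpowers y) := by
  intro x hx
  have key : ∀ x ∈ A, ∀ v ∈ Subgroup.zpowers y, x * v * x⁻¹ ∈ Subgroup.zpowers y := by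
    intro x hx v hv
    obtain ⟨m, rfl⟩ := Subgroup.mem_zpowers_iff.mp hv
    have h1 : x * y ^ m * x⁻¹ = (x * y * x⁻¹) ^ m := by rw [conj_zpow]
    rw [h1]
    apply Subgroup.zpow_mem
    by_cases hx0 : x ∈ A0
    · rw [h.comm0 x hx0 y hy, mul_inv_cancel_right]
      exact Subgroup.mem_zpowers y
    · rw [h.inv_all ht ht0 hy hty hx hx0]
      exact Subgroup.inv_mem _ (Subgroup.mem_zpowers y)
  intro v hv
  refine ⟨key x hx v hv, ?_⟩
  have := key x⁻¹ (A.inv_mem hx) v hv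
  rwa [inv_inv] at this

/-- An involution moved into `A * (B \ B0)`. -/
theorem Cfg.claimA (h : Cfg A A0 P B B0 Q) (hA : A ≤ A0) (hAB : ∀ x ∈ A0, x ∈ B → x = 1)
    {j w a b : G} (hj : j * j = 1) (hw : w ∈ A) (ha : a ∈ A) (hb : b ∈ B) (hb0 : b ∉ B0)
    (he : j * w = a * b) : b * b = 1 ∧ b * (w⁻¹ * a) * b⁻¹ = (w⁻¹ * a)⁻¹ := by
  set c := w⁻¹ * a with hc
  have hcA : c ∈ A := A.mul_mem (A.inv_mem hw) ha
  have h1 : c * b = w⁻¹ * j * w := by rw [hc, mul_assoc, ← he]; group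
  have h2 : c * b * (c * b) = 1 := by
    rw [h1]
    calc w⁻¹ * j * w * (w⁻¹ * j * w) = w⁻¹ * (j * j) * w := by group
      _ = 1 := by rw [hj]; group
  have h3 : b * c * b = c⁻¹ := by
    have : c * (b * c * b) = 1 := by rw [← h2]; group
    exact eq_inv_of_mul_eq_one_right this
  obtain ⟨hs0, hsc⟩ := h.hyp.sb.sq hb hb0
  have hbb : b * b = 1 := by
    by_contra hne
    have hcc : ∀ y ∈ A, ∀ x ∈ A, x * y = y * x := fun y hy x hx =>
      h.hyp.sa.comm0 x (hA hx) y (hA hy)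
    refine h.no_fusion hAB (hA hcA) (hcc c hcA) (hA (A.inv_mem hcA)) (hcc c⁻¹ (A.inv_mem hcA))
      (B.mul_mem hb hb) hsc hne ?_
    rw [isConj_iff]
    refine ⟨b, ?_⟩
    rw [← h3]
    group
  refine ⟨hbb, ?_⟩
  have h4 : b⁻¹ = b := inv_eq_of_mul_eq_one_right hbb
  rw [h4]
  exact h3

end H36.CH
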