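import Pool.Agent.H36.CH.Core3

/-! The case of an abelian factor. -/

namespace H36.CH

open Subgroup Pointwise

section

variable {G : Type*} [Group G] {A A0 P B B0 Q : Subgroup G}

/-- If `B` contains no involution outside of `B0` then `G = A * B0`. -/
theorem Cfg.no_inv (h : Cfg A A0 P B B0 Q) (hA : A ≤ A0) (hAB : ∀ x ∈ A0, x ∈ B → x = 1)
    {t : G} (ht : t ∈ B) (ht0 : t ∉ B0) (hno : ∀ b ∈ B, b ∉ B0 → b * b ≠ 1) :
    Sig A B0 = ⊤ := by
  obtain ⟨N, hN, hN1⟩ := h.hyp.sb.dp.torsion ht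
  have hfin : IsOfFinOrder t := isOfFinOrder_iff_pow_eq_one.mpr ⟨N, hN, hN1⟩
  have hpos : 0 < orderOf t := hfin.orderOf_pos
  obtain ⟨hs0, hsc⟩ := h.hyp.sb.sq ht ht0
  have heven_pow : ∀ k : ℕ, t ^ (2 * k) ∈ B0 ∧ ∀ x ∈ B, x * t ^ (2 * k) = t ^ (2 * k) * x := by
    intro k
    rw [pow_mul, pow_two]
    refine ⟨B0.pow_mem hs0 k, fun x hx => ?_⟩
    exact (Commute.pow_right (show Commute x (t * t) from hsc x hx) k).eq
  have hodd_pow : ∀ k : ℕ, t ^ (2 * k + 1) ∉ B0 := by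
    intro k hk
    apply ht0
    rw [pow_succ'] at hk
    have := B0.mul_mem hk (B0.inv_mem (heven_pow k).1)
    rwa [mul_inv_cancel_right] at this
  -- the order of `t` is divisible by four
  rcases Nat.even_or_odd' (orderOf t) with ⟨m, hm | hm⟩
  · rcases Nat.even_or_odd' m with ⟨k, hk | hk⟩
    · set z := t ^ m with hz
      have hz2 : z * z = 1 := by
        rw [hz, ← pow_add, ← two_mul, ← hm]
        exact pow_orderOf_eq_one t
      have hz1 : z ≠ 1 := by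
        intro h1
        have h2 : orderOf t ∣ m := orderOf_dvd_of_pow_eq_one h1
        have h3 := Nat.le_of_dvd (by omega) h2
        omega
      have hzB0 : z ∈ B0 := by rw [hz, hk]; exact (heven_pow k).1
      have hzc : ∀ x ∈ B, x * z = z * x := by rw [hz, hk]; exact (heven_pow k).2
      refine h.Sig_top_of_central (mem_Sig_of_pow (n := 2) two_pos (by rw [pow_two, hz2]) ?_)
        hz1 hzc
      intro w hw
      obtain ⟨a, ha, b, hb, he⟩ := h.hyp.fac (z * w)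
      by_cases hb0 : b ∈ B0
      · exact ⟨a, ha, b, hb0, he⟩
      · exfalso
        exact hno b hb hb0 (h.claimA hA hAB hz2 hw ha hb hb0 he).1
    · exfalso
      have h1 : t ^ m ∉ B0 := by rw [hk]; exact hodd_pow k
      refine hno (t ^ m) (B.pow_mem ht m) h1 ?_
      rw [← pow_add, ← two_mul, ← hm]
      exact pow_orderOf_eq_one t
  · exfalso
    have h1 : t ^ (orderOf t) ∉ B0 := by rw [hm]; exact hodd_pow m
    rw [pow_orderOf_eq_one] at h1
    exact h1 B0.one_mem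

/-- If few elements of `B0` are inverted by the involution `t` then `Q` is central in `B`. -/
theorem Cfg.Q_central (h : Cfg A A0 P B B0 Q) {t : G} (ht : t ∈ B) (ht0 : t ∉ B0)
    (ht1 : t * t = 1) (hfin : {y | y ∈ B0 ∧ t * y * t⁻¹ = y⁻¹}.Finite) :
    ∀ q ∈ Q, ∀ x ∈ B, x * q = q * x := by
  have hti : t⁻¹ = t := inv_eq_of_mul_eq_one_right ht1
  have hqt : ∀ q ∈ Q, q * t = t * q := by
    refine h.hyp.sb.dp.dc.comm_of_finite t ((hfin.image (fun y => y * t)).subset ?_)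
    rintro _ ⟨q, hq, rfl⟩
    have hqB : q ∈ B0 := h.hyp.sb.le_A0 hq
    have h1 : t * q⁻¹ * t⁻¹ ∈ B0 := h.hyp.sb.conj0 ht (B0.inv_mem hqB)
    refine ⟨q * (t * q⁻¹ * t⁻¹), ⟨B0.mul_mem hqB h1, ?_⟩, ?_⟩
    · calc t * (q * (t * q⁻¹ * t⁻¹)) * t⁻¹ = (t * q) * (t * q⁻¹ * (t⁻¹ * t⁻¹)) := by group
        _ = (t * q) * (t * q⁻¹) := by
            have : t⁻¹ * t⁻¹ = 1 := by rw [hti, ht1]
            rw [this, mul_one]
        _ = (t * q * t⁻¹) * q⁻¹ := by rw [hti]; group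
        _ = _ := by group
    · show q * (t * q⁻¹ * t⁻¹) * t = q * t * q⁻¹
      group
  intro q hq x hx
  by_cases hx0 : x ∈ B0
  · exact h.hyp.sb.comm0 x hx0 q (h.hyp.sb.le_A0 hq)
  · have hti0 : t⁻¹ ∉ B0 := fun h2 => ht0 (by simpa using B0.inv_mem h2)
    have h2 : x * t⁻¹ ∈ B0 := h.hyp.sb.idx x hx _ (B.inv_mem ht) hx0 hti0
    have h3 := h.hyp.sb.comm0 _ h2 q (h.hyp.sb.le_A0 hq)
    calc x * q = (x * t⁻¹) * (t * q) := by group
      _ = (x * t⁻¹) * (q * t) := by rw [hqt q hq]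
      _ = ((x * t⁻¹) * q) * t := by group
      _ = (q * (x * t⁻¹)) * t := by rw [h3]
      _ = _ := by group

/-- Involutions outside of `B0`: the product of two of them is inverted. -/
theorem Side.inv_mul {t u : G} (h : Side B B0 Q) (ht : t ∈ B) (ht0 : t ∉ B0) (ht1 : t * t = 1)
    (hu : u ∈ B) (hu0 : u ∉ B0) (hu1 : u * u = 1) :
    t * u⁻¹ ∈ B0 ∧ t * (t * u⁻¹) * t⁻¹ = (t * u⁻¹)⁻¹ := by
  have hui0 : u⁻¹ ∉ B0 := fun h2 => hu0 (by simpa using B0.inv_mem h2)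
  refine ⟨h.idx t ht _ (B.inv_mem hu) ht0 hui0, ?_⟩
  have h1 : u⁻¹ = u := inv_eq_of_mul_eq_one_right hu1
  have h2 : t⁻¹ = t := inv_eq_of_mul_eq_one_right ht1
  rw [h1, ← mul_assoc, ht1, one_mul, mul_inv_rev, h1]

/-- Claim B: for `w` outside of the normaliser of `Q`, almost all involutions `j` satisfy
`j * w ∈ A * B0`. -/
theorem Cfg.claimB (h : Cfg A A0 P B B0 Q) (hA : A ≤ A0) (hAB : ∀ x ∈ A0, x ∈ B → x = 1)
    {w : G} (hw : w ∈ A) (hwM : w ∉ Nz Q) :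
    {j | (j ∈ B ∧ j ∉ B0 ∧ j * j = 1) ∧ ¬ InS A B0 (j * w)}.Finite := by
  classical
  choose α hα β hβ hαβ using fun j => h.hyp.fac (j * w)
  have hsub : {j | (j ∈ B ∧ j ∉ B0 ∧ j * j = 1) ∧ ¬ InS A B0 (j * w)} ⊆
      {j | (j ∈ B ∧ j ∉ B0 ∧ j * j = 1) ∧ β j ∉ B0 ∧ α j = w} ∪
      {j | (j ∈ B ∧ j ∉ B0 ∧ j * j = 1) ∧ β j ∈ Nz P} := by
    rintro j ⟨hj, hjS⟩
    have hb0 : β j ∉ B0 := fun h1 => hjS ⟨α j, hα j, β j, h1, hαβ j⟩
    obtain ⟨h1, h2⟩ := h.claimA hA hAB hj.2.2 hw (hα j) (hβ j) hb0 (hαβ j)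
    by_cases hc : w⁻¹ * α j = 1
    · left
      refine ⟨hj, hb0, ?_⟩
      rw [inv_mul_eq_one] at hc
      exact hc.symm
    · right
      refine ⟨hj, ?_⟩
      have hcA : w⁻¹ * α j ∈ A := A.mul_mem (A.inv_mem hw) (hα j)
      refine h.fusion (w := w⁻¹ * α j) (hA hcA) ?_ ?_ ?_
      · rw [h2]; exact hA (A.inv_mem hcA)
      · rw [h2]; exact inv_ne_one.mpr hc
      · rw [h2]
        intro x hx v hv
        obtain ⟨m, rfl⟩ := Subgroup.mem_zpowers_iff.mp hv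
        have h3 : x * (w⁻¹ * α j)⁻¹ = (w⁻¹ * α j)⁻¹ * x :=
          h.hyp.sa.comm0 x (hA hx) _ (hA (A.inv_mem hcA))
        have h4 : x * ((w⁻¹ * α j)⁻¹) ^ m = ((w⁻¹ * α j)⁻¹) ^ m * x :=
          (Commute.zpow_right (show Commute x _ from h3) m).eq
        refine ⟨?_, ?_⟩
        · rw [h4, mul_inv_cancel_right]; exact hv
        · rw [mul_assoc, ← h4, inv_mul_cancel_left]; exact hv
  refine Set.Finite.subset (Set.Finite.union ?_ ?_) hsub
  · -- at most one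
    refine Set.Subsingleton.finite ?_
    rintro j ⟨hj, hjb, hja⟩ j' ⟨hj', hjb', hja'⟩
    by_contra hne
    apply hwM
    obtain ⟨h1, h2⟩ := h.hyp.sb.inv_mul hj.1 hj.2.1 hj.2.2 hj'.1 hj'.2.1 hj'.2.2
    have he1 : j * w = w * β j := by rw [hαβ j, hja]
    have he2 : j' * w = w * β j' := by rw [hαβ j', hja']
    have h3 : w * (β j * (β j')⁻¹) * w⁻¹ = j * j'⁻¹ := by
      have e1 : w * β j * w⁻¹ = j := by rw [← he1]; group
      have e2 : w * β j' * w⁻¹ = j' := by rw [← he2]; group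
      calc w * (β j * (β j')⁻¹) * w⁻¹ = (w * β j * w⁻¹) * (w * β j' * w⁻¹)⁻¹ := by group
        _ = _ := by rw [e1, e2]
    have hb : β j * (β j')⁻¹ ∈ B0 := by
      have : (β j')⁻¹ ∉ B0 := fun h4 => hjb' (by simpa using B0.inv_mem h4)
      exact h.hyp.sb.idx _ (hβ j) _ (B.inv_mem (hβ j')) hjb this
    refine h.symm.fusion (w := β j * (β j')⁻¹) hb ?_ ?_ ?_
    · rw [h3]; exact h1
    · rw [h3]
      intro h4
      exact hne (mul_inv_eq_one.mp h4)
    · rw [h3]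
      exact h.hyp.sb.le_Nz_of_inv hj.1 hj.2.1 h1 h2
  · -- the map `β` is injective into a finite set
    refine Set.Finite.of_finite_image (f := β) ?_ ?_
    · refine h.fin_NB.subset ?_
      rintro _ ⟨j, hj, rfl⟩
      exact ⟨hβ j, hj.2⟩
    · rintro j ⟨hj, -⟩ j' ⟨hj', -⟩ hbb
      have h1 : j * j'⁻¹ = α j * (α j')⁻¹ := by
        have e1 : j = α j * β j * w⁻¹ := by rw [← hαβ j]; group
        have e2 : j' = α j' * β j' * w⁻¹ := by rw [← hαβ j']; group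
        have e3 : j * j'⁻¹ = (α j * β j * w⁻¹) * (α j' * β j' * w⁻¹)⁻¹ := by rw [← e1, ← e2]
        rw [e3, hbb]
        group
      have h2 : j * j'⁻¹ = 1 := by
        refine hAB _ ?_ (B.mul_mem hj.1 (B.inv_mem hj'.1))
        rw [h1]
        exact hA (A.mul_mem (hα j) (A.inv_mem (hα j')))
      exact mul_inv_eq_one.mp h2

end

end H36.CH
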