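import Pool.Agent.H36.CH.Core4

/-! The case of an abelian factor: conclusion. -/

namespace H36.CH

open Subgroup Pointwise

section

variable {G : Type*} [Group G] {A A0 P B B0 Q : Subgroup G}

/-- Claim C: if `t` is an involution outside of `B0` and `y ∈ B0` is inverted by `t`, then
`y * x ∈ A * B0` for all `x` outside of the normaliser of `Q`. -/
theorem Cfg.claimC (h : Cfg A A0 P B B0 Q) (hA : A ≤ A0) (hAB : ∀ x ∈ A0, x ∈ B → x = 1)
    {t : G} (ht : t ∈ B) (ht0 : t ∉ B0) (ht1 : t * t = 1)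
    (hinf : {y | y ∈ B0 ∧ t * y * t⁻¹ = y⁻¹}.Infinite)
    {x : G} (hx : x ∈ A) (hxM : x ∉ Nz Q) {y : G} (hy : y ∈ B0) (hty : t * y * t⁻¹ = y⁻¹) :
    InS A B0 (y * x) := by
  classical
  by_contra hcon
  obtain ⟨a, ha, b, hb, he⟩ := h.hyp.fac (y * x)
  have hb0 : b ∉ B0 := fun h1 => hcon ⟨a, ha, b, h1, he⟩
  have hti : t⁻¹ = t := inv_eq_of_mul_eq_one_right ht1
  -- the involutions outside of `B0`
  have hJ : {j | j ∈ B ∧ j ∉ B0 ∧ j * j = 1}.Infinite := by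
    have h1 : ((fun y => y * t) '' {y | y ∈ B0 ∧ t * y * t⁻¹ = y⁻¹}).Infinite :=
      hinf.image (fun u _ v _ huv => mul_right_cancel huv)
    refine h1.mono ?_
    rintro _ ⟨u, ⟨hu, htu⟩, rfl⟩
    refine ⟨B.mul_mem (h.hyp.sb.le0 hu) ht, ?_, ?_⟩
    · intro h2
      apply ht0
      have := B0.mul_mem (B0.inv_mem hu) h2
      rwa [inv_mul_cancel_left] at this
    · show u * t * (u * t) = 1
      rw [hti] at htu
      calc u * t * (u * t) = u * (t * u * t) := by group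
        _ = 1 := by rw [htu, mul_inv_cancel]
  have hJ' : {j | (j ∈ B ∧ j ∉ B0 ∧ j * j = 1) ∧ InS A B0 (j * x)}.Infinite := by
    have h1 := hJ.sdiff (h.claimB hA hAB hx hxM)
    refine h1.mono ?_
    rintro j ⟨hj, hj2⟩
    refine ⟨hj, ?_⟩
    by_contra h3
    exact hj2 ⟨hj, h3⟩
  choose α hα β hβ hαβ using fun j : G => h.hyp.fac (j * x)
  have huniq : ∀ j, InS A B0 (j * x) → β j ∈ B0 := by
    rintro j ⟨a', ha', b', hb', he'⟩
    have h1 : a'⁻¹ * α j = b' * (β j)⁻¹ := by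
      have h2 : α j * β j = a' * b' := by rw [← hαβ j, he']
      calc a'⁻¹ * α j = a'⁻¹ * (α j * β j) * (β j)⁻¹ := by group
        _ = _ := by rw [h2]; group
    have h2 : a'⁻¹ * α j = 1 := by
      refine hAB _ (hA (A.mul_mem (A.inv_mem ha') (hα j))) ?_
      rw [h1]
      exact B.mul_mem (h.hyp.sb.le0 hb') (B.inv_mem (hβ j))
    rw [h1, mul_inv_eq_one] at h2
    rw [← h2]
    exact hb'
  -- `β` is injective
  have hinj : ∀ j ∈ B, ∀ j' ∈ B, β j = β j' → j = j' := by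
    intro j hj j' hj' hbb
    have h1 : j * j'⁻¹ = α j * (α j')⁻¹ := by
      have e1 : α j * β j * x⁻¹ = j := by rw [← hαβ j]; group
      have e2 : α j' * β j' * x⁻¹ = j' := by rw [← hαβ j']; group
      calc j * j'⁻¹ = (α j * β j * x⁻¹) * (α j' * β j' * x⁻¹)⁻¹ := by rw [e1, e2]
        _ = _ := by rw [hbb]; group
    have h2 : j * j'⁻¹ = 1 := by
      refine hAB _ ?_ (B.mul_mem hj (B.inv_mem hj'))
      rw [h1]
      exact hA (A.mul_mem (hα j) (A.inv_mem (hα j')))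
    exact mul_inv_eq_one.mp h2
  -- `α j` is never in the normaliser of `Q`
  have hαM : ∀ j ∈ B, α j ∉ Nz Q := by
    intro j hj hc
    apply hxM
    have h1 : x = j⁻¹ * (α j * β j) := by rw [← hαβ j]; group
    rw [h1]
    have hBM : B ≤ Nz Q := h.hyp.sb.dp.le_Nz
    exact (Nz Q).mul_mem ((Nz Q).inv_mem (hBM hj)) ((Nz Q).mul_mem hc (hBM (hβ j)))
  have hsub : {j | (j ∈ B ∧ j ∉ B0 ∧ j * j = 1) ∧ InS A B0 (j * x)} ⊆
      {j | (j ∈ B ∧ j ∉ B0 ∧ j * j = 1) ∧ β j ∈ B0 ∧ α j = a} ∪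
      {j | (j ∈ B ∧ j ∉ B0 ∧ j * j = 1) ∧ b * (β j)⁻¹ ∈ Nz P} := by
    rintro j ⟨hj, hjS⟩
    have hβ0 := huniq j hjS
    -- the involution `y * j`
    have hjy : j * y * j⁻¹ = y⁻¹ := h.hyp.sb.inv_all ht ht0 hy hty hj.1 hj.2.1
    have hji : j⁻¹ = j := inv_eq_of_mul_eq_one_right hj.2.2
    have hj1 : (y * j) * (y * j) = 1 := by
      rw [hji] at hjy
      calc (y * j) * (y * j) = y * (j * y * j) := by group
        _ = 1 := by rw [hjy, mul_inv_cancel]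
    have hbb0 : b * (β j)⁻¹ ∉ B0 := by
      intro h1
      apply hb0
      have := B0.mul_mem h1 hβ0
      rwa [inv_mul_cancel_right] at this
    have he2 : (y * j) * α j = a * (b * (β j)⁻¹) := by
      have e1 : α j = j * x * (β j)⁻¹ := by rw [hαβ j]; group
      rw [e1]
      calc y * j * (j * x * (β j)⁻¹) = y * (j * j) * x * (β j)⁻¹ := by group
        _ = y * x * (β j)⁻¹ := by rw [hj.2.2, mul_one]
        _ = _ := by rw [he]; group
    obtain ⟨h1, h2⟩ := h.claimA hA hAB hj1 (hα j) ha (B.mul_mem hb (B.inv_mem (hβ j))) hbb0 he2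
    by_cases hc : (α j)⁻¹ * a = 1
    · left
      rw [inv_mul_eq_one] at hc
      exact ⟨hj, hβ0, hc⟩
    · right
      refine ⟨hj, ?_⟩
      have hcA : (α j)⁻¹ * a ∈ A := A.mul_mem (A.inv_mem (hα j)) ha
      refine h.fusion (w := (α j)⁻¹ * a) (hA hcA) ?_ ?_ ?_
      · rw [h2]; exact hA (A.inv_mem hcA)
      · rw [h2]; exact inv_ne_one.mpr hc
      · rw [h2]
        intro u hu v hv
        obtain ⟨m, rfl⟩ := Subgroup.mem_zpowers_iff.mp hv
        have h3 : u * ((α j)⁻¹ * a)⁻¹ = ((α j)⁻¹ * a)⁻¹ * u :=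
          h.hyp.sa.comm0 u (hA hu) _ (hA (A.inv_mem hcA))
        have h4 : u * (((α j)⁻¹ * a)⁻¹) ^ m = (((α j)⁻¹ * a)⁻¹) ^ m * u :=
          (Commute.zpow_right (show Commute u _ from h3) m).eq
        refine ⟨?_, ?_⟩
        · rw [h4, mul_inv_cancel_right]; exact hv
        · rw [mul_assoc, ← h4, inv_mul_cancel_left]; exact hv
  apply hJ'
  refine Set.Finite.subset (Set.Finite.union ?_ ?_) hsub
  · refine Set.Subsingleton.finite ?_
    rintro j ⟨hj, hjb, hja⟩ j' ⟨hj', hjb', hja'⟩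
    by_contra hne
    have haM : a ∉ Nz Q := by rw [← hja]; exact hαM j hj.1
    apply haM
    obtain ⟨h1, h2⟩ := h.hyp.sb.inv_mul hj.1 hj.2.1 hj.2.2 hj'.1 hj'.2.1 hj'.2.2
    have h3 : a * (β j * (β j')⁻¹) * a⁻¹ = j * j'⁻¹ := by
      have e1 : a * β j * x⁻¹ = j := by rw [← hja, ← hαβ j]; group
      have e2 : a * β j' * x⁻¹ = j' := by rw [← hja', ← hαβ j']; group
      calc a * (β j * (β j')⁻¹) * a⁻¹ = (a * β j * x⁻¹) * (a * β j' * x⁻¹)⁻¹ := by group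
        _ = _ := by rw [e1, e2]
    refine h.symm.fusion (w := β j * (β j')⁻¹) (B0.mul_mem hjb (B0.inv_mem hjb')) ?_ ?_ ?_
    · rw [h3]; exact h1
    · rw [h3]
      intro h4
      exact hne (mul_inv_eq_one.mp h4)
    · rw [h3]
      exact h.hyp.sb.le_Nz_of_inv hj.1 hj.2.1 h1 h2
  · refine Set.Finite.of_finite_image (f := fun j => b * (β j)⁻¹) ?_ ?_
    · refine h.fin_NB.subset ?_
      rintro _ ⟨j, hj, rfl⟩
      exact ⟨B.mul_mem hb (B.inv_mem (hβ j)), hj.2⟩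
    · rintro j ⟨hj, -⟩ j' ⟨hj', -⟩ hbb
      have h1 : b * (β j)⁻¹ = b * (β j')⁻¹ := hbb
      exact hinj j hj.1 j' hj'.1 (inv_injective (mul_left_cancel h1))

/-- Infinitely many inverted elements stabilise `A * B0`. -/
theorem Cfg.Sig_top_of_inv (h : Cfg A A0 P B B0 Q) (hA : A ≤ A0)
    (hAB : ∀ x ∈ A0, x ∈ B → x = 1) {t : G} (ht : t ∈ B) (ht0 : t ∉ B0) (ht1 : t * t = 1)
    (hinf : {y | y ∈ B0 ∧ t * y * t⁻¹ = y⁻¹}.Infinite) : Sig A B0 = ⊤ := by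
  classical
  apply h.Sig_top_of_infinite
  choose α hα β hβ hαβ using fun g : G => h.hyp.fac g
  -- the finite set `A ∩ N(Q)`
  have hF : Finite ↥{x | x ∈ A ∧ x ∈ Nz Q} := (h.symm.fin_NB).to_subtype
  have hinf' : Infinite ↥{y | y ∈ B0 ∧ t * y * t⁻¹ = y⁻¹} := hinf.to_subtype
  have hBM : B ≤ Nz Q := h.hyp.sb.dp.le_Nz
  have hmem : ∀ y ∈ B0, ∀ x, x ∈ A ∧ x ∈ Nz Q → α (y * x) ∈ A ∧ α (y * x) ∈ Nz Q := by
    intro y hy x hx
    refine ⟨hα _, ?_⟩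
    have h1 : α (y * x) = y * x * (β (y * x))⁻¹ := by
      nth_rw 2 [hαβ (y * x)]
      group
    rw [h1]
    exact (Nz Q).mul_mem ((Nz Q).mul_mem (hBM (h.hyp.sb.le0 hy)) hx.2)
      ((Nz Q).inv_mem (hBM (hβ _)))
  let φ : ↥{y | y ∈ B0 ∧ t * y * t⁻¹ = y⁻¹} →
      (↥{x | x ∈ A ∧ x ∈ Nz Q} → ↥{x | x ∈ A ∧ x ∈ Nz Q} × Prop) :=
    fun y x => (⟨α (y * x), hmem y y.2.1 x x.2⟩, β ((y : G) * x) ∈ B0)
  obtain ⟨c, hc⟩ := Finite.exists_infinite_fiber φ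
  obtain ⟨y0, hy0⟩ := (inferInstance : Nonempty ↥(φ ⁻¹' {c}))
  have hinj : Function.Injective (fun y : ↥(φ ⁻¹' {c}) => (y0.1)⁻¹ * y.1.1) := by
    intro y y' hyy
    have h1 : (y0.1)⁻¹ * y.1.1 = (y0.1)⁻¹ * y'.1.1 := hyy
    exact Subtype.ext (Subtype.ext (mul_left_cancel h1))
  have hrange := Set.infinite_range_of_injective hinj
  refine hrange.mono ?_
  rintro _ ⟨⟨y, hy⟩, rfl⟩
  have hyφ : φ y = φ y0 := by
    have h1 : φ y = c := hy
    have h2 : φ y0 = c := hy0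
    rw [h1, h2]
  have hyB : (y : G) ∈ B0 := y.2.1
  have hy0B : (y0 : G) ∈ B0 := y0.2.1
  have hmB : (y0 : G)⁻¹ * (y : G) ∈ B0 := B0.mul_mem (B0.inv_mem hy0B) hyB
  refine ⟨h.hyp.sb.le0 hmB, ?_⟩
  obtain ⟨n, hn, hn1⟩ := h.hyp.sb.dp.torsion (h.hyp.sb.le0 hmB)
  refine mem_Sig_of_pow hn hn1 ?_
  intro x hx
  by_cases hxM : x ∈ Nz Q
  · have h1 := congrFun hyφ ⟨x, hx, hxM⟩
    have h2 : α ((y : G) * x) = α ((y0 : G) * x) := congrArg (fun p => (p.1 : G)) h1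
    have h3 : (β ((y : G) * x) ∈ B0) = (β ((y0 : G) * x) ∈ B0) := congrArg Prod.snd h1
    refine ⟨x, hx, (β ((y0 : G) * x))⁻¹ * β ((y : G) * x), ?_, ?_⟩
    · by_cases h4 : β ((y : G) * x) ∈ B0
      · exact B0.mul_mem (B0.inv_mem (h3.mp h4)) h4
      · have h5 : β ((y0 : G) * x) ∉ B0 := fun h6 => h4 (h3.mpr h6)
        have h6 : (β ((y0 : G) * x))⁻¹ ∉ B0 := fun h7 => h5 (by simpa using B0.inv_mem h7)
        exact h.hyp.sb.idx _ (B.inv_mem (hβ _)) _ (hβ _) h6 h4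
    · have e1 := hαβ ((y : G) * x)
      have e2 := hαβ ((y0 : G) * x)
      have e3 : (y0 : G)⁻¹ * α ((y0 : G) * x) = x * (β ((y0 : G) * x))⁻¹ := by
        calc (y0 : G)⁻¹ * α ((y0 : G) * x)
            = (y0 : G)⁻¹ * (α ((y0 : G) * x) * β ((y0 : G) * x)) * (β ((y0 : G) * x))⁻¹ := by group
          _ = _ := by rw [← e2]; group
      calc (y0 : G)⁻¹ * (y : G) * x = (y0 : G)⁻¹ * ((y : G) * x) := by group
        _ = (y0 : G)⁻¹ * (α ((y : G) * x) * β ((y : G) * x)) := by rw [← e1]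
        _ = ((y0 : G)⁻¹ * α ((y0 : G) * x)) * β ((y : G) * x) := by rw [h2]; group
        _ = _ := by rw [e3]; group
  · refine h.claimC hA hAB ht ht0 ht1 hinf hx hxM hmB ?_
    have h1 := y.2.2
    have h2 := y0.2.2
    calc t * ((y0 : G)⁻¹ * (y : G)) * t⁻¹ = (t * (y0 : G) * t⁻¹)⁻¹ * (t * (y : G) * t⁻¹) := by group
      _ = (y0 : G) * (y : G)⁻¹ := by rw [h1, h2, inv_inv]
      _ = (y : G)⁻¹ * (y0 : G) := h.hyp.sb.comm0 _ hy0B _ (B0.inv_mem hyB)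
      _ = _ := by group

end

/-- `G = A * B0` reduces to the abelian case. -/
theorem Cfg.no_AB0 {G : Type} [Group G] {A A0 P B B0 Q : Subgroup G} (h : Cfg A A0 P B B0 Q)
    (hA : A ≤ A0) : ¬ ∀ g : G, InS A B0 g := by
  intro hall
  apply h.ne
  have hB0 : B0 ≤ B := h.hyp.sb.le0
  refine abelian_case G A A0 P B0 B0 Q ⟨hall, h.hyp.sa, ⟨⟨h.hyp.sb.dp.dc, h.hyp.sb.le_A0, ?_⟩,
    le_rfl, h.hyp.sb.comm0, ?_⟩⟩ hA le_rfl
  · exact fun h0 => h.hyp.sb.dp.fin (Subgroup.relIndex_eq_zero_of_le_right hB0 h0)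
  · intro x hx y _ hx0
    exact absurd hx hx0

/-- No minimal configuration with an abelian factor. -/
theorem core_abelian {G : Type} [Group G] {A A0 P B B0 Q : Subgroup G} (h : Cfg A A0 P B B0 Q)
    (hA : A ≤ A0) : False := by
  have hno := h.no_AB0 hA
  have hAB : ∀ x ∈ A0, x ∈ B → x = 1 := by
    intro x hx hxB
    by_cases hx0 : x ∈ B0
    · exact h.inf0 hx hx0
    · exfalso
      apply hno
      intro g
      obtain ⟨a, ha, b, hb, rfl⟩ := h.hyp.fac g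
      by_cases hb0 : b ∈ B0
      · exact ⟨a, ha, b, hb0, rfl⟩
      · exact ⟨a * x⁻¹, A.mul_mem ha (A.inv_mem (h.hyp.sa.le0 hx)), x * b, h.hyp.sb.idx x hxB b hb hx0 hb0, by group⟩
  by_cases hB : ∃ t ∈ B, t ∉ B0
  · by_cases hinv : ∃ t ∈ B, t ∉ B0 ∧ t * t = 1
    · obtain ⟨t, ht, ht0, ht1⟩ := hinv
      by_cases hfin : {y | y ∈ B0 ∧ t * y * t⁻¹ = y⁻¹}.Finite
      · refine h.central_false hAB ?_ (h.Q_central ht ht0 ht1 hfin)
        intro p hp x hx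
        exact h.hyp.sa.comm0 x (hA hx) p (h.hyp.sa.le_A0 hp)
      · exact hno (Sig_top (h.Sig_top_of_inv hA hAB ht ht0 ht1 hfin))
    · push Not at hinv
      obtain ⟨t, ht, ht0⟩ := hB
      exact hno (Sig_top (h.no_inv hA hAB ht ht0 hinv))
  · push Not at hB
    exact h.ne (abelian_case G A A0 P B B0 Q h.hyp hA hB)

theorem cls_left : Cls (fun _ _ A A0 _ _ => A ≤ A0) where
  sub := by
    intro G _ A A0 B B0 A' B' L hC hA hB hAL hBL
    exact Subgroup.comap_mono (le_inf (hA.trans hC) le_rfl)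
  map := by
    intro G _ G' _ A A0 B B0 f hC
    exact Subgroup.map_mono hC

/-- If `A` is abelian, the divisible parts commute. -/
theorem comm_of_abelian (G : Type) [Group G] (A A0 P B B0 Q : Subgroup G)
    (h : Hyp A A0 P B B0 Q) (hA : A ≤ A0) : ∀ x ∈ P, ∀ y ∈ Q, x * y = y * x :=
  reduction cls_left (fun _ _ _ _ _ _ _ _ h hA => core_abelian h hA) G A A0 P B B0 Q h hA

end H36.CH
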