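import Pool.Agent.H36.CH.Art

/-! Divisible abelian subgroups with the minimal condition and divisible parts. -/

namespace H36.CH

open Subgroup

/-- `P` is a divisible abelian subgroup with the minimal condition (a direct product of finitely
many quasicyclic groups). -/
structure DC {G : Type*} [Group G] (P : Subgroup G) : Prop where
  comm : ∀ x ∈ P, ∀ y ∈ P, x * y = y * x
  div : ∀ x ∈ P, ∀ n : ℕ, 0 < n → ∃ y ∈ P, y ^ n = x
  art : WellFoundedLT (Subgroup ↥P)

/-- `P` is the divisible part of the Chernikov group `A`. -/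
structure DP {G : Type*} [Group G] (A P : Subgroup G) : Prop where
  dc : DC P
  le : P ≤ A
  fin : P.relIndex A ≠ 0

/-- `A` has the divisible part `P` and the abelian subgroup `A0` of index at most two. -/
structure Side {G : Type*} [Group G] (A A0 P : Subgroup G) : Prop where
  dp : DP A P
  le0 : A0 ≤ A
  comm0 : ∀ x ∈ A0, ∀ y ∈ A0, x * y = y * x
  idx : ∀ x ∈ A, ∀ y ∈ A, x ∉ A0 → y ∉ A0 → x * y ∈ A0

/-- `G = AB` with both factors as in the problem. -/
structure Hyp {G : Type*} [Group G] (A A0 P B B0 Q : Subgroup G) : Prop where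
  fac : ∀ g : G, ∃ a ∈ A, ∃ b ∈ B, g = a * b
  sa : Side A A0 P
  sb : Side B B0 Q

variable {G : Type*} [Group G]

/-- The minimal condition passes to smaller subgroups. -/
theorem art_mono {K L : Subgroup G} (h : K ≤ L) (hL : WellFoundedLT (Subgroup ↥L)) :
    WellFoundedLT (Subgroup ↥K) :=
  art_of_injective (Subgroup.inclusion h) (Subgroup.inclusion_injective h) hL

theorem DC.torsion {P : Subgroup G} (h : DC P) {x : G} (hx : x ∈ P) :
    ∃ n : ℕ, 0 < n ∧ x ^ n = 1 := by
  have := h.art
  obtain ⟨n, hn, hn1⟩ := torsion_of_art (⟨x, hx⟩ : P)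
  refine ⟨n, hn, ?_⟩
  simpa [Subtype.ext_iff] using hn1

/-- Finite `n`-torsion of an abelian artinian subgroup. -/
theorem fin_torsion {P : Subgroup G} (hc : ∀ x ∈ P, ∀ y ∈ P, x * y = y * x)
    (ha : WellFoundedLT (Subgroup ↥P)) (n : ℕ) (hn : 0 < n) : {x | x ∈ P ∧ x ^ n = 1}.Finite := by
  let _ : CommGroup ↥P := { (inferInstance : Group ↥P) with
    mul_comm := fun a b => Subtype.ext (hc a a.2 b b.2) }
  have h1 : {x : ↥P | x ^ n = 1}.Finite := @finite_torsion ↥P _ ha n hn
  have h2 : {x | x ∈ P ∧ x ^ n = 1} ⊆ Subtype.val '' {x : ↥P | x ^ n = 1} := by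
    rintro x ⟨hx, hx1⟩
    exact ⟨⟨x, hx⟩, Subtype.ext hx1, rfl⟩
  exact (h1.image _).subset h2

theorem DC.fin_tors {P : Subgroup G} (h : DC P) (n : ℕ) (hn : 0 < n) :
    {x | x ∈ P ∧ x ^ n = 1}.Finite := fin_torsion h.comm h.art n hn

/-- A divisible subgroup lies in every subgroup of finite relative index. -/
theorem DC.le_of_relIndex {P K : Subgroup G} (h : DC P) (hK : K.relIndex P ≠ 0) : P ≤ K := by
  intro x hx
  obtain ⟨y, hy, rfl⟩ := h.div x hx (K.relIndex P).factorial (Nat.factorial_pos _)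
  have h1 := pow_mem_of_relIndex_ne_zero_of_dvd hK hy (n := (K.relIndex P).factorial)
    (fun m hm hle => Nat.dvd_factorial hm hle)
  exact h1.1

/-- If `P` permutes a finite set containing `x` by conjugation then `P` centralises `x`. -/
theorem DC.comm_of_finite {P : Subgroup G} (h : DC P) (x : G)
    (hx : {y | ∃ p ∈ P, y = p * x * p⁻¹}.Finite) : ∀ p ∈ P, p * x = x * p := by
  have hK : (Subgroup.centralizer {x}).relIndex P ≠ 0 := by
    intro h0
    rw [Subgroup.relIndex, Subgroup.index_eq_zero_iff_infinite] at h0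
    have := hx.to_subtype
    let f : ↥P ⧸ ((Subgroup.centralizer {x}).subgroupOf P) → {y | ∃ p ∈ P, y = p * x * p⁻¹} :=
      Quotient.lift (fun p : ↥P => (⟨p * x * (p : G)⁻¹, p, p.2, rfl⟩ :
        {y | ∃ p ∈ P, y = p * x * p⁻¹})) (by
        intro p q hpq
        have h1 : p⁻¹ * q ∈ (Subgroup.centralizer {x}).subgroupOf P :=
          QuotientGroup.leftRel_apply.mp hpq
        rw [Subgroup.mem_subgroupOf, Subgroup.mem_centralizer_singleton_iff] at h1
        apply Subtype.ext
        push_cast at h1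
        show (p : G) * x * (p : G)⁻¹ = (q : G) * x * (q : G)⁻¹
        have h2 : (p : G) * (((p : G)⁻¹ * (q : G)) * x) * (q : G)⁻¹ =
            (p : G) * (x * ((p : G)⁻¹ * (q : G))) * (q : G)⁻¹ := by rw [h1]
        have h3 : (p : G) * (((p : G)⁻¹ * (q : G)) * x) * (q : G)⁻¹ =
            (q : G) * x * (q : G)⁻¹ := by group
        have h4 : (p : G) * (x * ((p : G)⁻¹ * (q : G))) * (q : G)⁻¹ =
            (p : G) * x * (p : G)⁻¹ := by group
        rw [← h3, h2, h4])
    have hf : Function.Injective f := by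
      rintro ⟨p⟩ ⟨q⟩ hpq
      have h1 : (p : G) * x * (p : G)⁻¹ = (q : G) * x * (q : G)⁻¹ :=
        congrArg Subtype.val hpq
      apply Quotient.sound
      apply QuotientGroup.leftRel_apply.mpr
      rw [Subgroup.mem_subgroupOf, Subgroup.mem_centralizer_singleton_iff]
      push_cast
      have h2 : (p : G)⁻¹ * ((q : G) * x * (q : G)⁻¹) * (q : G) =
          (p : G)⁻¹ * ((p : G) * x * (p : G)⁻¹) * (q : G) := by rw [h1]
      have h3 : (p : G)⁻¹ * ((q : G) * x * (q : G)⁻¹) * (q : G) = (p : G)⁻¹ * (q : G) * x := by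
        group
      have h4 : (p : G)⁻¹ * ((p : G) * x * (p : G)⁻¹) * (q : G) = x * ((p : G)⁻¹ * (q : G)) := by
        group
      rw [← h3, h2, h4]
    exact (Finite.of_injective f hf).not_infinite h0
  intro p hp
  have h1 := h.le_of_relIndex hK hp
  rw [Subgroup.mem_centralizer_singleton_iff] at h1
  exact h1

/-- Existence of the divisible part of an abelian artinian group. -/
theorem exists_div_index {M : Type*} [CommGroup M] [WellFoundedLT (Subgroup M)] :
    ∃ D : Subgroup M, D.index ≠ 0 ∧ ∀ x ∈ D, ∀ n : ℕ, 0 < n → ∃ y ∈ D, y ^ n = x := by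
  obtain ⟨D, hD, hmin⟩ := (wellFounded_lt (α := Subgroup M)).has_min {D | D.index ≠ 0}
    ⟨⊤, by simp⟩
  refine ⟨D, hD, ?_⟩
  intro x hx n hn
  -- the image of `D` under the `n`-th power
  let E : Subgroup M := D.map (powMonoidHom n)
  have hE : E ≤ D := by
    rintro y ⟨d, hd, rfl⟩
    exact D.pow_mem hd n
  have hEi : E.relIndex D ≠ 0 := by
    have h1 : Finite (↥D ⧸ E.subgroupOf D) := by
      have hart : WellFoundedLT (Subgroup ↥D) :=
        art_of_injective D.subtype D.subtype_injective inferInstance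
      have hart2 : WellFoundedLT (Subgroup (↥D ⧸ E.subgroupOf D)) :=
        art_of_surjective (QuotientGroup.mk' _) (QuotientGroup.mk'_surjective _) hart
      refine finite_of_exponent n hn ?_
      intro z
      obtain ⟨d, rfl⟩ := QuotientGroup.mk_surjective z
      rw [← QuotientGroup.mk_pow, QuotientGroup.eq_one_iff, Subgroup.mem_subgroupOf]
      exact ⟨d, d.2, by simp⟩
    rw [Subgroup.relIndex]
    exact Subgroup.index_ne_zero_of_finite
  have hEi2 : E.index ≠ 0 := by
    rw [← Subgroup.relIndex_mul_index hE]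
    exact mul_ne_zero hEi hD
  have h2 : E = D := by
    by_contra hne
    exact hmin E hEi2 (lt_of_le_of_ne hE hne)
  have h3 : x ∈ E := by rw [h2]; exact hx
  obtain ⟨y, hy, hyx⟩ := h3
  exact ⟨y, hy, hyx⟩

/-- Existence of the divisible part of an abelian artinian subgroup. -/
theorem exists_DP {K : Subgroup G} (hc : ∀ x ∈ K, ∀ y ∈ K, x * y = y * x)
    (ha : WellFoundedLT (Subgroup ↥K)) : ∃ D : Subgroup G, DP K D := by
  let _ : CommGroup ↥K := { (inferInstance : Group ↥K) with
    mul_comm := fun a b => Subtype.ext (hc a a.2 b b.2) }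
  obtain ⟨D, hD, hdiv⟩ := @exists_div_index ↥K _ ha
  have hle : D.map K.subtype ≤ K := Subgroup.map_subtype_le D
  refine ⟨D.map K.subtype, ⟨?_, ?_, art_mono hle ha⟩, hle, ?_⟩
  · intro x hx y hy
    exact hc x (hle hx) y (hle hy)
  · rintro x ⟨d, hd, rfl⟩ n hn
    obtain ⟨e, he, hen⟩ := hdiv d hd n hn
    refine ⟨e, ⟨e, he, rfl⟩, ?_⟩
    rw [← hen]
    simp
  · have h1 : (D.map K.subtype).subgroupOf K = D := by
      rw [Subgroup.subgroupOf, Subgroup.comap_map_eq_self_of_injective K.subtype_injective]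
    rw [Subgroup.relIndex, h1]
    exact hD

end H36.CH
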