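import Pool.Agent.H36.CH.Core5

/-! The case of a generalised dihedral factor: types of conjugates of involutions. -/

namespace H36.CH

open Subgroup Pointwise

variable {G : Type*} [Group G] {A A0 P B B0 Q : Subgroup G}

/-- In a generalised dihedral group the outer involutions invert `A0`. -/
theorem Side.dih_inv (h : Side A A0 P) (hI : ∀ a ∈ A, a ∉ A0 → a * a = 1) {a x : G}
    (ha : a ∈ A) (ha0 : a ∉ A0) (hx : x ∈ A0) : a * x * a⁻¹ = x⁻¹ := by
  have h1 : a⁻¹ = a := inv_eq_of_mul_eq_one_right (hI a ha ha0)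
  have h2 : a * x ∉ A0 := by
    intro h3
    apply ha0
    have := A0.mul_mem h3 (A0.inv_mem hx)
    rwa [mul_inv_cancel_right] at this
  have h3 := hI (a * x) (A.mul_mem ha (h.le0 hx)) h2
  rw [h1]
  have h4 : a * x * a * x = 1 := by rw [← h3]; group
  exact eq_inv_of_mul_eq_one_left h4

theorem Side.dih_Nz (h : Side A A0 P) (hI : ∀ a ∈ A, a ∉ A0 → a * a = 1) {x : G}
    (hx : x ∈ A0) : A ≤ Nz (Subgroup.zpowers x) := by
  by_cases hA : ∃ a ∈ A, a ∉ A0
  · obtain ⟨a, ha, ha0⟩ := hA
    exact h.le_Nz_of_inv ha ha0 hx (h.dih_inv hI ha ha0 hx)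
  · push Not at hA
    intro u hu v hv
    obtain ⟨m, rfl⟩ := Subgroup.mem_zpowers_iff.mp hv
    have h4 : u * x ^ m = x ^ m * u :=
      (Commute.zpow_right (show Commute u x from h.comm0 u (hA u hu) x hx) m).eq
    refine ⟨?_, ?_⟩
    · rw [h4, mul_inv_cancel_right]; exact hv
    · rw [mul_assoc, ← h4, inv_mul_cancel_left]; exact hv

/-- Fusion in `A0` is controlled by the normaliser of `P`. -/
theorem Cfg.dih_fusion (h : Cfg A A0 P B B0 Q) (hI : ∀ a ∈ A, a ∉ A0 → a * a = 1) {w g : G}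
    (hw : w ∈ A0) (hw' : g * w * g⁻¹ ∈ A0) (hne : w ≠ 1) : g ∈ Nz P := by
  refine h.fusion hw hw' ?_ (h.hyp.sa.dih_Nz hI hw')
  intro h1
  apply hne
  have h2 : w = g⁻¹ * (g * w * g⁻¹) * g := by group
  rw [h2, h1]
  group

/-- Types of involutions `a * b` with `a` outside of `A0`. -/
theorem Cfg.typ (h : Cfg A A0 P B B0 Q) (hI : ∀ a ∈ A, a ∉ A0 → a * a = 1) {a b : G}
    (ha : a ∈ A) (ha0 : a ∉ A0) (hb : b ∈ B) (hab : a * b * (a * b) = 1) :
    a ∈ Nz Q ∨ b ∈ Nz P ∨ (b ∉ B0 ∧ b * b = 1 ∧ a * b = b * a) := by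
  classical
  have ha1 : a⁻¹ = a := inv_eq_of_mul_eq_one_right (hI a ha ha0)
  have h1 : a * b * a⁻¹ = b⁻¹ := by
    rw [ha1]
    exact eq_inv_of_mul_eq_one_left (by rw [← hab]; group)
  by_cases hb0 : b ∈ B0
  · by_cases hbP : b ∈ Nz P
    · exact Or.inr (Or.inl hbP)
    · left
      set L : Subgroup G := Subgroup.centralizer {b} with hL
      have hmemL : ∀ g, g ∈ L ↔ g * b = b * g := fun g => by
        rw [hL, Subgroup.mem_centralizer_singleton_iff]
      have hB0L : B0 ≤ L := by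
        intro x hx
        rw [hmemL]
        exact h.hyp.sb.comm0 x hx b hb0
      have hLA0 : ∀ x ∈ A0, x ∈ L → x = 1 := by
        intro x hx hxL
        by_contra hx1
        apply hbP
        rw [hmemL] at hxL
        refine h.dih_fusion hI hx ?_ hx1
        rw [← hxL, mul_inv_cancel_right]
        exact hx
      have hLA : ((L ⊓ A : Subgroup G) : Set G).Finite := by
        have h3 : A0.relIndex (L ⊓ A) ≠ 0 := fun h0 =>
          h.hyp.sa.relIndex0 (Subgroup.relIndex_eq_zero_of_le_right inf_le_right h0)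
        refine finite_of_relIndex h3 ((Set.finite_singleton 1).subset ?_)
        rintro x ⟨hx1, hx2⟩
        exact hLA0 x hx1 hx2.1
      have hB0i : B0.relIndex L ≠ 0 := by
        by_cases hex : ∃ a0 ∈ A, ∃ b0 ∈ B, b0 ∉ B0 ∧ a0 * b0 ∈ L
        · obtain ⟨a0, ha0, b0, hb0B, hb00, hg0⟩ := hex
          refine relIndex_of_reps (((L ⊓ A : Subgroup G) : Set G) ∪
            (fun c => c * (a0 * b0)) '' ((L ⊓ A : Subgroup G) : Set G))
            (hLA.union (hLA.image _)) ?_
          intro g hg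
          obtain ⟨a', ha', b', hb', rfl⟩ := h.hyp.fac g
          by_cases hb'0 : b' ∈ B0
          · refine ⟨a', Or.inl ⟨?_, ha'⟩, ?_⟩
            · have := L.mul_mem hg (L.inv_mem (hB0L hb'0))
              rwa [mul_inv_cancel_right] at this
            · rw [inv_mul_cancel_left]
              exact hb'0
          · have hb'i : b'⁻¹ ∉ B0 := fun h5 => hb'0 (by simpa using B0.inv_mem h5)
            have hb0i : b0⁻¹ ∉ B0 := fun h5 => hb00 (by simpa using B0.inv_mem h5)
            have h5 : b'⁻¹ * b0 ∈ B0 := h.hyp.sb.idx _ (B.inv_mem hb') _ hb0B hb'i hb00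
            have h6 : a' * b0 ∈ L := by
              have := L.mul_mem hg (hB0L h5)
              have h7 : a' * b' * (b'⁻¹ * b0) = a' * b0 := by group
              rwa [h7] at this
            refine ⟨(a' * a0⁻¹) * (a0 * b0), Or.inr ⟨a' * a0⁻¹, ⟨?_, A.mul_mem ha' (A.inv_mem ha0)⟩,
              rfl⟩, ?_⟩
            · have := L.mul_mem h6 (L.inv_mem hg0)
              have h7 : a' * b0 * (a0 * b0)⁻¹ = a' * a0⁻¹ := by group
              rwa [h7] at this
            · have h7 : ((a' * a0⁻¹) * (a0 * b0))⁻¹ * (a' * b') = b0⁻¹ * b' := by group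
              rw [h7]
              exact h.hyp.sb.idx _ (B.inv_mem hb0B) _ hb' hb0i hb'0
        · push Not at hex
          refine relIndex_of_reps ((L ⊓ A : Subgroup G) : Set G) hLA ?_
          intro g hg
          obtain ⟨a', ha', b', hb', rfl⟩ := h.hyp.fac g
          have hb'0 : b' ∈ B0 := by
            by_contra hcon
            exact hex a' ha' b' hb' hcon hg
          refine ⟨a', ⟨?_, ha'⟩, ?_⟩
          · have := L.mul_mem hg (L.inv_mem (hB0L hb'0))
            rwa [mul_inv_cancel_right] at this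
          · rw [inv_mul_cancel_left]
            exact hb'0
      have hQB0 : Q.relIndex B0 ≠ 0 := fun h0 =>
        h.hyp.sb.dp.fin (Subgroup.relIndex_eq_zero_of_le_right h.hyp.sb.le0 h0)
      have hQL : Q.relIndex L ≠ 0 := Subgroup.relIndex_ne_zero_trans hQB0 hB0i
      refine h.hyp.sb.dp.dc.mem_Nz a ?_
      refine h.hyp.sb.dp.dc.conj_le hQL a ?_
      intro x hx
      rw [hmemL]
      have hxL : x * b = b * x := h.hyp.sb.comm0 x (h.hyp.sb.le_A0 hx) b hb0
      have h5 : b = a * b⁻¹ * a⁻¹ := by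
        calc b = (b⁻¹)⁻¹ := (inv_inv b).symm
          _ = (a * b * a⁻¹)⁻¹ := by rw [h1]
          _ = _ := by group
      have h6 : x * b⁻¹ = b⁻¹ * x := (show Commute x b from hxL).inv_right
      calc a * x * a⁻¹ * b = a * x * a⁻¹ * (a * b⁻¹ * a⁻¹) := by rw [← h5]
        _ = a * (x * b⁻¹) * a⁻¹ := by group
        _ = a * (b⁻¹ * x) * a⁻¹ := by rw [h6]
        _ = (a * b⁻¹ * a⁻¹) * (a * x * a⁻¹) := by group
        _ = b * (a * x * a⁻¹) := by rw [← h5]
  · by_cases hbb : b * b = 1
    · right; right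
      refine ⟨hb0, hbb, ?_⟩
      have h3 : b⁻¹ = b := inv_eq_of_mul_eq_one_right hbb
      rw [h3] at h1
      calc a * b = (a * b * a⁻¹) * a := by group
        _ = b * a := by rw [h1]
    · left
      obtain ⟨hs0, hsc⟩ := h.hyp.sb.sq hb hb0
      have h3 : a * (b * b) * a⁻¹ = (b * b)⁻¹ := by
        calc a * (b * b) * a⁻¹ = (a * b * a⁻¹) * (a * b * a⁻¹) := by group
          _ = b⁻¹ * b⁻¹ := by rw [h1]
          _ = _ := by group
      refine h.symm.fusion (w := b * b) hs0 ?_ ?_ ?_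
      · rw [h3]; exact B0.inv_mem hs0
      · rw [h3]; exact inv_ne_one.mpr hbb
      · rw [h3]
        intro u hu v hv
        obtain ⟨m, rfl⟩ := Subgroup.mem_zpowers_iff.mp hv
        have h4 : u * ((b * b)⁻¹) ^ m = ((b * b)⁻¹) ^ m * u :=
          (Commute.zpow_right (Commute.inv_right (show Commute u (b * b) from hsc u hu)) m).eq
        refine ⟨?_, ?_⟩
        · rw [h4, mul_inv_cancel_right]; exact hv
        · rw [mul_assoc, ← h4, inv_mul_cancel_left]; exact hv

end H36.CH
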