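import Pool.Agent.H36.CH.Dih1

/-! The case of a generalised dihedral factor: almost disjoint sets. -/

namespace H36.CH

open Subgroup Pointwise

variable {G : Type*} [Group G] {A A0 P B B0 Q : Subgroup G}

/-- A choice of the two components of the elements of `G = AB`. -/
structure Dec (A B : Subgroup G) (α β : G → G) : Prop where
  ha : ∀ g, α g ∈ A
  hb : ∀ g, β g ∈ B
  he : ∀ g, g = α g * β g
  triv : ∀ x ∈ A, x ∈ B → x = 1

theorem Dec.uniq {α β : G → G} (d : Dec A B α β) {g a b : G} (ha : a ∈ A) (hb : b ∈ B)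
    (he : g = a * b) : α g = a ∧ β g = b := by
  have h1 : a⁻¹ * α g = b * (β g)⁻¹ := by
    have h2 : α g * β g = a * b := by rw [← d.he, he]
    calc a⁻¹ * α g = a⁻¹ * (α g * β g) * (β g)⁻¹ := by group
      _ = _ := by rw [h2]; group
  have h2 : a⁻¹ * α g = 1 := by
    refine d.triv _ (A.mul_mem (A.inv_mem ha) (d.ha g)) ?_
    rw [h1]
    exact B.mul_mem hb (B.inv_mem (d.hb g))
  refine ⟨(inv_mul_eq_one.mp h2).symm, ?_⟩
  rw [h1, mul_inv_eq_one] at h2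
  exact h2.symm

/-- The outer elements `i` of `A` whose image `y * i` has an outer `A`-component. -/
def Dset (A A0 : Subgroup G) (α : G → G) (y : G) : Set G :=
  {i | i ∈ A ∧ i ∉ A0 ∧ α (y * i) ∉ A0}

theorem Side.mul_inv_mem (h : Side A A0 P) {a b : G} (ha : a ∈ A) (hb : b ∈ A) (ha0 : a ∉ A0)
    (hb0 : b ∉ A0) : a * b⁻¹ ∈ A0 := by
  have hbi : b⁻¹ ∉ A0 := fun h2 => hb0 (by simpa using A0.inv_mem h2)
  exact h.idx a ha _ (A.inv_mem hb) ha0 hbi

theorem Cfg.exc_finite (h : Cfg A A0 P B B0 Q) (hI : ∀ a ∈ A, a ∉ A0 → a * a = 1)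
    {α β : G → G} (d : Dec A B α β) {u : G} (huB : u ∈ B) (huP : u ∉ Nz P) :
    {i | i ∈ Dset A A0 α u ∧ (α (u * i) ∈ Nz Q ∨ β (u * i) * u⁻¹ ∈ Nz P)}.Finite := by
  have hsub : {i | i ∈ Dset A A0 α u ∧ (α (u * i) ∈ Nz Q ∨ β (u * i) * u⁻¹ ∈ Nz P)} ⊆
      {i | i ∈ Dset A A0 α u ∧ α (u * i) ∈ Nz Q} ∪
      {i | i ∈ Dset A A0 α u ∧ β (u * i) * u⁻¹ ∈ Nz P} := by
    rintro i ⟨hi, h1 | h1⟩
    · exact Or.inl ⟨hi, h1⟩
    · exact Or.inr ⟨hi, h1⟩
  refine Set.Finite.subset (Set.Finite.union ?_ ?_) hsub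
  · refine Set.Finite.of_finite_image (f := fun i => α (u * i)) ?_ ?_
    · refine h.symm.fin_NB.subset ?_
      rintro _ ⟨i, hi, rfl⟩
      exact ⟨d.ha _, hi.2⟩
    · rintro i ⟨hi, -⟩ i' ⟨hi', -⟩ haa
      have h1 : α (u * i) = α (u * i') := haa
      have h2 : i⁻¹ * i' = (β (u * i))⁻¹ * β (u * i') := by
        calc i⁻¹ * i' = (u * i)⁻¹ * (u * i') := by group
          _ = (α (u * i) * β (u * i))⁻¹ * (α (u * i') * β (u * i')) := by
              rw [← d.he (u * i), ← d.he (u * i')]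
          _ = _ := by rw [h1]; group
      have h3 : i⁻¹ * i' = 1 := by
        refine d.triv _ (A.mul_mem (A.inv_mem hi.1) hi'.1) ?_
        rw [h2]
        exact B.mul_mem (B.inv_mem (d.hb _)) (d.hb _)
      exact inv_mul_eq_one.mp h3
  · refine Set.Finite.of_finite_image (f := fun i => β (u * i) * u⁻¹) ?_ ?_
    · refine h.fin_NB.subset ?_
      rintro _ ⟨i, hi, rfl⟩
      exact ⟨B.mul_mem (d.hb _) (B.inv_mem huB), hi.2⟩
    · rintro i ⟨hi, -⟩ i' ⟨hi', -⟩ hbb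
      have h1 : β (u * i) = β (u * i') := mul_right_cancel hbb
      have h2 : u * (i * i'⁻¹) * u⁻¹ = α (u * i) * (α (u * i'))⁻¹ := by
        calc u * (i * i'⁻¹) * u⁻¹ = (u * i) * (u * i')⁻¹ := by group
          _ = (α (u * i) * β (u * i)) * (α (u * i') * β (u * i'))⁻¹ := by
              rw [← d.he (u * i), ← d.he (u * i')]
          _ = _ := by rw [h1]; group
      by_contra hne
      apply huP
      refine h.dih_fusion hI (w := i * i'⁻¹) ?_ ?_ ?_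
      · exact h.hyp.sa.mul_inv_mem hi.1 hi'.1 hi.2.1 hi'.2.1
      · rw [h2]
        exact h.hyp.sa.mul_inv_mem (d.ha _) (d.ha _) hi.2.2 hi'.2.2
      · intro h3
        exact hne (mul_inv_eq_one.mp h3)

/-- The sets `Dset u` and `Dset v` are almost disjoint. -/
theorem Cfg.almost_disjoint (h : Cfg A A0 P B B0 Q) (hI : ∀ a ∈ A, a ∉ A0 → a * a = 1)
    {α β : G → G} (d : Dec A B α β) {u v : G} (huB : u ∈ B) (huP : u ∉ Nz P) (hvB : v ∈ B)
    (hvP : v ∉ Nz P) (huv : v * u⁻¹ ∉ Nz P) :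
    (Dset A A0 α u ∩ Dset A A0 α v).Finite := by
  classical
  -- the regular elements
  have key : ∀ y ∈ B, ∀ i, i ∈ Dset A A0 α y → α (y * i) ∉ Nz Q → β (y * i) * y⁻¹ ∉ Nz P →
      ∃ c ∈ B, c ∉ B0 ∧ c * c = 1 ∧ i * c = c * i ∧ y⁻¹ * α (y * i) * y = i * c := by
    intro y hy i hi h1 h2
    have hii : i * i = 1 := hI i hi.1 hi.2.1
    set a := α (y * i) with ha
    set b := β (y * i) * y⁻¹ with hb
    have haA : a ∈ A := d.ha _
    have hbB : b ∈ B := B.mul_mem (d.hb _) (B.inv_mem hy)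
    have haa : a * a = 1 := hI a haA hi.2.2
    have hab : a * b = y * i * y⁻¹ := by
      rw [ha, hb, ← mul_assoc, ← d.he]
    have hinv : a * b * (a * b) = 1 := by
      rw [hab]
      calc y * i * y⁻¹ * (y * i * y⁻¹) = y * (i * i) * y⁻¹ := by group
        _ = 1 := by rw [hii, mul_one, mul_inv_cancel]
    rcases h.typ hI haA hi.2.2 hbB hinv with h3 | h3 | ⟨h3, h4, h5⟩
    · exact absurd h3 h1
    · exact absurd h3 h2
    · have hbi : b⁻¹ = b := inv_eq_of_mul_eq_one_right h4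
      have hay : y⁻¹ * a * y = i * (y⁻¹ * b * y) := by
        have e1 : a = (y * i * y⁻¹) * b := by
          rw [← hab, mul_assoc, h4, mul_one]
        calc y⁻¹ * a * y = y⁻¹ * ((y * i * y⁻¹) * b) * y := by rw [← e1]
          _ = _ := by group
      have hcc : (y⁻¹ * b * y) * (y⁻¹ * b * y) = 1 := by
        calc (y⁻¹ * b * y) * (y⁻¹ * b * y) = y⁻¹ * (b * b) * y := by group
          _ = 1 := by rw [h4]; group
      refine ⟨y⁻¹ * b * y, B.mul_mem (B.mul_mem (B.inv_mem hy) hbB) hy, ?_, hcc, ?_, hay⟩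
      · intro h6
        apply h3
        have h7 := h.hyp.sb.conj0 hy h6
        have h8 : y * (y⁻¹ * b * y) * y⁻¹ = b := by group
        rwa [h8] at h7
      · -- `i c` is an involution
        have h6 : (i * (y⁻¹ * b * y)) * (i * (y⁻¹ * b * y)) = 1 := by
          rw [← hay]
          calc y⁻¹ * a * y * (y⁻¹ * a * y) = y⁻¹ * (a * a) * y := by group
            _ = 1 := by rw [haa]; group
        generalize y⁻¹ * b * y = c at hcc h6
        have hci : c⁻¹ = c := inv_eq_of_mul_eq_one_right hcc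
        have hi1 : i⁻¹ = i := inv_eq_of_mul_eq_one_right hii
        have h7 : (i * c)⁻¹ = i * c := inv_eq_of_mul_eq_one_right h6
        rw [← h7, mul_inv_rev, hci, hi1]
  have hsub : Dset A A0 α u ∩ Dset A A0 α v ⊆
      {i | i ∈ Dset A A0 α u ∧ (α (u * i) ∈ Nz Q ∨ β (u * i) * u⁻¹ ∈ Nz P)} ∪
      {i | i ∈ Dset A A0 α v ∧ (α (v * i) ∈ Nz Q ∨ β (v * i) * v⁻¹ ∈ Nz P)} ∪
      {i | i ∈ A ∧ i ∈ Nz Q} ∪
      {i | i ∈ Dset A A0 α u ∧ i ∈ Dset A A0 α v ∧ i ∉ Nz Q ∧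
        α (u * i) ∉ Nz Q ∧ β (u * i) * u⁻¹ ∉ Nz P ∧ α (v * i) ∉ Nz Q ∧
        β (v * i) * v⁻¹ ∉ Nz P} := by
    rintro i ⟨hiu, hiv⟩
    by_cases h1 : α (u * i) ∈ Nz Q ∨ β (u * i) * u⁻¹ ∈ Nz P
    · exact Or.inl (Or.inl (Or.inl ⟨hiu, h1⟩))
    by_cases h2 : α (v * i) ∈ Nz Q ∨ β (v * i) * v⁻¹ ∈ Nz P
    · exact Or.inl (Or.inl (Or.inr ⟨hiv, h2⟩))
    by_cases h3 : i ∈ Nz Q
    · exact Or.inl (Or.inr ⟨hiu.1, h3⟩)
    · push Not at h1 h2
      exact Or.inr ⟨hiu, hiv, h3, h1.1, h1.2, h2.1, h2.2⟩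
  refine Set.Finite.subset ?_ hsub
  refine (((h.exc_finite hI d huB huP).union (h.exc_finite hI d hvB hvP)).union
    h.symm.fin_NB).union ?_
  refine Set.Subsingleton.finite ?_
  -- conjugation by `v u⁻¹`
  have hconj : ∀ i, i ∈ Dset A A0 α u → i ∈ Dset A A0 α v → i ∉ Nz Q →
        α (u * i) ∉ Nz Q → β (u * i) * u⁻¹ ∉ Nz P → α (v * i) ∉ Nz Q →
        β (v * i) * v⁻¹ ∉ Nz P → (v * u⁻¹) * α (u * i) * (v * u⁻¹)⁻¹ = α (v * i) := by
    intro i hiu hiv hiQ h1 h2 h3 h4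
    obtain ⟨c, hc, hc0, hcc, hic, hac⟩ := key u huB i hiu h1 h2
    obtain ⟨c', hc', hc0', hcc', hic', hac'⟩ := key v hvB i hiv h3 h4
    have hceq : c = c' := by
      by_contra hne
      apply hiQ
      obtain ⟨e1, e2⟩ := h.hyp.sb.inv_mul hc hc0 hcc hc' hc0' hcc'
      have e3 : i * (c * c'⁻¹) * i⁻¹ = c * c'⁻¹ := by
        have f1 : Commute i c := hic
        have f2 : Commute i c'⁻¹ := (show Commute i c' from hic').inv_right
        have f3 := (f1.mul_right f2).eq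
        rw [f3, mul_inv_cancel_right]
      refine h.symm.fusion (w := c * c'⁻¹) e1 (by rw [e3]; exact e1) ?_ ?_
      · rw [e3]
        intro e4
        exact hne (mul_inv_eq_one.mp e4)
      · rw [e3]
        exact h.hyp.sb.le_Nz_of_inv hc hc0 e1 e2
    have e5 : u⁻¹ * α (u * i) * u = v⁻¹ * α (v * i) * v := by rw [hac, hac', hceq]
    calc (v * u⁻¹) * α (u * i) * (v * u⁻¹)⁻¹ = v * (u⁻¹ * α (u * i) * u) * v⁻¹ := by group
      _ = v * (v⁻¹ * α (v * i) * v) * v⁻¹ := by rw [e5]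
      _ = _ := by group
  rintro i ⟨hiu, hiv, hiQ, h1, h2, h3, h4⟩ j ⟨hju, hjv, hjQ, g1, g2, g3, g4⟩
  have e1 := hconj i hiu hiv hiQ h1 h2 h3 h4
  have e2 := hconj j hju hjv hjQ g1 g2 g3 g4
  have e3 : (v * u⁻¹) * (α (u * i) * (α (u * j))⁻¹) * (v * u⁻¹)⁻¹ =
      α (v * i) * (α (v * j))⁻¹ := by
    rw [← e1, ← e2]
    group
  have e4 : α (u * i) * (α (u * j))⁻¹ = 1 := by
    by_contra hne
    apply huv
    refine h.dih_fusion hI (w := α (u * i) * (α (u * j))⁻¹) ?_ ?_ hne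
    · exact h.hyp.sa.mul_inv_mem (d.ha _) (d.ha _) hiu.2.2 hju.2.2
    · rw [e3]
      exact h.hyp.sa.mul_inv_mem (d.ha _) (d.ha _) hiv.2.2 hjv.2.2
  have e5 : α (u * i) = α (u * j) := mul_inv_eq_one.mp e4
  have e6 : i⁻¹ * j = (β (u * i))⁻¹ * β (u * j) := by
    calc i⁻¹ * j = (u * i)⁻¹ * (u * j) := by group
      _ = (α (u * i) * β (u * i))⁻¹ * (α (u * j) * β (u * j)) := by
          rw [← d.he (u * i), ← d.he (u * j)]
      _ = _ := by rw [e5]; group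
  have e7 : i⁻¹ * j = 1 := by
    refine d.triv _ (A.mul_mem (A.inv_mem hiu.1) hju.1) ?_
    rw [e6]
    exact B.mul_mem (B.inv_mem (d.hb _)) (d.hb _)
  exact inv_mul_eq_one.mp e7

end H36.CH
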