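import Pool.Agent.H36.CH.Dih2

/-! Counting in finite subgroups. -/

namespace H36.CH

open Subgroup Pointwise

variable {G : Type*} [Group G] {A A0 P B B0 Q : Subgroup G}

/-- A finite subset of a torsion abelian subgroup generates a finite subgroup. -/
theorem finite_closure {A0 : Subgroup G} (hc : ∀ x ∈ A0, ∀ y ∈ A0, x * y = y * x)
    (ht : ∀ x ∈ A0, ∃ n : ℕ, 0 < n ∧ x ^ n = 1) (E : Finset G) (hE : ∀ x ∈ E, x ∈ A0) :
    Finite ↥(Subgroup.closure (E : Set G)) := by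
  have hle : Subgroup.closure (E : Set G) ≤ A0 := by
    rw [Subgroup.closure_le]
    intro x hx
    exact hE x hx
  let _ : CommGroup ↥(Subgroup.closure (E : Set G)) :=
    { (inferInstance : Group ↥(Subgroup.closure (E : Set G))) with
      mul_comm := fun a b => Subtype.ext (hc a (hle a.2) b (hle b.2)) }
  have hfg : Group.FG ↥(Subgroup.closure (E : Set G)) := by
    rw [Group.fg_iff_subgroup_fg]
    exact ⟨E, rfl⟩
  refine CommGroup.finite_of_fg_isMulTorsion _ ?_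
  intro x
  rw [isOfFinOrder_iff_pow_eq_one]
  obtain ⟨n, hn, hn1⟩ := ht x (hle x.2)
  exact ⟨n, hn, Subtype.ext hn1⟩

theorem exists_finite_subgroup {A0 : Subgroup G} (hc : ∀ x ∈ A0, ∀ y ∈ A0, x * y = y * x)
    (ht : ∀ x ∈ A0, ∃ n : ℕ, 0 < n ∧ x ^ n = 1) (hinf : (A0 : Set G).Infinite)
    (E : Finset G) (hE : ∀ x ∈ E, x ∈ A0) (n : ℕ) :
    ∃ F : Finset G, (∀ x ∈ F, x ∈ A0) ∧ E ⊆ F ∧ (∀ x ∈ F, ∀ y ∈ F, x * y ∈ F) ∧
      (∀ x ∈ F, x⁻¹ ∈ F) ∧ n < F.card := by
  classical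
  obtain ⟨E', hE', hcard⟩ := hinf.exists_subset_card_eq (n + 1)
  have hE2 : ∀ x ∈ E ∪ E', x ∈ A0 := by
    intro x hx
    rcases Finset.mem_union.mp hx with h1 | h1
    · exact hE x h1
    · exact hE' h1
  have hfin := finite_closure hc ht (E ∪ E') hE2
  have hfs : ((Subgroup.closure ((E ∪ E' : Finset G) : Set G) : Subgroup G) : Set G).Finite :=
    Set.toFinite _
  have hle : Subgroup.closure ((E ∪ E' : Finset G) : Set G) ≤ A0 := by
    rw [Subgroup.closure_le]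
    intro x hx
    exact hE2 x hx
  have hsub : ∀ x ∈ E ∪ E', x ∈ Subgroup.closure ((E ∪ E' : Finset G) : Set G) :=
    fun x hx => Subgroup.subset_closure hx
  refine ⟨hfs.toFinset, ?_, ?_, ?_, ?_, ?_⟩
  · intro x hx
    rw [Set.Finite.mem_toFinset] at hx
    exact hle hx
  · intro x hx
    rw [Set.Finite.mem_toFinset]
    exact hsub x (Finset.mem_union_left _ hx)
  · intro x hx y hy
    rw [Set.Finite.mem_toFinset] at hx hy ⊢
    exact Subgroup.mul_mem _ hx hy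
  · intro x hx
    rw [Set.Finite.mem_toFinset] at hx ⊢
    exact Subgroup.inv_mem _ hx
  · have h1 : E' ⊆ hfs.toFinset := by
      intro x hx
      rw [Set.Finite.mem_toFinset]
      exact hsub x (Finset.mem_union_right _ hx)
    have h2 := Finset.card_le_card h1
    omega

/-- `U` has three translates with pairwise finite intersections. -/
def Small (A A0 : Subgroup G) (ε : Prop) (U : Set G) : Prop :=
  ∃ x : Fin 3 → G, (∀ k, x k ∈ A) ∧ (∀ k, x k ∈ A0 ↔ ε) ∧ ∀ j k, j ≠ k →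
    ({i | i ∈ A ∧ i ∉ A0 ∧ x j * i ∈ U} ∩ {i | i ∈ A ∧ i ∉ A0 ∧ x k * i ∈ U}).Finite

/-- Three subsets of a finite set with small pairwise intersections. -/
theorem card_three {ι : Type*} [DecidableEq ι] (F N1 N2 N3 : Finset ι) (h1 : N1 ⊆ F)
    (h2 : N2 ⊆ F) (h3 : N3 ⊆ F) :
    N1.card + N2.card + N3.card ≤ F.card + (N1 ∩ N2).card + (N1 ∩ N3).card + (N2 ∩ N3).card := by
  have e1 := Finset.card_union_add_card_inter N1 N2
  have e2 := Finset.card_union_add_card_inter (N1 ∪ N2) N3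
  have e3 : ((N1 ∪ N2) ∩ N3).card ≤ (N1 ∩ N3).card + (N2 ∩ N3).card := by
    rw [Finset.union_inter_distrib_right]
    exact Finset.card_union_le _ _
  have e4 : ((N1 ∪ N2) ∪ N3).card ≤ F.card :=
    Finset.card_le_card (Finset.union_subset (Finset.union_subset h1 h2) h3)
  omega

theorem three_mul_le {i0 κ : G} (hi0 : i0 ∈ A) (hi00 : i0 ∉ A0) (hle : A0 ≤ A) (U : Set G)
    (F : Finset G) (hF0 : ∀ x ∈ F, x ∈ A0) (hFm : ∀ x ∈ F, ∀ y ∈ F, x * y ∈ F)
    (hFi : ∀ x ∈ F, x⁻¹ ∈ F) (x : Fin 3 → G) (hx : ∀ k, κ⁻¹ * (x k * i0) ∈ F) (e : ℕ)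
    (he : ∀ j k, j ≠ k → ∃ E : Finset G, E.card ≤ e ∧ ∀ i, (i ∈ A ∧ i ∉ A0 ∧ x j * i ∈ U) →
      (i ∈ A ∧ i ∉ A0 ∧ x k * i ∈ U) → i ∈ E) [DecidablePred (fun f => κ * f ∈ U)] :
    3 * (F.filter (fun f => κ * f ∈ U)).card ≤ F.card + 3 * e := by
  classical
  let N : Fin 3 → Finset G := fun k => F.filter (fun f => x k * (i0 * f) ∈ U)
  have hcard : ∀ k, (N k).card = (F.filter (fun f => κ * f ∈ U)).card := by
    intro k
    refine Finset.card_nbij' (fun f => κ⁻¹ * (x k * i0) * f) (fun f => (κ⁻¹ * (x k * i0))⁻¹ * f)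
      ?_ ?_ ?_ ?_
    · intro f hf
      rw [Finset.mem_coe, Finset.mem_filter] at hf ⊢
      refine ⟨hFm _ (hx k) _ hf.1, ?_⟩
      have h1 : κ * (κ⁻¹ * (x k * i0) * f) = x k * (i0 * f) := by group
      rw [h1]
      exact hf.2
    · intro f hf
      rw [Finset.mem_coe, Finset.mem_filter] at hf ⊢
      refine ⟨hFm _ (hFi _ (hx k)) _ hf.1, ?_⟩
      have h1 : x k * (i0 * ((κ⁻¹ * (x k * i0))⁻¹ * f)) = κ * f := by group
      rw [h1]
      exact hf.2
    · intro f _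
      show (κ⁻¹ * (x k * i0))⁻¹ * (κ⁻¹ * (x k * i0) * f) = f
      group
    · intro f _
      show κ⁻¹ * (x k * i0) * ((κ⁻¹ * (x k * i0))⁻¹ * f) = f
      group
  have hint : ∀ j k, j ≠ k → (N j ∩ N k).card ≤ e := by
    intro j k hjk
    obtain ⟨E, hE, hE2⟩ := he j k hjk
    refine le_trans ?_ hE
    refine Finset.card_le_card_of_injOn (fun f => i0 * f) ?_ ?_
    · intro f hf
      rw [Finset.mem_coe, Finset.mem_inter, Finset.mem_filter, Finset.mem_filter] at hf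
      have hfA0 := hF0 f hf.1.1
      have h1 : i0 * f ∈ A := A.mul_mem hi0 (hle hfA0)
      have h2 : i0 * f ∉ A0 := by
        intro h3
        apply hi00
        have := A0.mul_mem h3 (A0.inv_mem hfA0)
        rwa [mul_inv_cancel_right] at this
      exact hE2 _ ⟨h1, h2, hf.1.2⟩ ⟨h1, h2, hf.2.2⟩
    · intro f _ g _ hfg
      exact mul_left_cancel hfg
  have h3 := card_three F (N 0) (N 1) (N 2) (Finset.filter_subset _ _) (Finset.filter_subset _ _)
    (Finset.filter_subset _ _)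
  have h01 := hint 0 1 (by decide)
  have h02 := hint 0 2 (by decide)
  have h12 := hint 1 2 (by decide)
  have c0 := hcard 0
  have c1 := hcard 1
  have c2 := hcard 2
  omega

/-- A coset of `A0` is not covered by two small sets. -/
theorem small_cover (h : Side A A0 P) (hinf : (A0 : Set G).Infinite) {i0 κ : G} (hi0 : i0 ∈ A)
    (hi00 : i0 ∉ A0) (hκ : κ ∈ A) (ε : Prop) (hκε : κ ∈ A0 ↔ ¬ ε) {U V : Set G}
    (hU : Small A A0 ε U) (hV : Small A A0 ε V) (hcov : ∀ f ∈ A0, κ * f ∈ U ∨ κ * f ∈ V) :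
    False := by
  classical
  obtain ⟨x, hxA, hxε, hx⟩ := hU
  obtain ⟨v, hvA, hvε, hv⟩ := hV
  have key : ∀ z ∈ A, (z ∈ A0 ↔ ε) → κ⁻¹ * (z * i0) ∈ A0 := by
    intro z hz hzε
    by_cases hε : ε
    · have h1 : z ∈ A0 := hzε.mpr hε
      have h2 : κ ∉ A0 := fun h3 => (hκε.mp h3) hε
      have h3 : κ⁻¹ ∉ A0 := fun h4 => h2 (by simpa using A0.inv_mem h4)
      have h4 : z * i0 ∉ A0 := by
        intro h5
        apply hi00
        have := A0.mul_mem (A0.inv_mem h1) h5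
        rwa [inv_mul_cancel_left] at this
      exact h.idx _ (A.inv_mem hκ) _ (A.mul_mem hz hi0) h3 h4
    · have h1 : z ∉ A0 := fun h2 => hε (hzε.mp h2)
      have h2 : κ ∈ A0 := hκε.mpr hε
      exact A0.mul_mem (A0.inv_mem h2) (h.idx z hz i0 hi0 h1 hi00)
  have hbound : ∀ (w : Fin 3 → G) (W : Set G), (∀ j k, j ≠ k →
      ({i | i ∈ A ∧ i ∉ A0 ∧ w j * i ∈ W} ∩ {i | i ∈ A ∧ i ∉ A0 ∧ w k * i ∈ W}).Finite) →
      ∃ e : ℕ, ∀ j k, j ≠ k → ∃ E : Finset G, E.card ≤ e ∧ ∀ i,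
        (i ∈ A ∧ i ∉ A0 ∧ w j * i ∈ W) → (i ∈ A ∧ i ∉ A0 ∧ w k * i ∈ W) → i ∈ E := by
    intro w W hw
    choose! E hE using fun j k (hjk : j ≠ k) => (hw j k hjk).exists_finset_coe
    refine ⟨∑ j, ∑ k, (E j k).card, ?_⟩
    intro j k hjk
    refine ⟨E j k, ?_, ?_⟩
    · exact (Finset.single_le_sum (f := fun k => (E j k).card) (fun _ _ => Nat.zero_le _)
        (Finset.mem_univ k)).trans
        (Finset.single_le_sum (f := fun j => ∑ k, (E j k).card) (fun _ _ => Nat.zero_le _)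
        (Finset.mem_univ j))
    · intro i h1 h2
      have h3 : i ∈ ((E j k : Finset G) : Set G) := by
        rw [hE j k hjk]
        exact ⟨h1, h2⟩
      exact h3
  obtain ⟨e, he⟩ := hbound x U hx
  obtain ⟨e', he'⟩ := hbound v V hv
  obtain ⟨F, hF0, hEF, hFm, hFi, hcard⟩ := exists_finite_subgroup h.comm0
    (fun z hz => h.dp.torsion (h.le0 hz)) hinf
    (Finset.univ.image (fun k => κ⁻¹ * (x k * i0)) ∪ Finset.univ.image (fun k => κ⁻¹ * (v k * i0)))
    (by
      intro z hz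
      rcases Finset.mem_union.mp hz with h1 | h1
      · obtain ⟨k, -, rfl⟩ := Finset.mem_image.mp h1
        exact key _ (hxA k) (hxε k)
      · obtain ⟨k, -, rfl⟩ := Finset.mem_image.mp h1
        exact key _ (hvA k) (hvε k)) (3 * e + 3 * e')
  have h1 := three_mul_le (κ := κ) hi0 hi00 h.le0 U F hF0 hFm hFi x
    (fun k => hEF (Finset.mem_union_left _ (Finset.mem_image_of_mem _ (Finset.mem_univ k)))) e he
  have h2 := three_mul_le (κ := κ) hi0 hi00 h.le0 V F hF0 hFm hFi v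
    (fun k => hEF (Finset.mem_union_right _ (Finset.mem_image_of_mem _ (Finset.mem_univ k)))) e' he'
  have h3 : F.card ≤ (F.filter (fun f => κ * f ∈ U)).card + (F.filter (fun f => κ * f ∈ V)).card := by
    have h4 : F ⊆ F.filter (fun f => κ * f ∈ U) ∪ F.filter (fun f => κ * f ∈ V) := by
      intro f hf
      rw [Finset.mem_union, Finset.mem_filter, Finset.mem_filter]
      rcases hcov f (hF0 f hf) with h5 | h5
      · exact Or.inl ⟨hf, h5⟩
      · exact Or.inr ⟨hf, h5⟩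
    exact (Finset.card_le_card h4).trans (Finset.card_union_le _ _)
  omega

end H36.CH
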