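import Pool.Agent.H36.CH.Dih3

/-! The case of a generalised dihedral factor: conclusion. -/

namespace H36.CH

open Subgroup Pointwise

section

variable {G : Type*} [Group G] {A A0 P B B0 Q : Subgroup G}

/-- The elements of `A` of parity `s` whose image under `y` has parity `τ`. -/
def Wset (A A0 : Subgroup G) (α : G → G) (y : G) (s τ : Bool) : Set G :=
  {x | x ∈ A ∧ (x ∉ A0 ↔ s = true) ∧ (α (y * x) ∉ A0 ↔ τ = true)}

theorem Cfg.choose_three (h : Cfg A A0 P B B0 Q) {S : Set G} (hS : S.Infinite)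
    (hSB : ∀ b ∈ S, b ∈ B) :
    ∃ b : Fin 3 → G, (∀ k, b k ∈ S ∧ b k ∉ Nz P) ∧ ∀ j k, j ≠ k → b k * (b j)⁻¹ ∉ Nz P := by
  classical
  have hN := h.fin_NB
  have hN' : ∀ c ∈ B, {b | b ∈ B ∧ b * c⁻¹ ∈ Nz P}.Finite := by
    intro c hc
    refine (hN.image (fun n => n * c)).subset ?_
    rintro b ⟨hb, hb2⟩
    exact ⟨b * c⁻¹, ⟨B.mul_mem hb (B.inv_mem hc), hb2⟩, by show b * c⁻¹ * c = b; group⟩
  obtain ⟨b1, hb1, hb1'⟩ := (hS.sdiff hN).nonempty
  have hb1B := hSB b1 hb1
  have hb1N : b1 ∉ Nz P := fun h1 => hb1' ⟨hb1B, h1⟩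
  obtain ⟨b2, hb2, hb2'⟩ := (hS.sdiff (hN.union (hN' b1 hb1B))).nonempty
  have hb2B := hSB b2 hb2
  have hb2N : b2 ∉ Nz P := fun h1 => hb2' (Or.inl ⟨hb2B, h1⟩)
  have hb21 : b2 * b1⁻¹ ∉ Nz P := fun h1 => hb2' (Or.inr ⟨hb2B, h1⟩)
  obtain ⟨b3, hb3, hb3'⟩ := (hS.sdiff ((hN.union (hN' b1 hb1B)).union (hN' b2 hb2B))).nonempty
  have hb3B := hSB b3 hb3
  have hb3N : b3 ∉ Nz P := fun h1 => hb3' (Or.inl (Or.inl ⟨hb3B, h1⟩))
  have hb31 : b3 * b1⁻¹ ∉ Nz P := fun h1 => hb3' (Or.inl (Or.inr ⟨hb3B, h1⟩))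
  have hb32 : b3 * b2⁻¹ ∉ Nz P := fun h1 => hb3' (Or.inr ⟨hb3B, h1⟩)
  have hinv : ∀ u v : G, u * v⁻¹ ∉ Nz P → v * u⁻¹ ∉ Nz P := by
    intro u v h1 h2
    apply h1
    have := (Nz P).inv_mem h2
    have h3 : (v * u⁻¹)⁻¹ = u * v⁻¹ := by group
    rwa [h3] at this
  refine ⟨![b1, b2, b3], ?_, ?_⟩
  · intro k
    fin_cases k
    · exact ⟨hb1, hb1N⟩
    · exact ⟨hb2, hb2N⟩
    · exact ⟨hb3, hb3N⟩
  · intro j k hjk
    fin_cases j <;> fin_cases k
    · exact absurd rfl hjk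
    · exact hb21
    · exact hb31
    · exact hinv _ _ hb21
    · exact absurd rfl hjk
    · exact hb32
    · exact hinv _ _ hb31
    · exact hinv _ _ hb32
    · exact absurd rfl hjk

theorem Cfg.small_of_infinite (h : Cfg A A0 P B B0 Q) (hI : ∀ a ∈ A, a ∉ A0 → a * a = 1)
    {α β : G → G} (d : Dec A B α β) {y : G} (hyN : y ∉ Nz P) (s τ : Bool)
    (hinf : (Wset A A0 α y s τ).Infinite) :
    Small A A0 ((!s) = true) (Wset A A0 α y (!s) (!τ)) := by
  classical
  -- the map to the second component is injective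
  have hinj : Set.InjOn (fun x => β (y * x)) (Wset A A0 α y s τ) := by
    intro x hx x' hx' hbb
    have h1 : β (y * x) = β (y * x') := hbb
    have h2 : y * (x * x'⁻¹) * y⁻¹ = α (y * x) * (α (y * x'))⁻¹ := by
      calc y * (x * x'⁻¹) * y⁻¹ = (y * x) * (y * x')⁻¹ := by group
        _ = (α (y * x) * β (y * x)) * (α (y * x') * β (y * x'))⁻¹ := by
            rw [← d.he (y * x), ← d.he (y * x')]
        _ = _ := by rw [h1]; group
    have hpar : ∀ (a b : G) (t : Bool), a ∈ A → b ∈ A → (a ∉ A0 ↔ t = true) →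
        (b ∉ A0 ↔ t = true) → a * b⁻¹ ∈ A0 := by
      intro a b t ha hb h3 h4
      cases t
      · have h5 : a ∈ A0 := by
          by_contra h6
          exact absurd (h3.mp h6) (by decide)
        have h6 : b ∈ A0 := by
          by_contra h6
          exact absurd (h4.mp h6) (by decide)
        exact A0.mul_mem h5 (A0.inv_mem h6)
      · exact h.hyp.sa.mul_inv_mem ha hb (h3.mpr rfl) (h4.mpr rfl)
    by_contra hne
    apply hyN
    refine h.dih_fusion hI (w := x * x'⁻¹) ?_ ?_ ?_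
    · exact hpar x x' s hx.1 hx'.1 hx.2.1 hx'.2.1
    · rw [h2]
      exact hpar _ _ τ (d.ha _) (d.ha _) hx.2.2 hx'.2.2
    · intro h3
      exact hne (mul_inv_eq_one.mp h3)
  have hS : ((fun x => β (y * x)) '' (Wset A A0 α y s τ)).Infinite := hinf.image hinj
  obtain ⟨b, hb1, hb2⟩ := h.choose_three hS (by rintro _ ⟨x, -, rfl⟩; exact d.hb _)
  choose x hx hxb using fun k => (hb1 k).1
  refine ⟨x, fun k => (hx k).1, ?_, ?_⟩
  · intro k
    have h1 := (hx k).2.1
    cases s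
    · simp only [Bool.not_false, iff_true]
      by_contra h2
      exact absurd (h1.mp h2) (by decide)
    · simp only [Bool.not_true, Bool.false_eq_true, iff_false]
      exact h1.mpr rfl
  · intro j k hjk
    have hsub : ∀ k, {i | i ∈ A ∧ i ∉ A0 ∧ x k * i ∈ Wset A A0 α y (!s) (!τ)} ⊆
        Dset A A0 α (b k) := by
      rintro k i ⟨hi, hi0, hW⟩
      refine ⟨hi, hi0, ?_⟩
      have hbk : b k = β (y * x k) := (hxb k).symm
      have h1 : b k * i = ((α (y * x k))⁻¹ * α (y * (x k * i))) * β (y * (x k * i)) := by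
        calc b k * i = (α (y * x k))⁻¹ * (α (y * x k) * β (y * x k)) * i := by rw [hbk]; group
          _ = (α (y * x k))⁻¹ * (y * x k) * i := by rw [← d.he]
          _ = (α (y * x k))⁻¹ * (y * (x k * i)) := by group
          _ = (α (y * x k))⁻¹ * (α (y * (x k * i)) * β (y * (x k * i))) := by rw [← d.he]
          _ = _ := by group
      have h2 := (d.uniq (A.mul_mem (A.inv_mem (d.ha (y * x k))) (d.ha (y * (x k * i))))
        (d.hb _) h1).1
      rw [h2]
      have h3 := (hx k).2.2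
      have h4 := hW.2.2
      intro h5
      cases τ
      · have h6 : α (y * x k) ∈ A0 := by
          by_contra h7
          exact absurd (h3.mp h7) (by decide)
        have h7 : α (y * (x k * i)) ∉ A0 := h4.mpr rfl
        apply h7
        have := A0.mul_mem h6 h5
        rwa [mul_inv_cancel_left] at this
      · have h6 : α (y * x k) ∉ A0 := h3.mpr rfl
        have h7 : α (y * (x k * i)) ∈ A0 := by
          by_contra h8
          exact absurd (h4.mp h8) (by decide)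
        apply h6
        have h8 := A0.mul_mem h7 (A0.inv_mem h5)
        have h9 : α (y * (x k * i)) * ((α (y * x k))⁻¹ * α (y * (x k * i)))⁻¹ = α (y * x k) := by
          group
        rwa [h9] at h8
    refine (h.almost_disjoint hI d (hb1 j |>.1 |> fun ⟨z, _, hz⟩ => hz ▸ d.hb _) (hb1 j).2
      (hb1 k |>.1 |> fun ⟨z, _, hz⟩ => hz ▸ d.hb _) (hb1 k).2 (hb2 j k hjk)).subset ?_
    exact Set.inter_subset_inter (hsub j) (hsub k)

theorem small_of_finite {i0 : G} (hi0 : i0 ∈ A) (hi00 : i0 ∉ A0) (ε : Prop) {U : Set G}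
    (hU : U.Finite) : Small A A0 ε U := by
  classical
  have hpre : ∀ c : G, {i | i ∈ A ∧ i ∉ A0 ∧ c * i ∈ U}.Finite := by
    intro c
    refine (hU.image (fun u => c⁻¹ * u)).subset ?_
    rintro i ⟨-, -, hi⟩
    exact ⟨c * i, hi, by show c⁻¹ * (c * i) = i; group⟩
  by_cases hε : ε
  · refine ⟨fun _ => 1, fun _ => A.one_mem, fun _ => ⟨fun _ => hε, fun _ => A0.one_mem⟩, ?_⟩
    intro j k _
    exact (hpre 1).subset Set.inter_subset_left
  · refine ⟨fun _ => i0, fun _ => hi0, fun _ => ⟨fun h1 => absurd h1 hi00, fun h1 => absurd h1 hε⟩,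
      ?_⟩
    intro j k _
    exact (hpre i0).subset Set.inter_subset_left

/-- No minimal configuration with a generalised dihedral factor and trivial `A ∩ B`. -/
theorem Cfg.dih_false (h : Cfg A A0 P B B0 Q) (hI : ∀ a ∈ A, a ∉ A0 → a * a = 1)
    (hAB : ∀ x ∈ A, x ∈ B → x = 1) {i0 : G} (hi0 : i0 ∈ A) (hi00 : i0 ∉ A0) : False := by
  classical
  choose α ha β hb he using h.hyp.fac
  have d : Dec A B α β := ⟨ha, hb, he, hAB⟩
  -- `B` is not contained in the normaliser of `P`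
  have hy : ∃ y ∈ B, y ∉ Nz P := by
    by_contra hall
    push Not at hall
    apply h.Nz_ne_top
    rw [eq_top_iff]
    intro g _
    obtain ⟨a, ha, b, hb, rfl⟩ := h.hyp.fac g
    exact (Nz P).mul_mem (h.hyp.sa.dp.le_Nz ha) (hall b hb)
  obtain ⟨y, hyB, hyN⟩ := hy
  have hA0inf : (A0 : Set G).Infinite := h.infP.mono h.hyp.sa.le_A0
  have hfin : ∀ s τ, (Wset A A0 α y s τ).Finite → Small A A0 (s = true) (Wset A A0 α y s τ) :=
    fun s τ hf => small_of_finite hi0 hi00 _ hf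
  have hinf : ∀ s τ, (Wset A A0 α y s τ).Infinite →
      Small A A0 ((!s) = true) (Wset A A0 α y (!s) (!τ)) :=
    fun s τ hf => h.small_of_infinite hI d hyN s τ hf
  have hcov : ∀ s, Small A A0 (s = true) (Wset A A0 α y s true) →
      Small A A0 (s = true) (Wset A A0 α y s false) → False := by
    intro s h1 h2
    cases s
    · refine small_cover h.hyp.sa hA0inf hi0 hi00 A.one_mem _ ?_ h1 h2 ?_
      · exact ⟨fun _ => by decide, fun _ => A0.one_mem⟩
      · intro f hf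
        rw [one_mul]
        by_cases hc : α (y * f) ∉ A0
        · exact Or.inl ⟨h.hyp.sa.le0 hf, ⟨fun h3 => absurd hf h3, fun h3 => absurd h3 (by decide)⟩,
            ⟨fun _ => rfl, fun _ => hc⟩⟩
        · exact Or.inr ⟨h.hyp.sa.le0 hf, ⟨fun h3 => absurd hf h3, fun h3 => absurd h3 (by decide)⟩,
            ⟨fun h3 => absurd h3 hc, fun h3 => absurd h3 (by decide)⟩⟩
    · refine small_cover h.hyp.sa hA0inf hi0 hi00 hi0 _ ?_ h1 h2 ?_
      · exact ⟨fun h3 => absurd h3 hi00, fun h3 => absurd rfl h3⟩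
      · intro f hf
        have h4 : i0 * f ∉ A0 := by
          intro h3
          apply hi00
          have := A0.mul_mem h3 (A0.inv_mem hf)
          rwa [mul_inv_cancel_right] at this
        by_cases hc : α (y * (i0 * f)) ∉ A0
        · exact Or.inl ⟨A.mul_mem hi0 (h.hyp.sa.le0 hf), ⟨fun _ => rfl, fun _ => h4⟩,
            ⟨fun _ => rfl, fun _ => hc⟩⟩
        · exact Or.inr ⟨A.mul_mem hi0 (h.hyp.sa.le0 hf), ⟨fun _ => rfl, fun _ => h4⟩,
            ⟨fun h3 => absurd h3 hc, fun h3 => absurd h3 (by decide)⟩⟩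
  -- one of the two parities is almost missed by the image
  have hmiss : ∃ τ, (Wset A A0 α y true τ).Finite ∧ (Wset A A0 α y false τ).Finite := by
    have h0 : ∃ τ0, ¬ Small A A0 (true = true) (Wset A A0 α y true τ0) := by
      by_contra hall
      push Not at hall
      exact hcov true (hall true) (hall false)
    obtain ⟨τ0, hτ0⟩ := h0
    have h1 : (Wset A A0 α y true τ0).Infinite := fun hf => hτ0 (hfin _ _ hf)
    have h2 : Small A A0 (false = true) (Wset A A0 α y false (!τ0)) := hinf true τ0 h1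
    have h3 : ¬ Small A A0 (false = true) (Wset A A0 α y false τ0) := by
      intro h4
      cases τ0
      · exact hcov false h2 h4
      · exact hcov false h4 h2
    refine ⟨!τ0, ?_, ?_⟩
    · by_contra hf
      have h4 := hinf true (!τ0) hf
      rw [Bool.not_not] at h4
      exact h3 h4
    · by_contra hf
      have h4 := hinf false (!τ0) hf
      rw [Bool.not_not] at h4
      exact hτ0 h4
  obtain ⟨τ, hτ1, hτ2⟩ := hmiss
  -- but `y` permutes `A`
  have hTinf : {a | a ∈ A ∧ (a ∉ A0 ↔ τ = true)}.Infinite := by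
    cases τ
    · refine hA0inf.mono ?_
      intro f hf
      exact ⟨h.hyp.sa.le0 hf, fun h3 => absurd hf h3, fun h3 => absurd h3 (by decide)⟩
    · have h1 : ((fun f => i0 * f) '' (A0 : Set G)).Infinite :=
        hA0inf.image (fun u _ v _ huv => mul_left_cancel huv)
      refine h1.mono ?_
      rintro _ ⟨f, hf, rfl⟩
      refine ⟨A.mul_mem hi0 (h.hyp.sa.le0 hf), fun _ => rfl, fun _ h3 => hi00 ?_⟩
      have := A0.mul_mem h3 (A0.inv_mem hf)
      rwa [mul_inv_cancel_right] at this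
  apply hTinf
  have hback : ∀ a ∈ A, α (y * α (y⁻¹ * a)) = a := by
    intro a ha'
    refine (d.uniq ha' (B.inv_mem (d.hb (y⁻¹ * a))) ?_).1
    have h1 := d.he (y⁻¹ * a)
    calc y * α (y⁻¹ * a) = y * (α (y⁻¹ * a) * β (y⁻¹ * a)) * (β (y⁻¹ * a))⁻¹ := by group
      _ = y * (y⁻¹ * a) * (β (y⁻¹ * a))⁻¹ := by rw [← h1]
      _ = _ := by group
  refine Set.Finite.of_finite_image (f := fun a => α (y⁻¹ * a)) ((hτ1.union hτ2).subset ?_) ?_
  · rintro _ ⟨a, ⟨haA, haτ⟩, rfl⟩
    by_cases hp : α (y⁻¹ * a) ∉ A0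
    · left
      refine ⟨d.ha _, ⟨fun _ => rfl, fun _ => hp⟩, ?_⟩
      show α (y * α (y⁻¹ * a)) ∉ A0 ↔ τ = true
      rw [hback a haA]
      exact haτ
    · right
      refine ⟨d.ha _, ⟨fun h1 => absurd h1 hp, fun h1 => absurd h1 (by decide)⟩, ?_⟩
      show α (y * α (y⁻¹ * a)) ∉ A0 ↔ τ = true
      rw [hback a haA]
      exact haτ
  · rintro a ⟨haA, -⟩ a' ⟨haA', -⟩ haa
    have h1 : α (y⁻¹ * a) = α (y⁻¹ * a') := haa
    rw [← hback a haA, ← hback a' haA', h1]

end

/-- No minimal configuration with a generalised dihedral factor. -/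
theorem core_dihedral {G : Type} [Group G] {A A0 P B B0 Q : Subgroup G} (h : Cfg A A0 P B B0 Q)
    (hI : ∀ a ∈ A, a ∉ A0 → a * a = 1) : False := by
  by_cases hA : A ≤ A0
  · exact core_abelian h hA
  · obtain ⟨i0, hi0, hi00⟩ := SetLike.not_le_iff_exists.mp hA
    have hA0 : A0 ≤ A := h.hyp.sa.le0
    have hB0 : B0 ≤ B := h.hyp.sb.le0
    have sideA : Side A0 A0 P := ⟨⟨h.hyp.sa.dp.dc, h.hyp.sa.le_A0, fun h0 => h.hyp.sa.dp.fin
      (Subgroup.relIndex_eq_zero_of_le_right hA0 h0)⟩, le_rfl, h.hyp.sa.comm0,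
      fun x hx y _ hx0 => absurd hx hx0⟩
    have sideB : Side B0 B0 Q := ⟨⟨h.hyp.sb.dp.dc, h.hyp.sb.le_A0, fun h0 => h.hyp.sb.dp.fin
      (Subgroup.relIndex_eq_zero_of_le_right hB0 h0)⟩, le_rfl, h.hyp.sb.comm0,
      fun x hx y _ hx0 => absurd hx hx0⟩
    refine h.dih_false hI ?_ hi0 hi00
    intro x hx hxB
    by_contra hx1
    apply h.ne
    by_cases hx0 : x ∈ A0
    · have hxB0 : x ∉ B0 := fun h1 => hx1 (h.inf0 hx0 h1)
      -- `G = A * B0`
      have hfac : ∀ g : G, ∃ a ∈ A, ∃ b ∈ B0, g = a * b := by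
        intro g
        obtain ⟨a, ha, b, hb, rfl⟩ := h.hyp.fac g
        by_cases hb0 : b ∈ B0
        · exact ⟨a, ha, b, hb0, rfl⟩
        · exact ⟨a * x⁻¹, A.mul_mem ha (A.inv_mem hx), x * b, h.hyp.sb.idx x hxB b hb hxB0 hb0,
            by group⟩
      intro u hu v hv
      have hH : Hyp A A0 P B0 B0 Q := ⟨hfac, h.hyp.sa, sideB⟩
      exact (comm_of_abelian G B0 B0 Q A A0 P hH.symm le_rfl v hv u hu).symm
    · -- `G = A0 * B`
      have hfac : ∀ g : G, ∃ a ∈ A0, ∃ b ∈ B, g = a * b := by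
        intro g
        obtain ⟨a, ha, b, hb, rfl⟩ := h.hyp.fac g
        by_cases ha0 : a ∈ A0
        · exact ⟨a, ha0, b, hb, rfl⟩
        · exact ⟨a * x, h.hyp.sa.idx a ha x hx ha0 hx0, x⁻¹ * b, B.mul_mem (B.inv_mem hxB) hb,
            by group⟩
      exact comm_of_abelian G A0 A0 P B B0 Q ⟨hfac, sideA, h.hyp.sb⟩ le_rfl

theorem cls_dih : Cls (fun _ _ A A0 _ _ => ∀ a ∈ A, a ∉ A0 → a * a = 1) where
  sub := by
    intro G _ A A0 B B0 A' B' L hC hA hB hAL hBL
    rintro ⟨a, haL⟩ ha ha0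
    apply Subtype.ext
    refine hC a (hA ha) ?_
    intro h1
    exact ha0 ⟨h1, ha⟩
  map := by
    intro G _ G' _ A A0 B B0 f hC
    rintro _ ⟨a, ha, rfl⟩ ha0
    rw [← map_mul, hC a ha (fun h1 => ha0 ⟨a, h1, rfl⟩), map_one]

/-- If `A` is abelian or generalised dihedral, the divisible parts commute. -/
theorem comm_of_dihedral (G : Type) [Group G] (A A0 P B B0 Q : Subgroup G)
    (h : Hyp A A0 P B B0 Q) (hI : ∀ a ∈ A, a ∉ A0 → a * a = 1) :
    ∀ x ∈ P, ∀ y ∈ Q, x * y = y * x :=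
  reduction cls_dih (fun _ _ _ _ _ _ _ _ h hI => core_dihedral h hI) G A A0 P B B0 Q h hI

end H36.CH
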