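import Pool.Agent.H72.CH.Targets2

/-!
# Structures with relative local completions are finitely bounded
-/

set_option autoImplicit false
set_option linter.unusedVariables false

namespace Pool.Agent.H36.CH

open Pool.Agent.H68.BP Pool.Agent.H58.SF Pool.Agent.H53.NR
open Pool.Agent.H57.LCI (Pre Realizes)
open Pool.Agent.H57.AR (tp ty Ty)
open Pool.Agent.H57.LH (Hmg tp_iff)
open Pool.Agent.H72.CH
open Function

section small

variable {B : Type} {τ : Sig} {𝔹 : Str τ B}

/-- A structure is finitely bounded if the finite structures with embeddings are given by their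
small substructures. -/
theorem bounded_of_small (hM : ∃ M : ℕ, ∀ (n : ℕ) (𝕏 : Str τ (Fin n)),
      (∀ (k : ℕ) (s : Fin k → Fin n), k ≤ M → Injective s → Embeds (pull 𝕏 s) 𝔹) →
      Embeds 𝕏 𝔹) : FinitelyBounded 𝔹 := by
  classical
  obtain ⟨M, hM⟩ := hM
  have hfin : ∀ n : ℕ, Finite (Str τ (Fin n)) := fun n => by
    unfold Str
    infer_instance
  have hF : Finite (Σ m : Fin (M + 1), Str τ (Fin m)) := inferInstance
  let _ : Fintype (Σ m : Fin (M + 1), Str τ (Fin m)) := Fintype.ofFinite _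
  let N : List (Σ n : ℕ, Str τ (Fin n)) :=
    ((Finset.univ : Finset (Σ m : Fin (M + 1), Str τ (Fin m))).toList.map
      fun p => (⟨(p.1 : ℕ), p.2⟩ : Σ n : ℕ, Str τ (Fin n))).filter fun p => ¬ Embeds p.2 𝔹
  have hN : ∀ p : Σ n : ℕ, Str τ (Fin n), p ∈ N ↔ p.1 ≤ M ∧ ¬ Embeds p.2 𝔹 := by
    rintro ⟨m, 𝕐⟩
    simp only [N, List.mem_filter, List.mem_map, Finset.mem_toList, Finset.mem_univ, true_and,
      decide_eq_true_eq]
    constructor
    · rintro ⟨⟨⟨k, 𝕑⟩, he⟩, h⟩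
      obtain ⟨h1, h2⟩ := Sigma.mk.inj he
      exact ⟨h1 ▸ Nat.lt_succ_iff.1 k.2, h⟩
    · rintro ⟨h1, h2⟩
      exact ⟨⟨⟨⟨m, Nat.lt_succ_of_le h1⟩, 𝕐⟩, rfl⟩, h2⟩
  refine ⟨N, fun n 𝕏 => ⟨fun ⟨f, hf1, hf2⟩ p hp ⟨g, hg1, hg2⟩ => ?_, fun h => ?_⟩⟩
  · exact ((hN p).1 hp).2 ⟨fun i => f (g i), hf1.comp hg1,
      fun l z => (hg2 l z).trans (hf2 l fun i => g (z i))⟩
  · refine hM n 𝕏 fun m s hm hs => ?_
    by_contra h1
    exact h ⟨m, pull 𝕏 s⟩ ((hN _).2 ⟨hm, h1⟩) ⟨s, hs, fun l z => Iff.rfl⟩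

/-- `f` is an embedding of the substructure `T`. -/
def EmbOn {n : ℕ} (𝔹 : Str τ B) (𝕏 : Str τ (Fin n)) (T : Finset (Fin n)) (f : Fin n → B) : Prop :=
  (∀ x ∈ T, ∀ y ∈ T, f x = f y → x = y) ∧
    ∀ (l : Fin τ.m) (z : Fin (τ.ar l) → Fin n), (∀ i, z i ∈ T) →
      (𝕏 l z ↔ 𝔹 l (fun i => f (z i)))

theorem embOn_mono {n : ℕ} {𝕏 : Str τ (Fin n)} {T T' : Finset (Fin n)} {f : Fin n → B}
    (h : EmbOn 𝔹 𝕏 T f) (hT : T' ⊆ T) : EmbOn 𝔹 𝕏 T' f :=
  ⟨fun x hx y hy => h.1 x (hT hx) y (hT hy), fun l z hz => h.2 l z fun i => hT (hz i)⟩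

/-- small substructures have embeddings -/
theorem exists_embOn [Nonempty B] {n M : ℕ} {𝕏 : Str τ (Fin n)}
    (h : ∀ (k : ℕ) (s : Fin k → Fin n), k ≤ M → Injective s → Embeds (pull 𝕏 s) 𝔹)
    (T : Finset (Fin n)) (hT : T.card ≤ M) : ∃ f : Fin n → B, EmbOn 𝔹 𝕏 T f := by
  classical
  obtain ⟨g, hg1, hg2⟩ := h T.card (fun i => (T.equivFin.symm i : Fin n)) hT
    (Subtype.val_injective.comp T.equivFin.symm.injective)
  obtain ⟨b⟩ := ‹Nonempty B›
  let f : Fin n → B := fun x => if hx : x ∈ T then g (T.equivFin ⟨x, hx⟩) else b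
  have hf : ∀ x (hx : x ∈ T), f x = g (T.equivFin ⟨x, hx⟩) := fun x hx => dif_pos hx
  refine ⟨f, fun x hx y hy hxy => ?_, fun l z hz => ?_⟩
  · rw [hf x hx, hf y hy] at hxy
    exact congrArg Subtype.val (T.equivFin.injective (hg1 hxy))
  · have h1 : (fun i => f (z i)) = fun i => g (T.equivFin ⟨z i, hz i⟩) :=
      funext fun i => hf _ (hz i)
    have h2 := hg2 l (fun i => T.equivFin ⟨z i, hz i⟩)
    have h3 : pull 𝕏 (fun i => (T.equivFin.symm i : Fin n)) l
        (fun i => T.equivFin ⟨z i, hz i⟩) ↔ 𝕏 l z := by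
      have h4 : (fun i => (T.equivFin.symm (T.equivFin ⟨z i, hz i⟩) : Fin n)) = z := by
        funext i
        rw [Equiv.symm_apply_apply]
      show 𝕏 l (fun i => (T.equivFin.symm (T.equivFin ⟨z i, hz i⟩) : Fin n)) ↔ 𝕏 l z
      rw [h4]
    rw [h1]
    exact h3.symm.trans h2

/-- embeddings of substructures give tuples of the same type -/
theorem tp_embOn {n : ℕ} {𝕏 : Str τ (Fin n)} {T : Finset (Fin n)} {f f' : Fin n → B}
    (h : EmbOn 𝔹 𝕏 T f) (h' : EmbOn 𝔹 𝕏 T f') {J : Type} (t : J → Fin n) (ht : ∀ j, t j ∈ T) :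
    tp 𝔹 (fun j => f (t j)) = tp 𝔹 (fun j => f' (t j)) := by
  refine tp_iff.2 ⟨fun a b => ?_, fun l z => ?_⟩
  · exact ⟨fun e => congrArg f' (h.1 _ (ht a) _ (ht b) e),
      fun e => congrArg f (h'.1 _ (ht a) _ (ht b) e)⟩
  · exact (h.2 l (fun i => t (z i)) fun i => ht _).symm.trans
      (h'.2 l (fun i => t (z i)) fun i => ht _)

end small

/-- **Structures with relative local completions are finitely bounded.** -/
theorem pf_FBD : T_FBD := by
  classical
  intro V ρ 𝔹 m lv hV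
  have hne : Nonempty V := hV.ne
  obtain ⟨M, hM⟩ := hV.rlc (max 2 ρ.width)
  refine bounded_of_small ⟨max M 3, fun n 𝕏 hs => ?_⟩
  have hF := fun T : Finset (Fin n) => fun hT : T.card ≤ max M 3 => exists_embOn hs T hT
  have h2 : ∀ x y : Fin n, ({x, y} : Finset (Fin n)).card ≤ max M 3 := fun x y =>
    le_trans Finset.card_le_two (le_trans (by norm_num) (le_max_right M 3))
  have h3 : ∀ x y z : Fin n, ({x, y, z} : Finset (Fin n)).card ≤ max M 3 := fun x y z =>
    le_trans Finset.card_le_three (le_max_right M 3)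
  choose E hE using fun x y : Fin n => hF {x, y} (h2 x y)
  let lam : Fin n → Fin n → ℕ := fun x y => lv (E x y x) (E x y y)
  have key : ∀ (T : Finset (Fin n)) (f : Fin n → V), EmbOn 𝔹 𝕏 T f → ∀ x ∈ T, ∀ y ∈ T,
      lv (f x) (f y) = lam x y := by
    intro T f hf x hx y hy
    have hT : ({x, y} : Finset (Fin n)) ⊆ T := by
      intro a ha
      rcases Finset.mem_insert.1 ha with h | h
      · rw [h]
        exact hx
      · rw [Finset.mem_singleton.1 h]
        exact hy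
    have h4 := tp_embOn (embOn_mono hf hT) (hE x y) (![x, y] : Fin 2 → Fin n) (by
      intro j
      fin_cases j
      · exact Finset.mem_insert_self x {y}
      · exact Finset.mem_insert_of_mem (Finset.mem_singleton_self y))
    exact hV.inv _ _ h4
  have hpl : PLev m lam := by
    refine ⟨fun x y => hV.lev.pl.le _ _, fun x => hV.lev.pl.self _, fun x y => ?_,
      fun x y z => ?_⟩
    · have h4 := key {x, y} (E x y) (hE x y) y (Finset.mem_insert_of_mem
        (Finset.mem_singleton_self y)) x (Finset.mem_insert_self x {y})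
      rw [← h4]
      exact hV.lev.pl.sym _ _
    · obtain ⟨f, hf⟩ := hF {x, y, z} (h3 x y z)
      have hx : x ∈ ({x, y, z} : Finset (Fin n)) := Finset.mem_insert_self _ _
      have hy : y ∈ ({x, y, z} : Finset (Fin n)) :=
        Finset.mem_insert_of_mem (Finset.mem_insert_self _ _)
      have hz : z ∈ ({x, y, z} : Finset (Fin n)) :=
        Finset.mem_insert_of_mem (Finset.mem_insert_of_mem (Finset.mem_singleton_self _))
      rw [← key _ f hf x hx y hy, ← key _ f hf y hy z hz, ← key _ f hf x hx z hz]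
      exact hV.lev.pl.ult _ _ _
  have heq : ∀ x y, lam x y = m → x = y := fun x y h =>
    (hE x y).1 x (Finset.mem_insert_self x {y}) y
      (Finset.mem_insert_of_mem (Finset.mem_singleton_self y)) (hV.lev.eq _ _ h)
  obtain ⟨f, hf1, hf2⟩ := hM n lam
    {p | p.1 ≤ max 2 ρ.width ∧ Injective p.2.1 ∧ p.2.2 = pull 𝕏 p.2.1} hpl
    (fun p hp => hp.1) (by
      intro U hU
      obtain ⟨f, hf⟩ := hF U (le_trans hU (le_max_left M 3))
      refine ⟨f, fun x hx y hy => (key U f hf x hx y hy).ge, ?_⟩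
      rintro ⟨j, t, 𝕋⟩ ⟨hp1, hp2, hp3⟩ hpU
      have hp3' : 𝕋 = pull 𝕏 t := hp3
      subst hp3'
      refine ⟨⟨fun a b hab => ?_, fun l z => ?_⟩, fun a b => ?_⟩
      · exact hp2 (hf.1 _ (hpU a) _ (hpU b) hab)
      · exact hf.2 l (fun i => t (z i)) fun i => hpU _
      · exact key U f hf _ (hpU a) _ (hpU b))
  refine ⟨f, fun x y hxy => heq x y ?_, fun l z => ?_⟩
  · rw [← hf1, hxy]
    exact hV.lev.pl.self _
  · let T : Finset (Fin n) := Finset.univ.image z
    have hzT : ∀ i, z i ∈ T := fun i => Finset.mem_image_of_mem z (Finset.mem_univ i)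
    have hc : T.card ≤ ρ.ar l := by
      have h5 : T.card ≤ (Finset.univ : Finset (Fin (ρ.ar l))).card := Finset.card_image_le
      rw [Finset.card_univ, Fintype.card_fin] at h5
      exact h5
    have hw : ρ.ar l ≤ ρ.width := Finset.le_sup (f := ρ.ar) (Finset.mem_univ l)
    have h6 := hf2 ⟨T.card, fun i => (T.equivFin.symm i : Fin n),
        pull 𝕏 fun i => (T.equivFin.symm i : Fin n)⟩
      ⟨le_trans hc (le_trans hw (le_max_right _ _)),
        Subtype.val_injective.comp T.equivFin.symm.injective, rfl⟩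
    have h7 := h6.2 l (fun i => T.equivFin ⟨z i, hzT i⟩)
    have h8 : (fun i => (T.equivFin.symm (T.equivFin ⟨z i, hzT i⟩) : Fin n)) = z := by
      funext i
      rw [Equiv.symm_apply_apply]
    have h9 : 𝕏 l (fun i => (T.equivFin.symm (T.equivFin ⟨z i, hzT i⟩) : Fin n)) ↔
        𝔹 l (fun i => f (T.equivFin.symm (T.equivFin ⟨z i, hzT i⟩) : Fin n)) := h7
    have h10 : (fun i => f (T.equivFin.symm (T.equivFin ⟨z i, hzT i⟩) : Fin n)) =
        fun i => f (z i) := funext fun i => congrArg f (congrFun h8 i)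
    rw [h8, h10] at h9
    exact h9

end Pool.Agent.H36.CH
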