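import Pool.Agent.H36.CH.Dih4

/-! Assembly: `G` is Chernikov if one factor is abelian or generalised dihedral. -/

namespace H36.CH

open Subgroup Pointwise

/-- Extensions of artinian groups by artinian groups are artinian. -/
theorem art_of_extension {M : Type*} [Group M] (N : Subgroup M) [N.Normal]
    (h1 : WellFoundedLT (Subgroup ↥N)) (h2 : WellFoundedLT (Subgroup (M ⧸ N))) :
    WellFoundedLT (Subgroup M) := by
  have hs : StrictMono (fun K : Subgroup M =>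
      ((K.subgroupOf N, K.map (QuotientGroup.mk' N)) : Subgroup ↥N × Subgroup (M ⧸ N))) := by
    intro K L hKL
    refine lt_of_le_of_ne ⟨Subgroup.comap_mono hKL.le, Subgroup.map_mono hKL.le⟩ ?_
    intro he
    have e1 : K.subgroupOf N = L.subgroupOf N := congrArg Prod.fst he
    have e2 : K.map (QuotientGroup.mk' N) = L.map (QuotientGroup.mk' N) := congrArg Prod.snd he
    apply hKL.not_ge
    intro x hx
    have h3 : QuotientGroup.mk' N x ∈ K.map (QuotientGroup.mk' N) := by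
      rw [e2]; exact ⟨x, hx, rfl⟩
    obtain ⟨k, hk, hkx⟩ := h3
    have h4 : k⁻¹ * x ∈ N := by
      rw [← QuotientGroup.eq]
      exact hkx
    have h5 : (⟨k⁻¹ * x, h4⟩ : ↥N) ∈ L.subgroupOf N :=
      L.mul_mem (L.inv_mem (hKL.le hk)) hx
    rw [← e1] at h5
    have h6 : k⁻¹ * x ∈ K := h5
    have h7 := K.mul_mem hk h6
    rwa [mul_inv_cancel_left] at h7
  exact hs.wellFoundedLT

section

variable {G : Type*} [Group G]

theorem mem_sup_comm {P Q : Subgroup G} (hc : ∀ x ∈ P, ∀ y ∈ Q, x * y = y * x) {g : G}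
    (hg : g ∈ P ⊔ Q) : ∃ p ∈ P, ∃ q ∈ Q, g = p * q := by
  let R : Subgroup G :=
    { carrier := {g | ∃ p ∈ P, ∃ q ∈ Q, g = p * q}
      one_mem' := ⟨1, P.one_mem, 1, Q.one_mem, (one_mul 1).symm⟩
      mul_mem' := by
        rintro _ _ ⟨p, hp, q, hq, rfl⟩ ⟨p', hp', q', hq', rfl⟩
        refine ⟨p * p', P.mul_mem hp hp', q * q', Q.mul_mem hq hq', ?_⟩
        calc p * q * (p' * q') = p * (q * p') * q' := by group
          _ = p * (p' * q) * q' := by rw [hc p' hp' q hq]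
          _ = _ := by group
      inv_mem' := by
        rintro _ ⟨p, hp, q, hq, rfl⟩
        refine ⟨p⁻¹, P.inv_mem hp, q⁻¹, Q.inv_mem hq, ?_⟩
        rw [mul_inv_rev, hc p⁻¹ (P.inv_mem hp) q⁻¹ (Q.inv_mem hq)] }
  have hle : P ⊔ Q ≤ R := by
    refine sup_le ?_ ?_
    · intro p hp
      exact ⟨p, hp, 1, Q.one_mem, (mul_one p).symm⟩
    · intro q hq
      exact ⟨1, P.one_mem, q, hq, (one_mul q).symm⟩
  exact hle hg

/-- The join of commuting divisible artinian subgroups. -/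
theorem DC.sup {P Q : Subgroup G} (hP : DC P) (hQ : DC Q)
    (hc : ∀ x ∈ P, ∀ y ∈ Q, x * y = y * x) : DC (P ⊔ Q) := by
  have hcomm : ∀ x ∈ P ⊔ Q, ∀ y ∈ P ⊔ Q, x * y = y * x := by
    intro x hx y hy
    obtain ⟨p, hp, q, hq, rfl⟩ := mem_sup_comm hc hx
    obtain ⟨p', hp', q', hq', rfl⟩ := mem_sup_comm hc hy
    calc p * q * (p' * q') = p * (q * p') * q' := by group
      _ = p * (p' * q) * q' := by rw [hc p' hp' q hq]
      _ = (p * p') * (q * q') := by group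
      _ = (p' * p) * (q' * q) := by rw [hP.comm p hp p' hp', hQ.comm q hq q' hq']
      _ = p' * (p * q') * q := by group
      _ = p' * (q' * p) * q := by rw [hc p hp q' hq']
      _ = _ := by group
  refine ⟨hcomm, ?_, ?_⟩
  · intro x hx n hn
    obtain ⟨p, hp, q, hq, rfl⟩ := mem_sup_comm hc hx
    obtain ⟨u, hu, rfl⟩ := hP.div p hp n hn
    obtain ⟨v, hv, rfl⟩ := hQ.div q hq n hn
    refine ⟨u * v, (P ⊔ Q).mul_mem (le_sup_left (a := P) hu) (le_sup_right (a := P) hv), ?_⟩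
    exact (show Commute u v from hc u hu v hv).mul_pow n
  · have hPs : P ≤ P ⊔ Q := le_sup_left
    have hQs : Q ≤ P ⊔ Q := le_sup_right
    have hn : (P.subgroupOf (P ⊔ Q)).Normal := by
      refine ⟨fun x hx g => ?_⟩
      have h1 : g * x = x * g := Subtype.ext (hcomm g g.2 x x.2)
      rw [h1, mul_inv_cancel_right]
      exact hx
    refine art_of_extension (P.subgroupOf (P ⊔ Q)) (hP.rk_subgroupOf_le hPs).1.art ?_
    refine art_of_surjective ((QuotientGroup.mk' (P.subgroupOf (P ⊔ Q))).comp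
      (Subgroup.inclusion hQs)) ?_ hQ.art
    intro z
    obtain ⟨⟨g, hg⟩, rfl⟩ := QuotientGroup.mk'_surjective _ z
    obtain ⟨p, hp, q, hq, rfl⟩ := mem_sup_comm hc hg
    refine ⟨⟨q, hq⟩, ?_⟩
    show (QuotientGroup.mk' (P.subgroupOf (P ⊔ Q))) ⟨q, hQs hq⟩ = _
    apply Eq.symm
    show (QuotientGroup.mk _ : ↥(P ⊔ Q) ⧸ P.subgroupOf (P ⊔ Q)) = QuotientGroup.mk _
    rw [QuotientGroup.eq, Subgroup.mem_subgroupOf]
    show (p * q)⁻¹ * q ∈ P
    have h2 : (p * q)⁻¹ * q = q⁻¹ * p⁻¹ * q := by group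
    rw [h2, ← hc p⁻¹ (P.inv_mem hp) q⁻¹ (Q.inv_mem hq), inv_mul_cancel_right]
    exact P.inv_mem hp

/-- Extraction of the structure `Side` from the hypotheses of the problem. -/
theorem exists_side (A : Subgroup G)
    (h1 : ∃ H : Subgroup G, H ≤ A ∧ (∀ x ∈ H, ∀ y ∈ H, x * y = y * x) ∧
      (H.subgroupOf A).index ≠ 0 ∧ WellFoundedLT (Subgroup ↥H)) (K : Subgroup G) (hK : K ≤ A)
    (hc : ∀ x ∈ K, ∀ y ∈ K, x * y = y * x) (hi0 : (K.subgroupOf A).index ≠ 0)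
    (hi : (K.subgroupOf A).index ≤ 2) : ∃ P : Subgroup G, Side A K P := by
  obtain ⟨H, hH, hHc, hHi, hHa⟩ := h1
  obtain ⟨D, hD⟩ := exists_DP hHc hHa
  refine ⟨D, ⟨hD.dc, hD.le.trans hH, Subgroup.relIndex_ne_zero_trans hD.fin hHi⟩, hK, hc, ?_⟩
  intro x hx y hy hx0 hy0
  have h3 : (K.subgroupOf A).index = 1 ∨ (K.subgroupOf A).index = 2 := by omega
  rcases h3 with h3 | h3
  · exfalso
    rw [Subgroup.index_eq_one] at h3
    have h4 : (⟨x, hx⟩ : ↥A) ∈ K.subgroupOf A := by rw [h3]; exact Subgroup.mem_top _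
    exact hx0 h4
  · have h4 := (Subgroup.mul_mem_iff_of_index_two h3 (a := ⟨x, hx⟩) (b := ⟨y, hy⟩)).mpr
      ⟨fun h5 => absurd h5 hx0, fun h5 => absurd h5 hy0⟩
    exact h4

end

theorem dvd_two_of_idx {G : Type*} [Group G] {A K : Subgroup G}
    (h : ∀ x ∈ A, ∀ y ∈ A, x ∉ K → y ∉ K → x * y ∈ K) : K.relIndex A ∣ 2 := by
  rw [Subgroup.relIndex_dvd_two_iff]
  by_cases hA : ∃ a ∈ A, a ∉ K
  · obtain ⟨a, ha, ha0⟩ := hA
    refine ⟨a, ha, fun b hb => ?_⟩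
    by_cases hb0 : b ∈ K
    · exact Or.inr hb0
    · exact Or.inl (h b hb a ha hb0 ha0)
  · push Not at hA
    exact ⟨1, A.one_mem, fun b hb => Or.inr (hA b hb)⟩

theorem Side.index_le {G : Type*} [Group G] {A A0 P : Subgroup G} (h : Side A A0 P) :
    (A0.subgroupOf A).index ≠ 0 ∧ (A0.subgroupOf A).index ≤ 2 := by
  have h1 := dvd_two_of_idx h.idx
  exact ⟨h.relIndex0, Nat.le_of_dvd two_pos h1⟩

/-- The finite theorem (Kazarin): a finite product of two groups with abelian subgroups of index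
at most two is soluble. -/
def FiniteCase : Prop :=
  ∀ (F : Type) [Group F] [Finite F] (A B : Subgroup F),
    (∀ g : F, ∃ a ∈ A, ∃ b ∈ B, g = a * b) →
    (∃ K : Subgroup F, K ≤ A ∧ (∀ x ∈ K, ∀ y ∈ K, x * y = y * x) ∧
      (K.subgroupOf A).index ≠ 0 ∧ (K.subgroupOf A).index ≤ 2) →
    (∃ K : Subgroup F, K ≤ B ∧ (∀ x ∈ K, ∀ y ∈ K, x * y = y * x) ∧
      (K.subgroupOf B).index ≠ 0 ∧ (K.subgroupOf B).index ≤ 2) →
    Group.IsSolvable F

/-- From commuting divisible parts to the structure of `G`. -/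
theorem conclude {G : Type} [Group G] {A A0 P B B0 Q : Subgroup G} (h : Hyp A A0 P B B0 Q)
    (hc : ∀ x ∈ P, ∀ y ∈ Q, x * y = y * x) :
    (∃ D : Subgroup G, D.Normal ∧ (∀ x ∈ D, ∀ y ∈ D, x * y = y * x) ∧
      (∀ x ∈ D, ∀ n : ℕ, 0 < n → ∃ y ∈ D, y ^ n = x) ∧ D.index ≠ 0 ∧
      WellFoundedLT (Subgroup ↥D)) ∧ (FiniteCase → Group.IsSolvable G) := by
  have hidx : (P ⊔ Q).index ≠ 0 := index_sup_ne_zero h.fac h.sa.dp.fin h.sb.dp.fin
  have hnorm : (P ⊔ Q).Normal := sup_normal h.sa.dp.dc h.sb.dp.dc hidx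
  have hDC : DC (P ⊔ Q) := h.sa.dp.dc.sup h.sb.dp.dc hc
  refine ⟨⟨P ⊔ Q, hnorm, hDC.comm, hDC.div, hidx, hDC.art⟩, ?_⟩
  intro hfin
  have hF : Finite (G ⧸ (P ⊔ Q)) := by
    have : (P ⊔ Q).FiniteIndex := ⟨hidx⟩
    infer_instance
  have hH := h.map (QuotientGroup.mk' (P ⊔ Q)) (QuotientGroup.mk'_surjective _)
  have hsol : Group.IsSolvable (G ⧸ (P ⊔ Q)) := hfin (G ⧸ (P ⊔ Q)) _ _ hH.fac
    ⟨_, hH.sa.le0, hH.sa.comm0, hH.sa.index_le⟩ ⟨_, hH.sb.le0, hH.sb.comm0, hH.sb.index_le⟩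
  have hsolD : Group.IsSolvable ↥(P ⊔ Q) :=
    Group.isSolvable_of_comm (fun a b => Subtype.ext (hDC.comm a a.2 b b.2))
  exact Group.isSolvable_of_ker_le_range (P ⊔ Q).subtype (QuotientGroup.mk' (P ⊔ Q))
    (by rw [QuotientGroup.ker_mk', Subgroup.range_subtype])

end H36.CH
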