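import Pool.Agent.H72.CH.Targets
import Pool.Agent.H94.FB.OLI

/-!
# Homogeneous structures with levels: back and forth, oligomorphic automorphism groups (OLG)
-/

set_option autoImplicit false

namespace Pool.Agent.H36.CH

open Pool.Agent.H68.BP Pool.Agent.H58.SF Pool.Agent.H53.NR
open Pool.Agent.H57.AR (tp ty Ty)
open Pool.Agent.H57.LH (Hmg)
open Pool.Agent.H44.KR Pool.Agent.H44.FB
open Pool.Agent.H94.FB (OliP oli_comp oli_swap)
open Function Classical

section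
variable {V : Type} {ρ : Sig} {𝔹 : Str ρ V}

private theorem forth (hB : Hmg 𝔹) (A : Finset (V × V)) (hA : OliP 𝔹 A) (a : V) :
    ∃ A' : Finset (V × V), A ⊆ A' ∧ OliP 𝔹 A' ∧ ∃ b, (a, b) ∈ A' := by
  let x : Option {q // q ∈ A} → V := fun q => q.elim a fun p => p.1.1
  let y : Option {q // q ∈ A} → V := fun q => q.elim a fun p => p.1.2
  let S : Set (Option {q // q ∈ A}) := {q | ∃ p, q = some p}
  have hxy : TpOn 𝔹 S x y := by
    have h1 : TpOn 𝔹 S (fun q => Prod.fst (q.elim (a, a) fun p => p.1))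
        (fun q => Prod.snd (q.elim (a, a) fun p => p.1)) := by
      refine oli_comp hA (fun q : Option {q // q ∈ A} => q.elim (a, a) fun p => p.1) ?_
      rintro q ⟨p, rfl⟩
      exact p.2
    refine tpo_congr h1 ?_ ?_
    · rintro q ⟨p, rfl⟩
      rfl
    · rintro q ⟨p, rfl⟩
      rfl
  obtain ⟨x', h1, h2⟩ := hB (Option {q // q ∈ A}) S x y hxy
  refine ⟨insert (a, x' none) A, Finset.subset_insert _ _, ?_, x' none, Finset.mem_insert_self _ _⟩
  let j : V × V → Option {q // q ∈ A} := fun q => if h : q ∈ A then some ⟨q, h⟩ else none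
  have h3 : TpOn 𝔹 ((insert (a, x' none) A : Finset (V × V)) : Set (V × V)) (fun q => x (j q))
      (fun q => x' (j q)) :=
    oli_comp (tpo_of_tp h1.symm Set.univ) j fun q _ => Set.mem_univ _
  refine tpo_congr h3 ?_ ?_
  · intro q hq
    by_cases hq' : q ∈ A
    · show q.1 = x (j q)
      rw [show j q = some ⟨q, hq'⟩ from dif_pos hq']
      rfl
    · show q.1 = x (j q)
      rw [show j q = none from dif_neg hq']
      rcases Finset.mem_insert.1 (Finset.mem_coe.1 hq) with h | h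
      · rw [h]
        rfl
      · exact absurd h hq'
  · intro q hq
    by_cases hq' : q ∈ A
    · show q.2 = x' (j q)
      rw [show j q = some ⟨q, hq'⟩ from dif_pos hq', h2 _ ⟨⟨q, hq'⟩, rfl⟩]
      rfl
    · show q.2 = x' (j q)
      rw [show j q = none from dif_neg hq']
      rcases Finset.mem_insert.1 (Finset.mem_coe.1 hq) with h | h
      · rw [h]
      · exact absurd h hq'

private theorem step1 (hB : Hmg 𝔹) (A : Finset (V × V)) (hA : OliP 𝔹 A) (c : V) :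
    ∃ A' : Finset (V × V), A ⊆ A' ∧ OliP 𝔹 A' ∧ (∃ b, (c, b) ∈ A') ∧ ∃ a, (a, c) ∈ A' := by
  obtain ⟨A₁, h1, h2, b, h3⟩ := forth hB A hA c
  obtain ⟨A₂, h4, h5, a, h6⟩ := forth hB _ (oli_swap A₁ h2) c
  have h7 : A₁ ⊆ A₂.image Prod.swap := by
    intro q hq
    exact Finset.mem_image.2 ⟨q.swap, h4 (Finset.mem_image_of_mem _ hq), Prod.swap_swap q⟩
  exact ⟨A₂.image Prod.swap, h1.trans h7, oli_swap A₂ h5, ⟨b, h7 h3⟩,
    ⟨a, Finset.mem_image.2 ⟨(c, a), h6, rfl⟩⟩⟩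

/-- back and forth -/
theorem bf (hB : Hmg 𝔹) [Nonempty V] [Countable V] {n : ℕ} (x y : Fin n → V)
    (h : tp 𝔹 x = tp 𝔹 y) :
    ∃ g : V ≃ V, (∀ (J : Type) [Finite J] (z : J → V), tp 𝔹 (fun j => g (z j)) = tp 𝔹 z) ∧
      ∀ i, g (x i) = y i := by
  obtain ⟨e, he⟩ := exists_surjective_nat V
  let A₀ : Finset (V × V) := Finset.univ.image fun i => (x i, y i)
  have hA₀ : OliP 𝔹 A₀ := by
    refine ⟨?_, ?_⟩
    · intro a ha b hb
      obtain ⟨i, -, rfl⟩ := Finset.mem_image.1 (Finset.mem_coe.1 ha)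
      obtain ⟨j, -, rfl⟩ := Finset.mem_image.1 (Finset.mem_coe.1 hb)
      exact eq_of_tp h i j
    · intro l z hz
      have : ∀ i, ∃ k, (x k, y k) = z i := by
        intro i
        obtain ⟨k, -, hk⟩ := Finset.mem_image.1 (Finset.mem_coe.1 (hz i))
        exact ⟨k, hk⟩
      choose k hk using this
      have e1 : (fun i => (z i).1) = fun i => x (k i) := funext fun i => by rw [← hk i]
      have e2 : (fun i => (z i).2) = fun i => y (k i) := funext fun i => by rw [← hk i]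
      rw [e1, e2]
      exact rel_of_tp h l k
  have step : ∀ (m : ℕ) (A : Finset (V × V)), ∃ A' : Finset (V × V), OliP 𝔹 A →
      A ⊆ A' ∧ OliP 𝔹 A' ∧ (∃ b, (e m, b) ∈ A') ∧ ∃ a, (a, e m) ∈ A' := by
    intro m A
    by_cases hA : OliP 𝔹 A
    · obtain ⟨A', h1⟩ := step1 hB A hA (e m)
      exact ⟨A', fun _ => h1⟩
    · exact ⟨A, fun h' => absurd h' hA⟩
  choose st hst using step
  let G : ℕ → Finset (V × V) := fun m => Nat.rec A₀ (fun m A => st m A) m
  have hG : ∀ m, OliP 𝔹 (G m) := by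
    intro m
    induction m with
    | zero => exact hA₀
    | succ m ih => exact (hst m (G m) ih).2.1
  have hmono : Monotone G := monotone_nat_of_le_succ fun m => (hst m (G m) (hG m)).1
  have hfst : ∀ c, ∃ b, ∃ m, (c, b) ∈ G m := by
    intro c
    obtain ⟨m, rfl⟩ := he c
    obtain ⟨b, hb⟩ := (hst m (G m) (hG m)).2.2.1
    exact ⟨b, m + 1, hb⟩
  have hsnd : ∀ c, ∃ a, ∃ m, (a, c) ∈ G m := by
    intro c
    obtain ⟨m, rfl⟩ := he c
    obtain ⟨b, hb⟩ := (hst m (G m) (hG m)).2.2.2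
    exact ⟨b, m + 1, hb⟩
  have heq : ∀ q q' : V × V, (∃ m, q ∈ G m) → (∃ m, q' ∈ G m) → (q.1 = q'.1 ↔ q.2 = q'.2) := by
    rintro q q' ⟨m, hm⟩ ⟨m', hm'⟩
    exact (hG (max m m')).1 q (Finset.mem_coe.2 (hmono (le_max_left _ _) hm)) q'
      (Finset.mem_coe.2 (hmono (le_max_right _ _) hm'))
  choose f m hf using hfst
  choose f' m' hf' using hsnd
  let g : V ≃ V :=
    { toFun := f
      invFun := f'
      left_inv := fun c => (heq (f' (f c), f c) (c, f c) ⟨_, hf' (f c)⟩ ⟨_, hf c⟩).2 rfl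
      right_inv := fun c => (heq (f' c, f (f' c)) (f' c, c) ⟨_, hf (f' c)⟩ ⟨_, hf' c⟩).1 rfl }
  refine ⟨g, fun J _ z => ?_, fun i => ?_⟩
  · obtain ⟨N, hN⟩ : ∃ N, ∀ j, m (z j) ≤ N := by
      have := Fintype.ofFinite J
      exact ⟨Finset.univ.sup fun j => m (z j), fun j =>
        Finset.le_sup (f := fun j => m (z j)) (Finset.mem_univ j)⟩
    exact (tpo_comp (hG N) (fun j => (z j, f (z j))) fun j =>
      Finset.mem_coe.2 (hmono (hN j) (hf (z j)))).symm
  · refine (heq (x i, f (x i)) (x i, y i) ⟨_, hf (x i)⟩ ⟨0, ?_⟩).1 rfl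
    exact Finset.mem_image.2 ⟨i, Finset.mem_univ i, rfl⟩

end

theorem pf_OLG : Pool.Agent.H72.CH.T_OLG := by
  intro V ρ σ 𝔹 m lv 𝔸 hV ht n
  have : Countable V := hV.cnt
  have : Nonempty V := hV.ne
  have hfin : (Set.range (fun x : Fin n → V => tp 𝔹 x)).Finite := Set.toFinite _
  have hch : ∀ p : Ty ρ (Fin n), ∃ y : Option (Fin n → V), ∀ x : Fin n → V, tp 𝔹 x = p →
      ∃ z, y = some z ∧ tp 𝔹 z = p := by
    intro p
    by_cases h : ∃ x : Fin n → V, tp 𝔹 x = p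
    · obtain ⟨x, hx⟩ := h
      exact ⟨some x, fun _ _ => ⟨x, rfl, hx⟩⟩
    · exact ⟨none, fun x hx => absurd ⟨x, hx⟩ h⟩
  choose y hy using hch
  refine ⟨(hfin.toFinset.image y).eraseNone, fun x => ?_⟩
  obtain ⟨z, hz, hz'⟩ := hy (tp 𝔹 x) x rfl
  refine ⟨z, ?_, ?_⟩
  · rw [Finset.mem_eraseNone, Finset.mem_image]
    refine ⟨tp 𝔹 x, ?_, hz⟩
    rw [Set.Finite.mem_toFinset]
    exact ⟨x, rfl⟩
  · obtain ⟨g, hg, hg'⟩ := bf hV.hmg z x hz'
    refine ⟨g, fun l w => ⟨fun h => ?_, fun h => ?_⟩, hg'⟩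
    · exact ht l _ _ h (hg _ w)
    · exact ht l _ _ h (hg _ w).symm

end Pool.Agent.H36.CH
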