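import Pool.Agent.H72.CH.Targets
import Pool.Agent.H70.FB.RGD

/-!
# Rigid images (RGD), for chains of equivalence relations
-/

set_option autoImplicit false

namespace Pool.Agent.H36.CH

open Pool.Agent.H68.BP Pool.Agent.H58.SF Pool.Agent.H53.NR
open Pool.Agent.H57.AR (tp ty Ty)
open Pool.Agent.H44.KR Pool.Agent.H44.FB
open Pool.Agent.H72.CH (HV Rgd)
open Function Classical

theorem pf_RGD : Pool.Agent.H72.CH.T_RGD := by
  intro V ρ σ 𝔹 m lv 𝔸 hV ht hC hE
  have hcount : Countable V := hV.cnt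
  obtain ⟨e, -, he⟩ := hC V ∅ (fun v => v) (fun Y F =>
    (∀ (l : Fin σ.m) (z : Fin (σ.ar l) → V), (∀ i, z i ∈ Y) → 𝔸 l z →
      𝔸 l (fun i => F (z i))) ∧ ∀ y ∈ Y, ∀ y' ∈ Y, Rg 𝔸 𝔹 (F y) (F y'))
    (by
      intro Y
      obtain ⟨g, hg, hR⟩ := Pool.Agent.H70.FB.rg_fin (𝔸 := 𝔸) hE ht Y
      exact ⟨g, ⟨fun l z _ hz => hg.1 l z hz, hR⟩, fun x hx => absurd hx (Finset.notMem_empty x)⟩)
    (by
      rintro Y Y' F hYY ⟨h1, h3⟩
      exact ⟨fun l z hz hA => h1 l z (fun i => hYY (hz i)) hA,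
        fun y hy y' hy' => h3 y (hYY hy) y' (hYY hy')⟩)
    (by
      rintro Y F F' ⟨h1, h3⟩ hT
      refine ⟨fun l z hz hA => ?_, fun y hy y' hy' => ?_⟩
      · exact tyi_on ht hT l z (fun i => Finset.mem_coe.2 (hz i)) (h1 l z hz hA)
      · refine Pool.Agent.H70.FB.rg_inv ht hE ?_ (h3 y hy y' hy')
        have h4 := tpo_comp hT ![y, y'] (fun w => by
          fin_cases w
          · exact Finset.mem_coe.2 hy
          · exact Finset.mem_coe.2 hy')
        have e1 : (fun w => F (![y, y'] w)) = ![F y, F y'] := by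
          funext w
          fin_cases w <;> rfl
        have e2 : (fun w => F' (![y, y'] w)) = ![F' y, F' y'] := by
          funext w
          fin_cases w <;> rfl
        rw [e1, e2] at h4
        exact h4)
  have hen : ∀ g : V → V, IsHom 𝔸 𝔸 g → En 𝔸 𝔹 g := fun g hg => ⟨hg, fun v => hV.one _ _⟩
  refine ⟨e, fun l z hz => ?_, fun x y g hg => ?_⟩
  · exact (he (Finset.univ.image z)).1 l z
      (fun i => Finset.mem_image_of_mem z (Finset.mem_univ i)) hz
  · obtain ⟨g', hg', h1, h2⟩ := (he {x, y}).2 x (Finset.mem_insert_self _ _) y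
      (Finset.mem_insert_of_mem (Finset.mem_singleton_self y)) g (hen g hg)
    exact ⟨g', hg'.1, h1, h2⟩

end Pool.Agent.H36.CH
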