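import Pool.Agent.H36.CH.Defs

/-! Ranks of divisible artinian abelian subgroups. -/

namespace H36.CH

open Subgroup

variable {G : Type*} [Group G]

/-- Only finitely many elements of prime order. -/
theorem DC.fin_prime {P : Subgroup G} (h : DC P) :
    {x | x ∈ P ∧ (orderOf x).Prime}.Finite := by
  have hart := h.art
  let T : ℕ → Subgroup ↥P := fun k =>
    { carrier := {x | ∃ n : ℕ, 0 < n ∧ (∀ p : ℕ, p.Prime → p ∣ n → k ≤ p) ∧ x ^ n = 1}
      mul_mem' := by
        rintro a b ⟨n, hn, hn1, hn2⟩ ⟨m, hm, hm1, hm2⟩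
        refine ⟨n * m, Nat.mul_pos hn hm, ?_, ?_⟩
        · intro p hp hd
          rcases (Nat.Prime.dvd_mul hp).mp hd with h1 | h1
          · exact hn1 p hp h1
          · exact hm1 p hp h1
        · have hcomm : Commute a b := Subtype.ext (h.comm a a.2 b b.2)
          rw [hcomm.mul_pow, pow_mul, hn2, one_pow, mul_comm n m, pow_mul, hm2, one_pow, one_mul]
      one_mem' := ⟨1, one_pos, fun p hp hd => absurd (Nat.dvd_one.mp hd) hp.one_lt.ne', one_pow 1⟩
      inv_mem' := by
        rintro a ⟨n, hn, hn1, hn2⟩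
        exact ⟨n, hn, hn1, by rw [inv_pow, hn2, inv_one]⟩ }
  have hanti : Antitone T := by
    intro k l hkl x hx
    obtain ⟨n, hn, hn1, hn2⟩ := hx
    exact ⟨n, hn, fun p hp hd => hkl.trans (hn1 p hp hd), hn2⟩
  obtain ⟨S, ⟨K, rfl⟩, hmin⟩ := (wellFounded_lt (α := Subgroup ↥P)).has_min (Set.range T)
    ⟨T 0, 0, rfl⟩
  have hsub : {x | x ∈ P ∧ (orderOf x).Prime} ⊆
      ⋃ p ∈ Finset.range K, {x | x ∈ P ∧ x ^ (p + 1) = 1} := by
    rintro x ⟨hx, hp⟩
    by_cases hlt : orderOf x < K + 1
    · have hpos := hp.pos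
      refine Set.mem_biUnion (x := orderOf x - 1) ?_ ?_
      · simp only [Finset.coe_range, Set.mem_Iio]
        omega
      · refine ⟨hx, ?_⟩
        have h1 : orderOf x - 1 + 1 = orderOf x := by omega
        rw [h1]
        exact pow_orderOf_eq_one x
    · exfalso
      set p := orderOf x with hpdef
      have h1 : T (p + 1) = T K := by
        have hle : T (p + 1) ≤ T K := hanti (by omega)
        by_contra hne
        exact hmin (T (p + 1)) ⟨p + 1, rfl⟩ (lt_of_le_of_ne hle hne)
      have h2 : (⟨x, hx⟩ : ↥P) ∈ T K := by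
        refine ⟨p, hp.pos, ?_, ?_⟩
        · intro q hq hd
          have := (Nat.prime_dvd_prime_iff_eq hq hp).mp hd
          omega
        · apply Subtype.ext
          show x ^ p = 1
          rw [hpdef]; exact pow_orderOf_eq_one x
      rw [← h1] at h2
      obtain ⟨n, hn, hn1, hn2⟩ := h2
      have h3 : x ^ n = 1 := congrArg Subtype.val hn2
      have h4 : p ∣ n := orderOf_dvd_of_pow_eq_one h3
      have := hn1 p hp h4
      omega
  refine Set.Finite.subset ?_ hsub
  refine Set.Finite.biUnion (Finset.finite_toSet _) ?_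
  intro p hp
  exact h.fin_tors (p + 1) (Nat.succ_pos p)

/-- A proper inclusion of divisible subgroups is seen on elements of prime order. -/
theorem DC.exists_prime {P Y : Subgroup G} (h : DC P) (hY : DC Y) (hlt : Y < P) :
    ∃ x ∈ P, (orderOf x).Prime ∧ x ∉ Y := by
  by_contra hcon
  push Not at hcon
  apply hlt.not_ge
  -- strong induction on the exponent
  have key : ∀ n : ℕ, ∀ x ∈ P, 0 < n → x ^ n = 1 → x ∈ Y := by
    intro n
    induction n using Nat.strong_induction_on with
    | _ n ih =>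
      intro x hx hn hxn
      by_cases h1 : n = 1
      · rw [h1, pow_one] at hxn
        rw [hxn]; exact Y.one_mem
      · obtain ⟨p, hp, m, rfl⟩ := Nat.exists_prime_and_dvd h1
        have hm : 0 < m := Nat.pos_of_ne_zero (by rintro rfl; simp at hn)
        have hlt2 : m < p * m := by
          have := hp.two_le
          nlinarith
        have h2 : x ^ p ∈ Y := by
          refine ih m hlt2 (x ^ p) (P.pow_mem hx p) hm ?_
          rw [← pow_mul]; exact hxn
        obtain ⟨y, hy, hyx⟩ := hY.div (x ^ p) h2 p hp.pos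
        have hyP : y ∈ P := hlt.le hy
        have hcomm : Commute x y⁻¹ := by
          have : Commute x y := h.comm x hx y hyP
          exact this.inv_right
        have h3 : (x * y⁻¹) ^ p = 1 := by
          rw [hcomm.mul_pow, inv_pow, hyx, mul_inv_cancel]
        by_cases h4 : x * y⁻¹ = 1
        · have : x = y := mul_inv_eq_one.mp h4
          rw [this]; exact hy
        · have hpf : Fact p.Prime := ⟨hp⟩
          have h5 : orderOf (x * y⁻¹) = p := orderOf_eq_prime h3 h4
          have h6 := hcon (x * y⁻¹) (P.mul_mem hx (P.inv_mem hyP)) (by rw [h5]; exact hp)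
          have h7 := Y.mul_mem h6 hy
          simpa using h7
  intro x hx
  obtain ⟨n, hn, hn1⟩ := h.torsion hx
  exact key n x hx hn hn1

/-- There is a chain of length `n` of divisible subgroups of `P`. -/
def Chain (P : Subgroup G) (n : ℕ) : Prop :=
  ∃ c : ℕ → Subgroup G, (∀ i, i < n → c i < c (i + 1)) ∧ ∀ i, i ≤ n → DC (c i) ∧ c i ≤ P

/-- The rank of `P`: the greatest length of a chain of divisible subgroups. -/
noncomputable def rk (P : Subgroup G) : ℕ := sSup {n | Chain P n}

theorem DC.bot : DC (⊥ : Subgroup G) where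
  comm := by
    intro x hx y hy
    rw [Subgroup.mem_bot] at hx hy
    rw [hx, hy]
  div := by
    intro x hx n _
    rw [Subgroup.mem_bot] at hx
    exact ⟨1, Subgroup.one_mem _, by rw [hx, one_pow]⟩
  art := by
    have : Finite (Subgroup ↥(⊥ : Subgroup G)) := inferInstance
    exact Finite.to_wellFoundedLT

theorem chain_zero (P : Subgroup G) : Chain P 0 :=
  ⟨fun _ => ⊥, fun i hi => absurd hi (Nat.not_lt_zero i), fun _ _ => ⟨DC.bot, bot_le⟩⟩

/-- Chains are bounded. -/
theorem DC.bdd {P : Subgroup G} (h : DC P) : BddAbove {n | Chain P n} := by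
  refine ⟨(h.fin_prime.toFinset).card, ?_⟩
  rintro n ⟨c, hc1, hc2⟩
  classical
  -- the number of elements of prime order strictly increases
  have key : ∀ i, i ≤ n → i ≤ ((h.fin_prime.toFinset).filter (fun x => x ∈ c i)).card := by
    intro i
    induction i with
    | zero => intro _; exact Nat.zero_le _
    | succ i ih =>
      intro hi
      have h1 := ih (by omega)
      have hlt := hc1 i (by omega)
      obtain ⟨x, hx, hxp, hxn⟩ := (hc2 (i + 1) hi).1.exists_prime (hc2 i (by omega)).1 hlt
      have h2 : ((h.fin_prime.toFinset).filter (fun x => x ∈ c i)) ⊂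
          ((h.fin_prime.toFinset).filter (fun x => x ∈ c (i + 1))) := by
        refine (Finset.ssubset_iff_of_subset ?_).mpr ⟨x, ?_, ?_⟩
        · intro z hz
          rw [Finset.mem_filter] at hz ⊢
          exact ⟨hz.1, hlt.le hz.2⟩
        · rw [Finset.mem_filter, Set.Finite.mem_toFinset]
          exact ⟨⟨(hc2 (i + 1) hi).2 hx, hxp⟩, hx⟩
        · rw [Finset.mem_filter]
          exact fun hz => hxn hz.2
      have h3 := Finset.card_lt_card h2
      omega
  exact (key n le_rfl).trans (Finset.card_filter_le _ _)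

theorem DC.chain_le {P : Subgroup G} (h : DC P) {n : ℕ} (hn : Chain P n) : n ≤ rk P :=
  le_csSup h.bdd hn

theorem DC.chain_rk {P : Subgroup G} (h : DC P) : Chain P (rk P) :=
  Nat.sSup_mem ⟨0, chain_zero P⟩ h.bdd

/-- Monotonicity of the rank. -/
theorem DC.rk_lt {P Y : Subgroup G} (h : DC P) (hY : DC Y) (hlt : Y < P) : rk Y < rk P := by
  obtain ⟨c, hc1, hc2⟩ := hY.chain_rk
  have h1 : Chain P (rk Y + 1) := by
    refine ⟨fun i => if i ≤ rk Y then c i else P, ?_, ?_⟩
    · intro i hi
      have hi' : i ≤ rk Y := by omega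
      by_cases h2 : i + 1 ≤ rk Y
      · simp only [if_pos hi', if_pos h2]
        exact hc1 i (by omega)
      · simp only [if_pos hi', if_neg h2]
        exact lt_of_le_of_lt (hc2 i hi').2 hlt
    · intro i hi
      by_cases h2 : i ≤ rk Y
      · simp only [if_pos h2]
        exact ⟨(hc2 i h2).1, (hc2 i h2).2.trans hlt.le⟩
      · simp only [if_neg h2]
        exact ⟨h, le_rfl⟩
  have := h.chain_le h1
  omega

/-- Images of divisible artinian subgroups. -/
theorem DC.map {G' : Type*} [Group G'] {P : Subgroup G} (h : DC P) (f : G →* G') :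
    DC (P.map f) where
  comm := by
    rintro _ ⟨x, hx, rfl⟩ _ ⟨y, hy, rfl⟩
    rw [← map_mul, ← map_mul, h.comm x hx y hy]
  div := by
    rintro _ ⟨x, hx, rfl⟩ n hn
    obtain ⟨y, hy, rfl⟩ := h.div x hx n hn
    exact ⟨f y, ⟨y, hy, rfl⟩, by rw [map_pow]⟩
  art := by
    have h1 : Function.Surjective (f.subgroupMap P) := f.subgroupMap_surjective P
    exact art_of_surjective (f.subgroupMap P) h1 h.art

/-- Lifting of chains along a homomorphism. -/
theorem rk_map_aux {G' : Type*} [Group G'] {P : Subgroup G} (h : DC P) (f : G →* G')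
    (n : ℕ) (hn : Chain (P.map f) n) :
    ∃ c : ℕ → Subgroup G, (∀ i, i < n → c i < c (i + 1)) ∧
      ∀ i, i ≤ n → DC (c i) ∧ c i ≤ P ∧ (∀ D, DC D → D ≤ P ⊓ f.ker → D ≤ c i) := by
  obtain ⟨d, hd1, hd2⟩ := hn
  have hex : ∀ i, ∃ D : Subgroup G, DP (P ⊓ (d i).comap f) D := by
    intro i
    refine exists_DP ?_ (art_mono inf_le_left h.art)
    intro x hx y hy
    exact h.comm x hx.1 y hy.1
  choose c hc using hex
  have hmax : ∀ i, ∀ D, DC D → D ≤ P ⊓ (d i).comap f → D ≤ c i := by
    intro i D hD hle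
    refine hD.le_of_relIndex ?_
    intro h0
    exact (hc i).fin (Subgroup.relIndex_eq_zero_of_le_right hle h0)
  have himg : ∀ i, i ≤ n → d i ≤ (c i).map f := by
    intro i hi y hy
    obtain ⟨z, hz, rfl⟩ := (hd2 i hi).1.div y hy
      ((c i).relIndex (P ⊓ (d i).comap f)).factorial (Nat.factorial_pos _)
    obtain ⟨x, hx, rfl⟩ := (hd2 i hi).2 hz
    have hxK : x ∈ P ⊓ (d i).comap f := ⟨hx, hz⟩
    have h1 := pow_mem_of_relIndex_ne_zero_of_dvd (hc i).fin hxK
      (n := ((c i).relIndex (P ⊓ (d i).comap f)).factorial)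
      (fun m hm hle => Nat.dvd_factorial hm hle)
    exact ⟨x ^ _, h1.1, by rw [map_pow]⟩
  have himg2 : ∀ i, (c i).map f ≤ d i := by
    rintro i _ ⟨x, hx, rfl⟩
    exact ((hc i).le hx).2
  refine ⟨c, ?_, ?_⟩
  · intro i hi
    refine lt_of_le_of_ne ?_ ?_
    · refine hmax (i + 1) (c i) (hc i).dc ((hc i).le.trans ?_)
      exact inf_le_inf_left P (Subgroup.comap_mono (hd1 i hi).le)
    · intro he
      have h1 : d (i + 1) ≤ d i := by
        refine (himg (i + 1) (by omega)).trans ?_
        rw [← he]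
        exact himg2 i
      exact (hd1 i hi).not_ge h1
  · intro i hi
    refine ⟨(hc i).dc, (hc i).le.trans inf_le_left, ?_⟩
    intro D hD hle
    refine hmax i D hD (hle.trans ?_)
    refine inf_le_inf_left P ?_
    intro x hx
    rw [MonoidHom.mem_ker] at hx
    rw [Subgroup.mem_comap, hx]
    exact Subgroup.one_mem _

/-- The rank does not increase under homomorphisms. -/
theorem DC.rk_map_le {G' : Type*} [Group G'] {P : Subgroup G} (h : DC P) (f : G →* G') :
    rk (P.map f) ≤ rk P := by
  obtain ⟨c, hc1, hc2⟩ := rk_map_aux h f _ (h.map f).chain_rk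
  exact h.chain_le ⟨c, hc1, fun i hi => ⟨(hc2 i hi).1, (hc2 i hi).2.1⟩⟩

/-- The rank drops if the kernel is infinite on `P`. -/
theorem DC.rk_map_lt {G' : Type*} [Group G'] {P : Subgroup G} (h : DC P) (f : G →* G')
    (hinf : ¬ ((P ⊓ f.ker : Subgroup G) : Set G).Finite) : rk (P.map f) < rk P := by
  obtain ⟨c, hc1, hc2⟩ := rk_map_aux h f _ (h.map f).chain_rk
  obtain ⟨D, hD⟩ : ∃ D : Subgroup G, DP (P ⊓ f.ker) D := by
    refine exists_DP ?_ (art_mono inf_le_left h.art)
    intro x hx y hy
    exact h.comm x hx.1 y hy.1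
  have hDne : (⊥ : Subgroup G) < D := by
    refine bot_lt_iff_ne_bot.mpr ?_
    intro he
    apply hinf
    have h1 := hD.fin
    rw [he, Subgroup.relIndex_bot_left] at h1
    exact (Nat.finite_of_card_ne_zero h1)
  have h0 : D ≤ c 0 := (hc2 0 (Nat.zero_le _)).2.2 D hD.dc hD.le
  have h1 : Chain P (rk (P.map f) + 1) := by
    refine ⟨fun i => if i = 0 then ⊥ else c (i - 1), ?_, ?_⟩
    · intro i hi
      by_cases h2 : i = 0
      · subst h2
        simpa using lt_of_lt_of_le hDne h0
      · obtain ⟨j, rfl⟩ := Nat.exists_eq_succ_of_ne_zero h2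
        have h3 := hc1 j (by omega)
        simpa using h3
    · intro i hi
      by_cases h2 : i = 0
      · subst h2
        simpa using DC.bot
      · obtain ⟨j, rfl⟩ := Nat.exists_eq_succ_of_ne_zero h2
        have h3 := hc2 j (by omega)
        simpa using ⟨h3.1, h3.2.1⟩
  have := h.chain_le h1
  omega

/-- Transfer of the rank to a subgroup. -/
theorem DC.rk_subgroupOf_le {P L : Subgroup G} (h : DC P) (hPL : P ≤ L) :
    DC (P.subgroupOf L) ∧ rk (P.subgroupOf L) ≤ rk P := by
  have h1 : DC (P.subgroupOf L) := by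
    refine ⟨?_, ?_, ?_⟩
    · intro x hx y hy
      exact Subtype.ext (h.comm x hx y hy)
    · intro x hx n hn
      obtain ⟨y, hy, hyx⟩ := h.div x hx n hn
      exact ⟨⟨y, hPL hy⟩, hy, Subtype.ext hyx⟩
    · exact art_of_injective (Subgroup.subgroupOfEquivOfLe hPL).toMonoidHom
        (Subgroup.subgroupOfEquivOfLe hPL).injective h.art
  refine ⟨h1, ?_⟩
  obtain ⟨c, hc1, hc2⟩ := h1.chain_rk
  refine h.chain_le ⟨fun i => (c i).map L.subtype, ?_, ?_⟩
  · intro i hi
    refine lt_of_le_of_ne (Subgroup.map_mono (hc1 i hi).le) ?_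
    intro he
    exact (hc1 i hi).ne (Subgroup.map_injective L.subtype_injective he)
  · intro i hi
    refine ⟨(hc2 i hi).1.map _, ?_⟩
    rintro _ ⟨x, hx, rfl⟩
    exact (hc2 i hi).2 hx

end H36.CH
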