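import Pool.Agent.H36.CH.Rank

/-! First steps of the reduction. -/

namespace H36.CH

open Subgroup Pointwise

variable {G : Type*} [Group G]

theorem Side.relIndex0 {A A0 P : Subgroup G} (h : Side A A0 P) : A0.relIndex A ≠ 0 := by
  have h1 : A0.relIndex A ∣ 2 := by
    rw [Subgroup.relIndex_dvd_two_iff]
    by_cases hA : ∃ a ∈ A, a ∉ A0
    · obtain ⟨a, ha, ha0⟩ := hA
      refine ⟨a, ha, fun b hb => ?_⟩
      by_cases hb0 : b ∈ A0
      · exact Or.inr hb0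
      · exact Or.inl (h.idx b hb a ha hb0 ha0)
    · push Not at hA
      exact ⟨1, A.one_mem, fun b hb => Or.inr (hA b hb)⟩
  intro h0
  rw [h0] at h1
  simp at h1

theorem Side.le_A0 {A A0 P : Subgroup G} (h : Side A A0 P) : P ≤ A0 := by
  refine h.dp.dc.le_of_relIndex ?_
  intro h0
  exact h.relIndex0 (Subgroup.relIndex_eq_zero_of_le_right h.dp.le h0)

/-- The normaliser, in elementary form. -/
def Nz (P : Subgroup G) : Subgroup G where
  carrier := {g | ∀ x ∈ P, g * x * g⁻¹ ∈ P ∧ g⁻¹ * x * g ∈ P}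
  one_mem' := by
    intro x hx
    simpa using hx
  mul_mem' := by
    intro a b ha hb x hx
    have h1 := (ha _ (hb x hx).1).1
    have h2 := (hb _ (ha x hx).2).2
    refine ⟨?_, ?_⟩
    · have h3 : a * b * x * (a * b)⁻¹ = a * (b * x * b⁻¹) * a⁻¹ := by group
      rw [h3]; exact h1
    · have h3 : (a * b)⁻¹ * x * (a * b) = b⁻¹ * (a⁻¹ * x * a) * b := by group
      rw [h3]; exact h2
  inv_mem' := by
    intro a ha x hx
    refine ⟨?_, ?_⟩
    · rw [inv_inv]; exact (ha x hx).2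
    · rw [inv_inv]; exact (ha x hx).1

theorem mem_Nz {P : Subgroup G} {g : G} :
    g ∈ Nz P ↔ ∀ x ∈ P, g * x * g⁻¹ ∈ P ∧ g⁻¹ * x * g ∈ P := Iff.rfl

theorem normal_of_Nz {P : Subgroup G} (h : Nz P = ⊤) : P.Normal := by
  refine ⟨fun x hx g => ?_⟩
  have hg : g ∈ Nz P := by rw [h]; exact Subgroup.mem_top g
  exact (hg x hx).1

/-- A conjugate of a divisible subgroup contained in `L` lies in `P` if `P` has finite index
in `L`. -/
theorem DC.conj_le {P L : Subgroup G} (h : DC P) (hfin : P.relIndex L ≠ 0) (g : G)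
    (hL : ∀ x ∈ P, g * x * g⁻¹ ∈ L) : ∀ x ∈ P, g * x * g⁻¹ ∈ P := by
  have h1 : DC (P.map (MulAut.conj g).toMonoidHom) := h.map _
  have h2 : P.map (MulAut.conj g).toMonoidHom ≤ P := by
    refine h1.le_of_relIndex ?_
    intro h0
    refine hfin (Subgroup.relIndex_eq_zero_of_le_right ?_ h0)
    rintro _ ⟨x, hx, rfl⟩
    exact hL x hx
  intro x hx
  exact h2 ⟨x, hx, rfl⟩

theorem DP.le_Nz {A P : Subgroup G} (h : DP A P) : A ≤ Nz P := by
  intro a ha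
  have key : ∀ b ∈ A, ∀ y ∈ P, b * y * b⁻¹ ∈ P := by
    intro b hb
    exact h.dc.conj_le h.fin b (fun x hx => A.mul_mem (A.mul_mem hb (h.le hx)) (A.inv_mem hb))
  intro x hx
  refine ⟨key a ha x hx, ?_⟩
  have h1 := key a⁻¹ (A.inv_mem ha) x hx
  rwa [inv_inv] at h1

/-- If conjugation by `g` maps the divisible subgroup `P` into itself then `g` normalises `P`. -/
theorem DC.mem_Nz {P : Subgroup G} (h : DC P) (g : G) (hg : ∀ x ∈ P, g * x * g⁻¹ ∈ P) :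
    g ∈ Nz P := by
  intro x hx
  refine ⟨hg x hx, ?_⟩
  obtain ⟨n, hn, hn1⟩ := h.torsion hx
  have hfin := h.fin_tors n hn
  have hmaps : Set.MapsTo (fun y => g * y * g⁻¹) {y | y ∈ P ∧ y ^ n = 1} {y | y ∈ P ∧ y ^ n = 1} := by
    rintro y ⟨hy, hy1⟩
    refine ⟨hg y hy, ?_⟩
    show (g * y * g⁻¹) ^ n = 1
    rw [conj_pow, hy1, mul_one, mul_inv_cancel]
  have hinj : Set.InjOn (fun y => g * y * g⁻¹) {y | y ∈ P ∧ y ^ n = 1} := by
    intro y _ z _ hyz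
    have h1 : g * y * g⁻¹ = g * z * g⁻¹ := hyz
    exact mul_left_cancel (mul_right_cancel h1)
  have himg : (fun y => g * y * g⁻¹) '' {y | y ∈ P ∧ y ^ n = 1} = {y | y ∈ P ∧ y ^ n = 1} := by
    refine Set.eq_of_subset_of_ncard_le hmaps.image_subset ?_ hfin
    rw [hinj.ncard_image]
  have hx' : x ∈ (fun y => g * y * g⁻¹) '' {y | y ∈ P ∧ y ^ n = 1} := by
    rw [himg]; exact ⟨hx, hn1⟩
  obtain ⟨y, ⟨hy, hy1⟩, hyx⟩ := hx'
  have h2 : g⁻¹ * x * g = y := by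
    rw [← hyx]
    group
  rw [h2]
  exact hy

/-- Finitely many representatives. -/
theorem exists_reps {A P : Subgroup G} (h : P.relIndex A ≠ 0) :
    ∃ t : Finset G, (∀ c ∈ t, c ∈ A) ∧ ∀ a ∈ A, ∃ c ∈ t, c⁻¹ * a ∈ P := by
  classical
  have h1 : Finite (↥A ⧸ P.subgroupOf A) := by
    have : (P.subgroupOf A).FiniteIndex := ⟨h⟩
    infer_instance
  have h2 := Fintype.ofFinite (↥A ⧸ P.subgroupOf A)
  refine ⟨Finset.univ.image (fun q : ↥A ⧸ P.subgroupOf A => ((Quotient.out q : ↥A) : G)), ?_, ?_⟩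
  · intro c hc
    rw [Finset.mem_image] at hc
    obtain ⟨q, -, rfl⟩ := hc
    exact (Quotient.out q).2
  · intro a ha
    refine ⟨((Quotient.out ((⟨a, ha⟩ : ↥A) : ↥A ⧸ P.subgroupOf A) : ↥A) : G), ?_, ?_⟩
    · exact Finset.mem_image_of_mem _ (Finset.mem_univ _)
    · have h3 : (QuotientGroup.mk (Quotient.out ((⟨a, ha⟩ : ↥A) : ↥A ⧸ P.subgroupOf A)) :
          ↥A ⧸ P.subgroupOf A) = QuotientGroup.mk ⟨a, ha⟩ := Quotient.out_eq _
      rw [QuotientGroup.eq] at h3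
      rw [Subgroup.mem_subgroupOf] at h3
      exact h3

/-- Neumann's lemma: the divisible parts generate a subgroup of finite index. -/
theorem index_sup_ne_zero {A B P Q : Subgroup G} (fac : ∀ g : G, ∃ a ∈ A, ∃ b ∈ B, g = a * b)
    (hPf : P.relIndex A ≠ 0) (hQf : Q.relIndex B ≠ 0) :
    (P ⊔ Q).index ≠ 0 := by
  classical
  obtain ⟨s, hs, hs2⟩ := exists_reps hPf
  obtain ⟨t, ht, ht2⟩ := exists_reps hQf
  have hcov : ⋃ i ∈ s ×ˢ t, (i.1 * i.2⁻¹) • (((P ⊔ Q).map (MulAut.conj i.2).toMonoidHom :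
      Subgroup G) : Set G) = Set.univ := by
    rw [Set.eq_univ_iff_forall]
    intro g
    obtain ⟨a, ha, b, hb, rfl⟩ := fac g
    obtain ⟨c, hc, hca⟩ := hs2 a ha
    obtain ⟨d, hd, hdb⟩ := ht2 b⁻¹ (B.inv_mem hb)
    rw [Set.mem_iUnion₂]
    refine ⟨(c, d), Finset.mem_product.mpr ⟨hc, hd⟩, ?_⟩
    rw [Set.mem_smul_set_iff_inv_smul_mem]
    refine ⟨c⁻¹ * a * (b * d), ?_, ?_⟩
    · refine (P ⊔ Q).mul_mem (le_sup_left (a := P) hca) ?_
      have h1 := Q.inv_mem hdb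
      have h2 : (d⁻¹ * b⁻¹)⁻¹ = b * d := by group
      rw [h2] at h1
      exact le_sup_right (a := P) h1
    · show d * (c⁻¹ * a * (b * d)) * d⁻¹ = (c * d⁻¹)⁻¹ * (a * b)
      group
  obtain ⟨k, hk, hfin⟩ := Subgroup.exists_finiteIndex_of_leftCoset_cover hcov
  have h1 := hfin.index_ne_zero
  have h2 := Subgroup.index_map_equiv (P ⊔ Q) (MulAut.conj k.2)
  intro h0
  apply h1
  rw [h0] at h2
  exact h2

theorem DC.le_normalCore {P H : Subgroup G} (h : DC P) (hH : H.index ≠ 0) : P ≤ H.normalCore := by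
  have hf : H.FiniteIndex := ⟨hH⟩
  refine h.le_of_relIndex ?_
  intro h0
  have h1 : (H.normalCore).index ≠ 0 := Subgroup.FiniteIndex.index_ne_zero
  exact h1 (Subgroup.index_eq_zero_of_relIndex_eq_zero h0)

theorem sup_normal {P Q : Subgroup G} (hP : DC P) (hQ : DC Q) (hH : (P ⊔ Q).index ≠ 0) :
    (P ⊔ Q).Normal := by
  have h1 : P ⊔ Q ≤ (P ⊔ Q).normalCore := sup_le (hP.le_normalCore hH) (hQ.le_normalCore hH)
  have h2 : (P ⊔ Q).normalCore = P ⊔ Q := le_antisymm (Subgroup.normalCore_le _) h1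
  rw [← h2]
  exact Subgroup.normalCore_normal _

/-- Divisible times torsion: if the commutators of `P` and `Q` are centralised by `P` and `Q`
then they are trivial. -/
theorem comm_of_central {P Q : Subgroup G} (hP : DC P) (hQ : DC Q)
    (hc : ∀ x ∈ P, ∀ y ∈ Q, ∀ z ∈ P, (x * y * x⁻¹ * y⁻¹) * z = z * (x * y * x⁻¹ * y⁻¹))
    (hc2 : ∀ x ∈ P, ∀ y ∈ Q, ∀ z ∈ Q, (x * y * x⁻¹ * y⁻¹) * z = z * (x * y * x⁻¹ * y⁻¹)) :
    ∀ x ∈ P, ∀ y ∈ Q, x * y = y * x := by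
  intro x hx y hy
  obtain ⟨n, hn, hn1⟩ := hQ.torsion hy
  obtain ⟨u, hu, rfl⟩ := hP.div x hx n hn
  have key : ∀ m : ℕ, u ^ m * y * (u ^ m)⁻¹ * y⁻¹ = (u * y * u⁻¹ * y⁻¹) ^ m := by
    intro m
    induction m with
    | zero => simp
    | succ m ih =>
      have h1 := hc u hu y hy (u ^ m) (P.pow_mem hu m)
      calc u ^ (m + 1) * y * (u ^ (m + 1))⁻¹ * y⁻¹
          = u ^ m * (u * y * u⁻¹ * y⁻¹) * (y * (u ^ m)⁻¹ * y⁻¹) := by rw [pow_succ]; group
        _ = (u * y * u⁻¹ * y⁻¹) * (u ^ m * y * (u ^ m)⁻¹ * y⁻¹) := by rw [← h1]; group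
        _ = (u * y * u⁻¹ * y⁻¹) ^ (m + 1) := by rw [ih, pow_succ']
  have h2 : (u * y * u⁻¹ * y⁻¹) ^ n = 1 := by
    have hcomm : Commute (u * y * u⁻¹ * y⁻¹) y := hc2 u hu y hy y hy
    have h3 : (u * y * u⁻¹ * y⁻¹) * y = u * y * u⁻¹ := by group
    have h4 : ((u * y * u⁻¹ * y⁻¹) * y) ^ n = 1 := by
      rw [h3, conj_pow, hn1, mul_one, mul_inv_cancel]
    rw [hcomm.mul_pow, hn1, mul_one] at h4
    exact h4
  have h5 := key n
  rw [h2] at h5
  have h6 : u ^ n * y = (u ^ n * y * (u ^ n)⁻¹ * y⁻¹) * (y * u ^ n) := by group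
  rw [h6, h5, one_mul]

end H36.CH
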