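import Pool.Agent.H36.CH.Red1

/-! Transfer of the hypotheses to subgroups and images. -/

namespace H36.CH

open Subgroup Pointwise

variable {G : Type*} [Group G]

theorem relIndex_of_reps {A P : Subgroup G} (t : Set G) (ht : t.Finite)
    (h : ∀ a ∈ A, ∃ c ∈ t, c⁻¹ * a ∈ P) : P.relIndex A ≠ 0 := by
  have hfin : Finite (↥A ⧸ P.subgroupOf A) := by
    have := ht.to_subtype
    choose! c hc1 hc2 using h
    let f : ↥A ⧸ P.subgroupOf A → t := fun q =>
      ⟨c ((Quotient.out q : ↥A) : G), hc1 _ (Quotient.out q).2⟩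
    refine Finite.of_injective f ?_
    intro q q' hqq
    have h1 : c ((Quotient.out q : ↥A) : G) = c ((Quotient.out q' : ↥A) : G) :=
      congrArg Subtype.val hqq
    have h2 := hc2 _ (Quotient.out q).2
    have h3 := hc2 _ (Quotient.out q').2
    rw [← h1] at h3
    have h4 := P.mul_mem (P.inv_mem h2) h3
    have h5 : (c ((Quotient.out q : ↥A) : G))⁻¹ * ((Quotient.out q : ↥A) : G) = (c ((Quotient.out q : ↥A) : G))⁻¹ * ((Quotient.out q : ↥A) : G) := rfl
    have h6 : ((c ((Quotient.out q : ↥A) : G))⁻¹ * ((Quotient.out q : ↥A) : G))⁻¹ *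
        ((c ((Quotient.out q : ↥A) : G))⁻¹ * ((Quotient.out q' : ↥A) : G)) =
        ((Quotient.out q : ↥A) : G)⁻¹ * ((Quotient.out q' : ↥A) : G) := by group
    rw [h6] at h4
    rw [← Quotient.out_eq q, ← Quotient.out_eq q']
    apply Quotient.sound
    apply QuotientGroup.leftRel_apply.mpr
    rw [Subgroup.mem_subgroupOf]
    exact h4
  rw [Subgroup.relIndex]
  exact Subgroup.index_ne_zero_of_finite

theorem relIndex_map_ne_zero {G' : Type*} [Group G'] (f : G →* G') {A P : Subgroup G}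
    (h : P.relIndex A ≠ 0) : (P.map f).relIndex (A.map f) ≠ 0 := by
  classical
  obtain ⟨t, ht, ht2⟩ := exists_reps h
  refine relIndex_of_reps (f '' (t : Set G)) (t.finite_toSet.image f) ?_
  rintro _ ⟨a, ha, rfl⟩
  obtain ⟨c, hc, hca⟩ := ht2 a ha
  refine ⟨f c, ⟨c, hc, rfl⟩, ?_⟩
  rw [← map_inv, ← map_mul]
  exact ⟨_, hca, rfl⟩

theorem DP.map {G' : Type*} [Group G'] {A P : Subgroup G} (h : DP A P) (f : G →* G') :
    DP (A.map f) (P.map f) :=
  ⟨h.dc.map f, Subgroup.map_mono h.le, relIndex_map_ne_zero f h.fin⟩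

theorem DP.sub {A P L : Subgroup G} (h : DP A P) (hAL : A ≤ L) :
    DP (A.subgroupOf L) (P.subgroupOf L) := by
  refine ⟨(h.dc.rk_subgroupOf_le (h.le.trans hAL)).1, ?_, ?_⟩
  · exact Subgroup.comap_mono h.le
  · rw [Subgroup.relIndex_subgroupOf hAL]
    exact h.fin

theorem Side.map {G' : Type*} [Group G'] {A A0 P : Subgroup G} (h : Side A A0 P) (f : G →* G') :
    Side (A.map f) (A0.map f) (P.map f) where
  dp := h.dp.map f
  le0 := Subgroup.map_mono h.le0
  comm0 := by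
    rintro _ ⟨x, hx, rfl⟩ _ ⟨y, hy, rfl⟩
    rw [← map_mul, ← map_mul, h.comm0 x hx y hy]
  idx := by
    rintro _ ⟨x, hx, rfl⟩ _ ⟨y, hy, rfl⟩ hx0 hy0
    rw [← map_mul]
    refine ⟨x * y, h.idx x hx y hy ?_ ?_, rfl⟩
    · intro h1; exact hx0 ⟨x, h1, rfl⟩
    · intro h1; exact hy0 ⟨y, h1, rfl⟩

theorem Side.sub {A A0 P L : Subgroup G} (h : Side A A0 P) (hAL : A ≤ L) :
    Side (A.subgroupOf L) (A0.subgroupOf L) (P.subgroupOf L) where
  dp := h.dp.sub hAL
  le0 := Subgroup.comap_mono h.le0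
  comm0 := by
    intro x hx y hy
    exact Subtype.ext (h.comm0 x hx y hy)
  idx := by
    intro x hx y hy hx0 hy0
    exact h.idx x hx y hy hx0 hy0

/-- Passing to a subgroup `A'` of `A` with divisible part `P'`. -/
theorem Side.restrict {A A0 P A' P' : Subgroup G} (h : Side A A0 P) (hA : A' ≤ A)
    (hP : DP A' P') : Side A' (A0 ⊓ A') P' where
  dp := hP
  le0 := inf_le_right
  comm0 := fun x hx y hy => h.comm0 x hx.1 y hy.1
  idx := by
    intro x hx y hy hx0 hy0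
    refine ⟨h.idx x (hA hx) y (hA hy) (fun h1 => hx0 ⟨h1, hx⟩) (fun h1 => hy0 ⟨h1, hy⟩),
      A'.mul_mem hx hy⟩

theorem Hyp.sub {A A0 P B B0 Q L : Subgroup G} (hA : A ≤ L) (hB : B ≤ L)
    (fac : ∀ g ∈ L, ∃ a ∈ A, ∃ b ∈ B, g = a * b) (sa : Side A A0 P) (sb : Side B B0 Q) :
    Hyp (A.subgroupOf L) (A0.subgroupOf L) (P.subgroupOf L) (B.subgroupOf L) (B0.subgroupOf L)
      (Q.subgroupOf L) where
  fac := by
    rintro ⟨g, hg⟩
    obtain ⟨a, ha, b, hb, rfl⟩ := fac g hg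
    exact ⟨⟨a, hA ha⟩, ha, ⟨b, hB hb⟩, hb, rfl⟩
  sa := sa.sub hA
  sb := sb.sub hB

theorem Hyp.map {G' : Type*} [Group G'] {A A0 P B B0 Q : Subgroup G} (h : Hyp A A0 P B B0 Q)
    (f : G →* G') (hf : Function.Surjective f) :
    Hyp (A.map f) (A0.map f) (P.map f) (B.map f) (B0.map f) (Q.map f) where
  fac := by
    intro g
    obtain ⟨g, rfl⟩ := hf g
    obtain ⟨a, ha, b, hb, rfl⟩ := h.fac g
    exact ⟨f a, ⟨a, ha, rfl⟩, f b, ⟨b, hb, rfl⟩, map_mul f a b⟩
  sa := h.sa.map f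
  sb := h.sb.map f

theorem Hyp.symm {A A0 P B B0 Q : Subgroup G} (h : Hyp A A0 P B B0 Q) : Hyp B B0 Q A A0 P where
  fac := by
    intro g
    obtain ⟨a, ha, b, hb, he⟩ := h.fac g⁻¹
    refine ⟨b⁻¹, B.inv_mem hb, a⁻¹, A.inv_mem ha, ?_⟩
    rw [← mul_inv_rev, ← he, inv_inv]
  sa := h.sb
  sb := h.sa

/-- A class of factorised groups closed under passing to factorised subgroups and images. -/
structure Cls (C : ∀ (G : Type) [Group G], Subgroup G → Subgroup G → Subgroup G → Subgroup G →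
    Prop) : Prop where
  sub : ∀ (G : Type) [Group G] (A A0 B B0 A' B' L : Subgroup G), C G A A0 B B0 → A' ≤ A → B' ≤ B →
    A' ≤ L → B' ≤ L →
    C ↥L (A'.subgroupOf L) ((A0 ⊓ A').subgroupOf L) (B'.subgroupOf L) ((B0 ⊓ B').subgroupOf L)
  map : ∀ (G : Type) [Group G] (G' : Type) [Group G'] (A A0 B B0 : Subgroup G) (f : G →* G'),
    C G A A0 B B0 → C G' (A.map f) (A0.map f) (B.map f) (B0.map f)

/-- The class with the roles of the factors exchanged. -/
theorem Cls.symm {C : ∀ (G : Type) [Group G], Subgroup G → Subgroup G → Subgroup G →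
    Subgroup G → Prop} (h : Cls C) : Cls (fun G _ A A0 B B0 => C G B B0 A A0) where
  sub := fun G _ A A0 B B0 A' B' L hC hA hB hAL hBL => h.sub G B B0 A A0 B' A' L hC hB hA hBL hAL
  map := fun G _ G' _ A A0 B B0 f hC => h.map G G' B B0 A A0 f hC

/-- The inductive hypothesis: the result holds below rank sum `n`. -/
def Below (C : ∀ (G : Type) [Group G], Subgroup G → Subgroup G → Subgroup G → Subgroup G →
    Prop) (n : ℕ) : Prop :=
  ∀ (G : Type) [Group G] (A A0 P B B0 Q : Subgroup G), Hyp A A0 P B B0 Q → C G A A0 B B0 →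
    rk P + rk Q < n → ∀ x ∈ P, ∀ y ∈ Q, x * y = y * x

theorem Below.symm {C : ∀ (G : Type) [Group G], Subgroup G → Subgroup G → Subgroup G →
    Subgroup G → Prop} {n : ℕ} (h : Below C n) : Below (fun G _ A A0 B B0 => C G B B0 A A0) n := by
  intro G _ A A0 P B B0 Q hH hC hn x hx y hy
  exact (h G B B0 Q A A0 P hH.symm hC (by omega) y hy x hx).symm

/-- The maximality property: a subgroup containing `A` is everything or a finite extension
of `A`. -/
theorem maxA {C : ∀ (G : Type) [Group G], Subgroup G → Subgroup G → Subgroup G →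
    Subgroup G → Prop} (hC : Cls C) {n : ℕ} (hB : Below C n)
    {G : Type} [Group G] {A A0 P B B0 Q : Subgroup G} (h : Hyp A A0 P B B0 Q)
    (hc : C G A A0 B B0) (hn : rk P + rk Q ≤ n)
    (hfin : {y | y ∈ Q ∧ ∀ x ∈ P, x * y = y * x}.Finite)
    (hnrm : A ⊔ (P ⊔ Q) = ⊤) (L : Subgroup G) (hAL : A ≤ L) :
    L = ⊤ ∨ A.relIndex L ≠ 0 := by
  obtain ⟨D, hD⟩ : ∃ D : Subgroup G, DP (L ⊓ Q) D := by
    refine exists_DP ?_ (art_mono inf_le_right h.sb.dp.dc.art)
    intro x hx y hy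
    exact h.sb.dp.dc.comm x hx.2 y hy.2
  have hD2 : DP (L ⊓ B) D := by
    refine ⟨hD.dc, hD.le.trans (inf_le_inf_left L h.sb.dp.le), ?_⟩
    refine Subgroup.relIndex_ne_zero_trans hD.fin ?_
    rw [inf_comm L Q, inf_comm L B]
    exact Subgroup.relIndex_inter_ne_zero h.sb.dp.fin L
  have hDQ : D ≤ Q := hD.le.trans inf_le_right
  have hDL : D ≤ L := hD.le.trans inf_le_left
  rcases eq_or_lt_of_le hDQ with heq | hlt
  · left
    rw [eq_top_iff, ← hnrm]
    refine sup_le hAL (sup_le (h.sa.dp.le.trans hAL) ?_)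
    rw [← heq]
    exact hDL
  · right
    have hrk := h.sb.dp.dc.rk_lt hD.dc hlt
    have hfacL : ∀ g ∈ L, ∃ a ∈ A, ∃ b ∈ L ⊓ B, g = a * b := by
      intro g hg
      obtain ⟨a, ha, b, hb, rfl⟩ := h.fac g
      refine ⟨a, ha, b, ⟨?_, hb⟩, rfl⟩
      have h1 := L.mul_mem (L.inv_mem (hAL ha)) hg
      rwa [inv_mul_cancel_left] at h1
    have hside : Side (L ⊓ B) (B0 ⊓ (L ⊓ B)) D := h.sb.restrict inf_le_right hD2
    have hsideA : Side A (A0 ⊓ A) P := h.sa.restrict le_rfl h.sa.dp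
    have hH := Hyp.sub hAL (inf_le_left : L ⊓ B ≤ L) hfacL hsideA hside
    have hcc := hC.sub G A A0 B B0 A (L ⊓ B) L hc le_rfl inf_le_right hAL inf_le_left
    have hr1 := (h.sa.dp.dc.rk_subgroupOf_le (h.sa.dp.le.trans hAL)).2
    have hr2 := (hD.dc.rk_subgroupOf_le hDL).2
    have hcomm := hB ↥L _ _ _ _ _ _ hH hcc (by omega)
    have hDfin : (D : Set G).Finite := by
      refine hfin.subset ?_
      intro y hy
      refine ⟨hDQ hy, ?_⟩
      intro x hx
      have h1 := hcomm ⟨x, hAL (h.sa.dp.le hx)⟩ hx ⟨y, hDL hy⟩ hy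
      exact congrArg Subtype.val h1
    have hDbot : D = ⊥ := by
      have h1 : D ≤ ⊥ := by
        refine hD.dc.le_of_relIndex ?_
        rw [Subgroup.relIndex_bot_left]
        have := hDfin.to_subtype
        exact Nat.card_pos.ne'
      exact le_antisymm h1 bot_le
    have hLBfin : ((L ⊓ B : Subgroup G) : Set G).Finite := by
      have h1 := hD2.fin
      rw [hDbot, Subgroup.relIndex_bot_left] at h1
      exact Nat.finite_of_card_ne_zero h1
    refine relIndex_of_reps (((L ⊓ B : Subgroup G) : Set G)) hLBfin ?_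
    intro g hg
    obtain ⟨a, ha, b, hb, he⟩ := hfacL g⁻¹ (L.inv_mem hg)
    refine ⟨b⁻¹, (L ⊓ B).inv_mem hb, ?_⟩
    have h1 : g = b⁻¹ * a⁻¹ := by rw [← mul_inv_rev, ← he, inv_inv]
    rw [h1, inv_inv, mul_inv_cancel_left]
    exact A.inv_mem ha

end H36.CH
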