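import Pool.Agent.H36.CH.Red2

/-! The reduction to configurations with trivial centraliser. -/

namespace H36.CH

open Subgroup Pointwise

/-- The configuration reached by the reduction. -/
structure Cfg {G : Type*} [Group G] (A A0 P B B0 Q : Subgroup G) : Prop where
  hyp : Hyp A A0 P B B0 Q
  maxA : ∀ L : Subgroup G, A ≤ L → L = ⊤ ∨ A.relIndex L ≠ 0
  maxB : ∀ L : Subgroup G, B ≤ L → L = ⊤ ∨ B.relIndex L ≠ 0
  cent : ∀ g : G, (∀ x ∈ P, g * x = x * g) → (∀ y ∈ Q, g * y = y * g) → g = 1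
  ne : ¬ ∀ x ∈ P, ∀ y ∈ Q, x * y = y * x

section

variable {G : Type*} [Group G]

theorem finite_of_relIndex {P Z : Subgroup G} (h : P.relIndex Z ≠ 0)
    (hf : ((P ⊓ Z : Subgroup G) : Set G).Finite) : (Z : Set G).Finite := by
  have h1 : (⊥ : Subgroup G).relIndex (P ⊓ Z) ≠ 0 := by
    rw [Subgroup.relIndex_bot_left]
    have := hf.to_subtype
    exact Nat.card_pos.ne'
  have h2 : (P ⊓ Z).relIndex Z ≠ 0 := by
    rw [Subgroup.inf_relIndex_right]
    exact h
  have h3 := Subgroup.relIndex_ne_zero_trans h1 h2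
  rw [Subgroup.relIndex_bot_left] at h3
  exact Nat.finite_of_card_ne_zero h3

/-- If the divisible part `P` is normal, a divisible `Q` centralises it. -/
theorem comm_of_normal {P Q : Subgroup G} (hP : DC P) (hQ : DC Q) (h : Q ≤ Nz P) :
    ∀ x ∈ P, ∀ y ∈ Q, x * y = y * x := by
  intro x hx y hy
  obtain ⟨n, hn, hn1⟩ := hP.torsion hx
  refine (hQ.comm_of_finite x ((hP.fin_tors n hn).subset ?_) y hy).symm
  rintro _ ⟨q, hq, rfl⟩
  refine ⟨(h hq x hx).1, ?_⟩
  rw [conj_pow, hn1, mul_one, mul_inv_cancel]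

theorem Zfin {A A0 P B B0 Q : Subgroup G} (h : Hyp A A0 P B B0 Q)
    (hmax : ∀ L : Subgroup G, A ≤ L → L = ⊤ ∨ A.relIndex L ≠ 0)
    (hne : ¬ ∀ x ∈ P, ∀ y ∈ Q, x * y = y * x)
    (hPZ : ((P ⊓ Subgroup.centralizer ((P ⊔ Q : Subgroup G) : Set G) : Subgroup G) :
      Set G).Finite) :
    ((Subgroup.centralizer ((P ⊔ Q : Subgroup G) : Set G) : Subgroup G) : Set G).Finite := by
  set Z := Subgroup.centralizer ((P ⊔ Q : Subgroup G) : Set G) with hZ
  rcases hmax (A ⊔ Z) le_sup_left with h1 | h1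
  · exfalso
    apply hne
    have h2 : Nz P = ⊤ := by
      rw [eq_top_iff, ← h1]
      refine sup_le h.sa.dp.le_Nz ?_
      intro z hz
      rw [hZ, Subgroup.mem_centralizer_iff] at hz
      intro x hx
      have h3 : x * z = z * x := hz x (le_sup_left (a := P) hx)
      refine ⟨?_, ?_⟩
      · rw [← h3, mul_inv_cancel_right]; exact hx
      · rw [mul_assoc, h3, inv_mul_cancel_left]; exact hx
    exact comm_of_normal h.sa.dp.dc h.sb.dp.dc (by rw [h2]; exact le_top)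
  · have h2 : A.relIndex Z ≠ 0 := fun h0 =>
      h1 (Subgroup.relIndex_eq_zero_of_le_right le_sup_right h0)
    have h3 : P.relIndex Z ≠ 0 := Subgroup.relIndex_ne_zero_trans h.sa.dp.fin h2
    exact finite_of_relIndex h3 hPZ

/-- In the quotient by a normal subgroup centralising `P` and `Q` the images still do not
commute. -/
theorem ne_quot {P Q Z : Subgroup G} [Z.Normal] (hP : DC P) (hQ : DC Q)
    (hZ : Z ≤ Subgroup.centralizer ((P ⊔ Q : Subgroup G) : Set G))
    (hne : ¬ ∀ x ∈ P, ∀ y ∈ Q, x * y = y * x) :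
    ¬ ∀ x ∈ P.map (QuotientGroup.mk' Z), ∀ y ∈ Q.map (QuotientGroup.mk' Z), x * y = y * x := by
  intro hcon
  apply hne
  have hc : ∀ x ∈ P, ∀ y ∈ Q, x * y * x⁻¹ * y⁻¹ ∈ Z := by
    intro x hx y hy
    have h1 := hcon _ ⟨x, hx, rfl⟩ _ ⟨y, hy, rfl⟩
    rw [← map_mul, ← map_mul] at h1
    rw [← QuotientGroup.eq_one_iff]
    show QuotientGroup.mk' Z (x * y * x⁻¹ * y⁻¹) = 1
    have h2 : x * y * x⁻¹ * y⁻¹ = (x * y) * (y * x)⁻¹ := by group
    rw [h2, map_mul, map_inv, h1, mul_inv_cancel]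
  refine comm_of_central hP hQ ?_ ?_
  · intro x hx y hy z hz
    have h1 := hZ (hc x hx y hy)
    rw [Subgroup.mem_centralizer_iff] at h1
    exact (h1 z (le_sup_left (a := P) hz)).symm
  · intro x hx y hy z hz
    have h1 := hZ (hc x hx y hy)
    rw [Subgroup.mem_centralizer_iff] at h1
    exact (h1 z (le_sup_right (a := P) hz)).symm

/-- Centralisers in the quotient by a finite centraliser are trivial. -/
theorem cent_quot {P Q Z : Subgroup G} [Z.Normal] (hP : DC P) (hQ : DC Q)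
    (hZ : Z = Subgroup.centralizer ((P ⊔ Q : Subgroup G) : Set G)) (hfin : (Z : Set G).Finite)
    (g : G ⧸ Z) (h1 : ∀ x ∈ P.map (QuotientGroup.mk' Z), g * x = x * g)
    (h2 : ∀ x ∈ Q.map (QuotientGroup.mk' Z), g * x = x * g) : g = 1 := by
  obtain ⟨g, rfl⟩ := QuotientGroup.mk'_surjective Z g
  have key : ∀ R : Subgroup G, DC R → (∀ x ∈ R.map (QuotientGroup.mk' Z),
      QuotientGroup.mk' Z g * x = x * QuotientGroup.mk' Z g) → ∀ p ∈ R, p * g = g * p := by
    intro R hR hcomm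
    refine hR.comm_of_finite g ((hfin.image (fun z => z * g)).subset ?_)
    rintro _ ⟨p, hp, rfl⟩
    refine ⟨p * g * p⁻¹ * g⁻¹, ?_, by show p * g * p⁻¹ * g⁻¹ * g = _; group⟩
    show p * g * p⁻¹ * g⁻¹ ∈ Z
    rw [← QuotientGroup.eq_one_iff]
    show QuotientGroup.mk' Z (p * g * p⁻¹ * g⁻¹) = 1
    have h3 : p * g * p⁻¹ * g⁻¹ = (p * g) * (g * p)⁻¹ := by group
    have h4 := hcomm _ ⟨p, hp, rfl⟩
    rw [h3, map_mul, map_inv, map_mul, map_mul, h4, mul_inv_cancel]
  have hgP := key P hP h1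
  have hgQ := key Q hQ h2
  have hgZ : g ∈ Z := by
    rw [hZ]
    have h3 : P ⊔ Q ≤ Subgroup.centralizer {g} := by
      refine sup_le ?_ ?_
      · intro x hx
        rw [Subgroup.mem_centralizer_singleton_iff]
        exact hgP x hx
      · intro x hx
        rw [Subgroup.mem_centralizer_singleton_iff]
        exact hgQ x hx
    rw [Subgroup.mem_centralizer_iff]
    intro x hx
    have h4 := h3 hx
    rw [Subgroup.mem_centralizer_singleton_iff] at h4
    exact h4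
  show QuotientGroup.mk' Z g = 1
  exact (QuotientGroup.eq_one_iff g).mpr hgZ

end

/-- The inductive step, for a normalised group. -/
theorem step_nrm {C : ∀ (G : Type) [Group G], Subgroup G → Subgroup G → Subgroup G →
    Subgroup G → Prop} (hC : Cls C)
    (core : ∀ (G : Type) [Group G] (A A0 P B B0 Q : Subgroup G), Cfg A A0 P B B0 Q →
      C G A A0 B B0 → False) {n : ℕ} (hB : Below C n)
    {G : Type} [Group G] {A A0 P B B0 Q : Subgroup G} (h : Hyp A A0 P B B0 Q)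
    (hc : C G A A0 B B0) (hn : rk P + rk Q ≤ n) (hnrmA : A ⊔ (P ⊔ Q) = ⊤)
    (hnrmB : B ⊔ (P ⊔ Q) = ⊤) (hnorm : (P ⊔ Q).Normal) :
    ∀ x ∈ P, ∀ y ∈ Q, x * y = y * x := by
  by_contra hne
  set Z := Subgroup.centralizer ((P ⊔ Q : Subgroup G) : Set G) with hZ
  have hZn : Z.Normal := Subgroup.normal_centralizer
  let f := QuotientGroup.mk' Z
  have hfs : Function.Surjective f := QuotientGroup.mk'_surjective Z
  have hker : f.ker = Z := QuotientGroup.ker_mk' Z
  have hH' := h.map f hfs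
  have hc' := hC.map G (G ⧸ Z) A A0 B B0 f hc
  have hne' := ne_quot (Z := Z) h.sa.dp.dc h.sb.dp.dc le_rfl hne
  have hrP := h.sa.dp.dc.rk_map_le f
  have hrQ := h.sb.dp.dc.rk_map_le f
  have hPZ : ((P ⊓ Z : Subgroup G) : Set G).Finite := by
    by_contra hinf
    have h1 := h.sa.dp.dc.rk_map_lt f (by rw [hker]; exact hinf)
    exact hne' (hB (G ⧸ Z) _ _ _ _ _ _ hH' hc'
      (lt_of_lt_of_le (Nat.add_lt_add_of_lt_of_le h1 hrQ) hn))
  have hQZ : ((Q ⊓ Z : Subgroup G) : Set G).Finite := by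
    by_contra hinf
    have h1 := h.sb.dp.dc.rk_map_lt f (by rw [hker]; exact hinf)
    exact hne' (hB (G ⧸ Z) _ _ _ _ _ _ hH' hc'
      (lt_of_lt_of_le (Nat.add_lt_add_of_le_of_lt hrP h1) hn))
  have hmaxA : ∀ L : Subgroup G, A ≤ L → L = ⊤ ∨ A.relIndex L ≠ 0 := by
    refine maxA hC hB h hc hn (hQZ.subset ?_) hnrmA
    rintro y ⟨hy, hy2⟩
    refine ⟨hy, ?_⟩
    show y ∈ Z
    have h3 : P ⊔ Q ≤ Subgroup.centralizer {y} := by
      refine sup_le ?_ ?_
      · intro x hx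
        rw [Subgroup.mem_centralizer_singleton_iff]
        exact hy2 x hx
      · intro x hx
        rw [Subgroup.mem_centralizer_singleton_iff]
        exact h.sb.dp.dc.comm x hx y hy
    rw [hZ, Subgroup.mem_centralizer_iff]
    intro x hx
    have h4 := h3 hx
    rw [Subgroup.mem_centralizer_singleton_iff] at h4
    exact h4
  have hZfin : (Z : Set G).Finite := Zfin h hmaxA hne hPZ
  have hcent := cent_quot (Z := Z) h.sa.dp.dc h.sb.dp.dc rfl hZfin
  have htopA : A.map f ⊔ (P.map f ⊔ Q.map f) = ⊤ := by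
    rw [← Subgroup.map_sup, ← Subgroup.map_sup, hnrmA, Subgroup.map_top_of_surjective f hfs]
  have htopB : B.map f ⊔ (P.map f ⊔ Q.map f) = ⊤ := by
    rw [← Subgroup.map_sup, ← Subgroup.map_sup, hnrmB, Subgroup.map_top_of_surjective f hfs]
  refine core (G ⧸ Z) (A.map f) (A0.map f) (P.map f) (B.map f) (B0.map f) (Q.map f)
    ⟨hH', ?_, ?_, hcent, hne'⟩ hc'
  · refine maxA hC hB hH' hc' (by omega) (Set.Finite.subset (Set.finite_singleton 1) ?_) htopA
    rintro y ⟨hy, hy2⟩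
    rw [Set.mem_singleton_iff]
    exact hcent y (fun x hx => (hy2 x hx).symm) (fun x hx => hH'.sb.dp.dc.comm y hy x hx)
  · refine maxA hC.symm hB.symm hH'.symm hc' (by omega)
      (Set.Finite.subset (Set.finite_singleton 1) ?_) (by rw [sup_comm (Q.map f)]; exact htopB)
    rintro y ⟨hy, hy2⟩
    rw [Set.mem_singleton_iff]
    exact hcent y (fun x hx => hH'.sa.dp.dc.comm y hy x hx) (fun x hx => (hy2 x hx).symm)

/-- The inductive step. -/
theorem step {C : ∀ (G : Type) [Group G], Subgroup G → Subgroup G → Subgroup G →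
    Subgroup G → Prop} (hC : Cls C)
    (core : ∀ (G : Type) [Group G] (A A0 P B B0 Q : Subgroup G), Cfg A A0 P B B0 Q →
      C G A A0 B B0 → False) {n : ℕ} (hB : Below C n) : Below C (n + 1) := by
  intro G _ A A0 P B B0 Q h hc hn
  have hidx : (P ⊔ Q).index ≠ 0 := index_sup_ne_zero h.fac h.sa.dp.fin h.sb.dp.fin
  have hnorm : (P ⊔ Q).Normal := sup_normal h.sa.dp.dc h.sb.dp.dc hidx
  set H := P ⊔ Q with hH
  set L := (A ⊔ H) ⊓ (B ⊔ H) with hL
  set A1 := A ⊓ (B ⊔ H) with hA1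
  set B1 := B ⊓ (A ⊔ H) with hB1
  have hPH : P ≤ H := le_sup_left
  have hQH : Q ≤ H := le_sup_right
  have hHL : H ≤ L := le_inf le_sup_right le_sup_right
  have hA1L : A1 ≤ L := le_inf (inf_le_left.trans le_sup_left) inf_le_right
  have hB1L : B1 ≤ L := le_inf inf_le_right (inf_le_left.trans le_sup_left)
  have hPA1 : P ≤ A1 := le_inf h.sa.dp.le (hPH.trans le_sup_right)
  have hQB1 : Q ≤ B1 := le_inf h.sb.dp.le (hQH.trans le_sup_right)
  have hfacL : ∀ g ∈ L, ∃ a ∈ A1, ∃ b ∈ B1, g = a * b := by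
    rintro g ⟨hg1, hg2⟩
    obtain ⟨a, ha, b, hb, rfl⟩ := h.fac g
    refine ⟨a, ⟨ha, ?_⟩, b, ⟨hb, ?_⟩, rfl⟩
    · have h1 := (B ⊔ H).mul_mem hg2 ((B ⊔ H).inv_mem (le_sup_left (a := B) hb))
      rwa [mul_inv_cancel_right] at h1
    · have h1 := (A ⊔ H).mul_mem ((A ⊔ H).inv_mem (le_sup_left (a := A) ha)) hg1
      rwa [inv_mul_cancel_left] at h1
  have hdA : DP A1 P := ⟨h.sa.dp.dc, hPA1, fun h0 => h.sa.dp.fin
    (Subgroup.relIndex_eq_zero_of_le_right inf_le_left h0)⟩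
  have hdB : DP B1 Q := ⟨h.sb.dp.dc, hQB1, fun h0 => h.sb.dp.fin
    (Subgroup.relIndex_eq_zero_of_le_right inf_le_left h0)⟩
  have hHyp := Hyp.sub hA1L hB1L hfacL (h.sa.restrict inf_le_left hdA)
    (h.sb.restrict inf_le_left hdB)
  have hcc := hC.sub G A A0 B B0 A1 B1 L hc inf_le_left inf_le_left hA1L hB1L
  have hr1 := (h.sa.dp.dc.rk_subgroupOf_le (hPH.trans hHL)).2
  have hr2 := (h.sb.dp.dc.rk_subgroupOf_le (hQH.trans hHL)).2
  have hsup : P.subgroupOf L ⊔ Q.subgroupOf L = H.subgroupOf L :=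
    (Subgroup.subgroupOf_sup (hPH.trans hHL) (hQH.trans hHL)).symm
  have hA1top : A1 ⊔ H = L := by
    refine le_antisymm (sup_le hA1L hHL) ?_
    rintro g ⟨hg1, hg2⟩
    obtain ⟨a, ha, x, hx, rfl⟩ := Subgroup.mem_sup_of_normal_right.mp hg1
    refine (A1 ⊔ H).mul_mem (le_sup_left (a := A1) ⟨ha, ?_⟩) (le_sup_right (a := A1) hx)
    have h1 := (B ⊔ H).mul_mem hg2 ((B ⊔ H).inv_mem (le_sup_right (a := B) hx))
    rwa [mul_inv_cancel_right] at h1
  have hB1top : B1 ⊔ H = L := by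
    refine le_antisymm (sup_le hB1L hHL) ?_
    rintro g ⟨hg1, hg2⟩
    obtain ⟨a, ha, x, hx, rfl⟩ := Subgroup.mem_sup_of_normal_right.mp hg2
    refine (B1 ⊔ H).mul_mem (le_sup_left (a := B1) ⟨ha, ?_⟩) (le_sup_right (a := B1) hx)
    have h1 := (A ⊔ H).mul_mem hg1 ((A ⊔ H).inv_mem (le_sup_right (a := A) hx))
    rwa [mul_inv_cancel_right] at h1
  have key := step_nrm hC core hB hHyp hcc (by omega) ?_ ?_ ?_
  · intro x hx y hy
    have h1 := key ⟨x, hHL (hPH hx)⟩ hx ⟨y, hHL (hQH hy)⟩ hy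
    exact congrArg Subtype.val h1
  · rw [hsup, ← Subgroup.subgroupOf_sup hA1L hHL, hA1top, Subgroup.subgroupOf_self]
  · rw [hsup, ← Subgroup.subgroupOf_sup hB1L hHL, hB1top, Subgroup.subgroupOf_self]
  · rw [hsup]
    exact hnorm.subgroupOf L

/-- The reduction theorem. -/
theorem reduction {C : ∀ (G : Type) [Group G], Subgroup G → Subgroup G → Subgroup G →
    Subgroup G → Prop} (hC : Cls C)
    (core : ∀ (G : Type) [Group G] (A A0 P B B0 Q : Subgroup G), Cfg A A0 P B B0 Q →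
      C G A A0 B B0 → False) (G : Type) [Group G] (A A0 P B B0 Q : Subgroup G)
    (h : Hyp A A0 P B B0 Q) (hc : C G A A0 B B0) : ∀ x ∈ P, ∀ y ∈ Q, x * y = y * x := by
  have key : ∀ n : ℕ, Below C n := by
    intro n
    induction n with
    | zero => intro G _ A A0 P B B0 Q _ _ h0; exact absurd h0 (Nat.not_lt_zero _)
    | succ n ih => exact step hC core ih
  exact key (rk P + rk Q + 1) G A A0 P B B0 Q h hc (Nat.lt_succ_self _)

end H36.CH
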