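import Pool.Agent.H72.CH.Targets2

/-!
# Chains of equivalence relations: the case of one level which can be avoided
-/

set_option autoImplicit false
set_option linter.unusedVariables false

namespace Pool.Agent.H36.CH

open Pool.Agent.H68.BP Pool.Agent.H58.SF Pool.Agent.H53.NR
open Pool.Agent.H57.AR (tp ty Ty HomEq)
open Pool.Agent.H57.EQ (Cx)
open Pool.Agent.H57.LH (Hmg tp_iff)
open Pool.Agent.H44.KR (Tyi)
open Pool.Agent.H72.CH
open Function

/-- constant tuples have one type -/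
theorem tp_const {V : Type} {ρ : Sig} {𝔹 : Str ρ V} {m : ℕ} {lv : V → V → ℕ} (hV : HV 𝔹 m lv)
    (v₀ : V) {J : Type} (x : J → V) (hx : ∀ a b, x a = x b) :
    tp 𝔹 (fun _ : J => v₀) = tp 𝔹 x := by
  refine tp_iff.2 ⟨fun a b => iff_of_true rfl (hx a b), fun l z => ?_⟩
  have h1 : (fun i => x (z i)) = fun _ => x (z ⟨0, hV.ar l⟩) := funext fun i => hx _ _
  rw [h1]
  exact iff_of_eq (congrFun (hV.one v₀ (x (z ⟨0, hV.ar l⟩))) l)

/-- **If the only level can be avoided, then the structure is equivalent to one on a point.** -/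
theorem pf_SB1 : T_SB1 := by
  intro V ρ σ 𝔹 lv 𝔸 hV ht hA
  obtain ⟨v₀⟩ := hV.ne
  refine ⟨fun l z => 𝔸 l (fun _ => v₀), fun n 𝕏 => ⟨?_, ?_⟩⟩
  · rintro ⟨f, hf⟩
    obtain ⟨ψ, h1, h2⟩ := hA n f
    have h3 : ∀ a b, ψ a = ψ b := fun a b =>
      hV.lev.eq _ _ (le_antisymm (hV.lev.pl.le _ _) (Nat.one_le_iff_ne_zero.2 (h2 a b)))
    refine ⟨fun _ => (), fun l x hx => ?_⟩
    exact ht l _ _ (h1 l x fun _ => hf l x hx) (tp_const hV v₀ _ fun a b => h3 _ _)
  · rintro ⟨f, hf⟩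
    exact ⟨fun _ => v₀, fun l x hx => hf l x hx⟩

end Pool.Agent.H36.CH
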